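import Pool.Agent.Helper37.DK2.Def

/-! FROZEN STATEMENTS: the classes `DKU` (non concentration of the tangents for some constant) and NOUNIT: there are no
types with unit directions in the coordinates of weight larger than one over the members of a homogeneous class. -/

set_option autoImplicit false

namespace Pool.Agent.Helper37.DK2

open Finset Filter Topology Matrix Pool.Agent.Helper69.RK Pool.Agent.Helper31.EC Pool.Agent.Helper31.EC.Sp
open Pool.Agent.Helper40.EL Pool.Agent.Helper89.LX Pool.Agent.Helper3.LF Pool.Agent.Helper84.MT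
open Pool.Agent.Helper49.MD Pool.Agent.Helper36.AM

noncomputable section

/-- the class `NC k h` for some `h > 0` -/
def DKU (M k : ℕ) : MCl M := fun _ _ _ s => ∃ m : ℕ, NC k (1 / ((m : ℝ) + 1)) s

/-- the derivative of the coordinate `j` of the chart of a leaf at the point, in the direction of the parameter `a` -/
def ltan {S : Sp} {M : ℕ} {E : ℕ → ℕ} {Q : S.VV M} (l : Leaf S Q E) (k : ℕ) (ω : (S.F k).Ω) (a : Fin l.e)
    (j : Fin M) : ℝ := deriv (fun t => l.F k ω (Function.update (l.Y.v k ω) a t) j) (l.Y.v k ω a)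

/-- NOUNIT: over the members of a homogeneous class with (R1) there are no types whose tangents have no component in the
coordinates of weight one and one of them is almost a unit vector -/
def NOU (M : ℕ) : Prop := ∀ (Cl : MCl (M + 1)) (g r : ℕ) (w : Fin (M + 1) → ℝ) (ρ : ℝ)
  (TT : ∀ S : Sp, MSys S (M + 1) (lin g) (Fin r) → Prop), Hom M Cl g r w ρ TT → (∀ S s, TT S s → R1 (J1 w) s) →
    STO (M + 1) (DKU (M + 1) (nd1 w + 1)) → ∀ g' : ℕ, ∃ θ : ℝ, 0 < θ ∧
      ∀ (S : Sp) (s : MSys S (M + 1) (lin g) (Fin r)), TT S s → ∀ X : Leaf S s.Q (lin g'),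
        (∀ᶠ k in UF, ∀ ω, (S.F k).μ ω ≠ 0 → ∀ a, ∀ j ∈ J1 w, ltan X k ω a j = 0) →
          ¬ ∀ᶠ k in UF, ∀ ω, (S.F k).μ ω ≠ 0 → ∃ a j, S.dl θ k ≤ |ltan X k ω a j|

end

end Pool.Agent.Helper37.DK2
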