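import Pool.Agent.Helper37.DK2.CloF

/-! CLOSURE of the classes `NC k h`, (R1) and `NCq`: diagonals, extensions, more types, events of extensions. -/

set_option autoImplicit false

namespace Pool.Agent.Helper37.DK2

open Finset Filter Topology Matrix Pool.Agent.Helper69.RK Pool.Agent.Helper31.EC Pool.Agent.Helper31.EC.Sp
open Pool.Agent.Helper40.EL Pool.Agent.Helper89.LX Pool.Agent.Helper3.LF Pool.Agent.Helper84.MT
open Pool.Agent.Helper49.MD Pool.Agent.Helper36.AM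

noncomputable section

variable {S T : Sp} {M : ℕ} {E : ℕ → ℕ} {ι κ : Type}

/-! ### diagonals -/

theorem lft_and_pd (A : AP (KM M ι)) {x : (KM M ι).Ob S} :
    lft (E := E) (fun S (s : MSys S M E ι) => A.pd 0 S (ob s)) S x ↔ isM M E ι S x ∧ A.pd 0 S x := by
  constructor
  · rintro ⟨s, hs, h⟩
    exact ⟨⟨s, hs⟩, A.inv 0 S _ _ hs h⟩
  · rintro ⟨⟨s, hs⟩, h⟩
    exact ⟨s, hs, A.inv 0 S _ _ (hs.mono fun _ e => e.symm) h⟩

theorem lft_diagCl [Finite ι] (A : AP (KM M ι)) :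
    DiagCl (lft (E := E) (fun S (s : MSys S M E ι) => A.pd 0 S (ob s))) :=
  (isM_diagCl.and (A.diagCl 0)).mono (fun _ _ _ h => (lft_and_pd A).mp h) (fun _ _ h => (lft_and_pd A).mpr h)

theorem NC.diagCl [Finite ι] (k : ℕ) (h : ℝ) : DiagCl (lft (E := E) (ι := ι) (M := M) fun _ s => NC k h s) :=
  lft_diagCl _

theorem R1.diagCl [Finite ι] (J : Finset (Fin M)) : DiagCl (lft (E := E) (ι := ι) (M := M) fun _ s => R1 J s) :=
  lft_diagCl _

theorem NCq.diagCl [Finite ι] (J : Finset (Fin M)) (h : ℝ) :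
    DiagCl (lft (E := E) (ι := ι) (M := M) fun _ s => NCq J h s) := lft_diagCl _

theorem mtan_pull (s : MSys S M E ι) (p : Pj T S) (n : ℕ) :
    mtan (ob (s.pull p) n) = fun ω => mtan (ob s n) (p.π n ω) := rfl

theorem NC.pull {k : ℕ} {h : ℝ} (h0 : 0 < h) {s : MSys S M E ι} (H : NC k h s) (p : Pj T S) : NC k h (s.pull p) := by
  intro δ hδ
  filter_upwards [H δ hδ] with n hk
  have hk' : NCf (S.F n) (cQ1 (S.F n) (ob s n)) (Fin (M + 1 - k)) (mtan (ob s n)) h δ := hk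
  have hC : ∀ ω ω' : (T.F n).Ω, (T.F n).μ ω ≠ 0 → (T.F n).μ ω' ≠ 0 → (cQ1 (T.F n) (ob (s.pull p) n) ω ω' ↔
      cQ1 (S.F n) (ob s n) (p.π n ω) (p.π n ω')) := by
    intro ω ω' _ _
    have e1 : dlF (T.F n) 1 = dlF (S.F n) 1 := by
      unfold dlF
      rw [p.hn n]
    have e2 : ∀ ω, (ob (s.pull p) n).Q ω = (ob s n).Q (p.π n ω) := fun _ => rfl
    have e3 : ∀ ω, cell (dlF (T.F n) 1) ((ob (s.pull p) n).Q ω) = cell (dlF (S.F n) 1) ((ob s n).Q (p.π n ω)) := by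
      intro ω
      rw [e1, e2]
    unfold cQ1
    rw [Setoid.ker_def, Setoid.ker_def, e3, e3]
  have h2 := NCf.pull (p.fp n) (p.hn n) hC h0 hδ hk'
  show NCf (T.F n) (cQ1 (T.F n) (ob (s.pull p) n)) (Fin (M + 1 - k)) (mtan (ob (s.pull p) n)) h δ
  rw [mtan_pull]
  exact h2

/-! ### types -/

theorem NC.union {k : ℕ} {h : ℝ} {s : MSys S M E ι} (H : NC k h s) (l : κ → Leaf S s.Q E) :
    NC k h (s.union l) := by
  intro δ hδ
  filter_upwards [H δ hδ] with n hk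
  have hk' : NCf (S.F n) (cQ1 (S.F n) (ob s n)) (Fin (M + 1 - k)) (mtan (ob s n)) h δ := hk
  exact hk'.sub fun ω _ a => ⟨⟨Sum.inl a.1, a.2⟩, rfl⟩

theorem NC.add {k : ℕ} {h : ℝ} (h0 : 0 < h) {s : MSys S M E ι} (H : NC k h s) (p : Pj T S)
    (l : κ → Leaf T (p.vv s.Q) E) : NC k h (s.add p l) := (H.pull h0 p).union l

/-- a family of types which contains the old one -/
theorem NC.ren {k : ℕ} {h : ℝ} {s : MSys S M E ι} (H : NC k h s) {f : κ → ι} (hf : Function.Surjective f) :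
    NC k h (s.ren f) := by
  intro δ hδ
  filter_upwards [H δ hδ] with n hk
  have hk' : NCf (S.F n) (cQ1 (S.F n) (ob s n)) (Fin (M + 1 - k)) (mtan (ob s n)) h δ := hk
  refine hk'.sub fun ω _ a => ?_
  obtain ⟨i, a⟩ := a
  obtain ⟨b, rfl⟩ := hf i
  exact ⟨⟨b, a⟩, rfl⟩

/-- the class of a system of which only some types are used -/
theorem NC.of_ren {k : ℕ} {h : ℝ} {s : MSys S M E ι} {f : κ → ι} (H : NC k h (s.ren f)) : NC k h s := by
  intro δ hδ
  filter_upwards [H δ hδ] with n hk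
  have hk' : NCf (S.F n) (cQ1 (S.F n) (ob (s.ren f) n)) (Fin (M + 1 - k)) (mtan (ob (s.ren f) n)) h δ := hk
  exact hk'.sub fun ω _ a => ⟨⟨f a.1, a.2⟩, rfl⟩

theorem NC.le {k : ℕ} {h h' : ℝ} (h0 : 0 < h') (hh : h' ≤ h) {s : MSys S M E ι} (H : NC k h s) : NC k h' s := by
  intro δ hδ
  filter_upwards [H δ hδ] with n hk
  have hk' : NCf (S.F n) (cQ1 (S.F n) (ob s n)) (Fin (M + 1 - k)) (mtan (ob s n)) h δ := hk
  exact hk'.le h0 hh hδ

theorem NC.anti {k k' : ℕ} {h : ℝ} (hk : k' ≤ k) {s : MSys S M E ι} (H : NC k h s) : NC k' h s := by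
  intro δ hδ
  filter_upwards [H δ hδ] with n h1
  have hk' : NCf (S.F n) (cQ1 (S.F n) (ob s n)) (Fin (M + 1 - k)) (mtan (ob s n)) h δ := h1
  exact hk'.inj (Fin.castLE (by omega)) (Fin.castLE_injective _)

/-- `NC` on events of extensions -/
theorem NC.im {k : ℕ} {h : ℝ} (h0 : 0 < h) {s : MSys S M E ι} (H : NC k h s) (p : Pj T S)
    (A : ∀ k, (T.F k).Ω → Prop) (hA : 0 < ul (T.pr A)) : NC k h (s.im p A hA) := by
  intro δ hδ
  set r := min (ul (T.pr A) / 2) 1 with hr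
  have hr0 : 0 < r := lt_min (by positivity) one_pos
  have hr1 : r ≤ 1 := min_le_right _ _
  have hd' : 0 < δ * r / 2 := by positivity
  have t1 : Tendsto (fun n => 1 / (h * δ) / (S.F n).n) UF (𝓝 0) := S.div_n_tendsto _
  filter_upwards [H (δ * r / 2) hd', (ul_tendsto (UB_pr A)).eventually (eventually_ge_nhds
    (show r < ul (T.pr A) from lt_of_le_of_lt (min_le_left _ _) (by linarith))), t1.eventually (gt_mem_nhds hd')]
    with n hk hp ht
  have hk' : NCf (S.F n) (cQ1 (S.F n) (ob s n)) (Fin (M + 1 - k)) (mtan (ob s n)) h (δ * r / 2) := hk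
  have e1 : 1 / (h * δ * (S.F n).n) = 1 / (h * δ) / (S.F n).n := by rw [div_div]
  have h2 := hk'.im (p.fp n) (A n) (δ := δ) h0 hd' hr0 hp (by nlinarith) (by rw [e1]; linarith)
  exact h2

theorem NCq.im {J : Finset (Fin M)} {h : ℝ} (h0 : 0 < h) {s : MSys S M E ι} (H : NCq J h s) (p : Pj T S)
    (A : ∀ k, (T.F k).Ω → Prop) (hA : 0 < ul (T.pr A)) : NCq J h (s.im p A hA) := by
  intro δ hδ
  set r := min (ul (T.pr A) / 2) 1 with hr
  have hr0 : 0 < r := lt_min (by positivity) one_pos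
  have hr1 : r ≤ 1 := min_le_right _ _
  have hd' : 0 < δ * r / 2 := by positivity
  have t1 : Tendsto (fun n => 1 / (h * δ) / (S.F n).n) UF (𝓝 0) := S.div_n_tendsto _
  filter_upwards [H (δ * r / 2) hd', (ul_tendsto (UB_pr A)).eventually (eventually_ge_nhds
    (show r < ul (T.pr A) from lt_of_le_of_lt (min_le_left _ _) (by linarith))), t1.eventually (gt_mem_nhds hd')]
    with n hk hp ht
  have hk' : NCf (S.F n) (cQ1 (S.F n) (ob s n)) (Fin 1) (fun ω a (j : J) => mtan (ob s n) ω a j) h (δ * r / 2) := hk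
  have e1 : 1 / (h * δ * (S.F n).n) = 1 / (h * δ) / (S.F n).n := by rw [div_div]
  have h2 := hk'.im (p.fp n) (A n) (δ := δ) h0 hd' hr0 hp (by nlinarith) (by rw [e1]; linarith)
  exact h2

/-- (R1) on events of extensions -/
theorem R1.im {J : Finset (Fin M)} {s : MSys S M E ι} (H : R1 J s) (p : Pj T S)
    (A : ∀ k, (T.F k).Ω → Prop) (hA : 0 < ul (T.pr A)) : R1 J (s.im p A hA) := by
  intro δ hδ
  set r := ul (T.pr A) / 2 with hr
  have hr0 : 0 < r := by positivity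
  have hd' : 0 < δ * r / 2 := by positivity
  have t1 : Tendsto (fun n => 1 / (S.F n).n) UF (𝓝 0) := S.div_n_tendsto _
  filter_upwards [H (δ * r / 2) hd', (ul_tendsto (UB_pr A)).eventually (eventually_ge_nhds
    (show r < ul (T.pr A) by linarith)), t1.eventually (gt_mem_nhds hd')] with n hk hp ht
  have hn0 := (S.F n).pos
  have h1 : I (fc (tcell (S.F n) (ob s n) J) : FL (S.F n)) (fc (cQ1 (S.F n) (ob s n))) ⊥ ≤ δ * r / 2 * (S.F n).n := hk
  have h2 := I_im_le (p.fp n) (A n) (tcell (S.F n) (ob s n) J) (cQ1 (S.F n) (ob s n))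
  have hp' : r ≤ (T.F n).pb (A n) := hp
  have h4 := I_nonneg (fc (tcell (S.F n) (ob s n) J) : FL (FSp.im (p.fp n) (A n)))
    (fc (F := FSp.im (p.fp n) (A n)) (cQ1 (S.F n) (ob s n))) ⊥
  have h5 := mul_le_mul_of_nonneg_right hp' h4
  have key : I (fc (tcell (S.F n) (ob s n) J) : FL (FSp.im (p.fp n) (A n)))
    (fc (F := FSp.im (p.fp n) (A n)) (cQ1 (S.F n) (ob s n))) ⊥ ≤ δ * (S.F n).n := by
    rw [div_lt_iff₀ hn0] at ht
    refine le_of_mul_le_mul_left ?_ hr0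
    nlinarith
  exact key

end

end Pool.Agent.Helper37.DK2
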