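import Pool.Agent.Helper37.DK2.Fq2

/-! NON CONCENTRATION NEAR HYPERPLANES of the parts of the tangents in the coordinates of weight one, for the members of
a homogeneous class with (R1). -/

set_option autoImplicit false

namespace Pool.Agent.Helper37.DK2

open Finset Filter Topology Matrix Pool.Agent.Helper69.RK Pool.Agent.Helper31.EC Pool.Agent.Helper31.EC.Sp
open Pool.Agent.Helper40.EL Pool.Agent.Helper89.LX Pool.Agent.Helper3.LF Pool.Agent.Helper84.MT
open Pool.Agent.Helper49.MD Pool.Agent.Helper36.AM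
open Pool.Agent.Helper52.SL (untF tnF untL tnL cellv_chg untF_leak tnF_leak tnF_info)

noncomputable section

variable {S T : Sp} {M : ℕ} {E : ℕ → ℕ} {ι κ : Type}

/-! ### bounds -/

theorem sub_sum (S : Sp) (s : Finset κ) (K : κ → ℕ → ℝ) (hK : ∀ i ∈ s, S.Sub (K i)) : S.Sub (fun k => ∑ i ∈ s, K i k) := by
  classical
  induction s using Finset.induction_on with
  | empty =>
    simp only [Finset.sum_empty]
    exact S.Sub_const le_rfl
  | insert a s ha ih =>
    simp only [Finset.sum_insert ha]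
    exact (hK a (Finset.mem_insert_self _ _)).add (ih fun i hi => hK i (Finset.mem_insert_of_mem hi))

theorem exists_sub [Finite κ] (S : Sp) (P : κ → ℕ → ℝ → Prop) (hP : ∀ i k a b, a ≤ b → P i k a → P i k b)
    (hK : ∀ i, ∃ K : ℕ → ℝ, S.Sub K ∧ ∀ᶠ k in UF, P i k (K k)) :
    ∃ K : ℕ → ℝ, S.Sub K ∧ ∀ᶠ k in UF, ∀ i, P i k (K k) := by
  cases nonempty_fintype κ
  choose K h1 h2 using hK
  refine ⟨fun k => ∑ i, K i k, sub_sum S _ _ fun i _ => h1 i, ?_⟩
  have h3 : ∀ᶠ k in UF, ∀ i, 0 ≤ K i k := eventually_all.mpr fun i => (h1 i).1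
  have h4 : ∀ᶠ k in UF, ∀ i, P i k (K i k) := eventually_all.mpr h2
  filter_upwards [h3, h4] with k a b i
  exact hP i k _ _ (Finset.single_le_sum (f := fun i => K i k) (fun i _ => a i) (Finset.mem_univ i)) (b i)

/-- the bounds of a system -/
theorem exists_bds [Finite ι] (s : MSys S M E ι) : ∃ K : ℕ → ℝ, S.Sub K ∧ (∀ k, 1 ≤ K k) ∧ ∀ᶠ k in UF,
    (∀ ω, (S.F k).μ ω ≠ 0 → ∀ j, |s.Q.v k ω j| ≤ K k) ∧
    (∀ ω, (S.F k).μ ω ≠ 0 → ∀ i a, |(s.lf i).Y.v k ω a| ≤ K k) ∧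
    (∀ ω ω', (S.F k).μ ω ≠ 0 → (S.F k).μ ω' ≠ 0 → (S.F k).Z ω ω' → ∀ i, (s.lf i).La k ω ω' →
      (s.lf i).F k ω = (s.lf i).F k ω') ∧
    (∀ ω, (S.F k).μ ω ≠ 0 → ∀ i j, |s.Q.v k ω j - (s.lf i).F k ω ((s.lf i).Y.v k ω) j| ≤ K k * S.dl 1 k) := by
  obtain ⟨K1, h1, b1⟩ := s.Q.bd
  obtain ⟨K2, h2, b2⟩ := exists_sub S (fun i k a => ∀ ω, (S.F k).μ ω ≠ 0 → ∀ c, |(s.lf i).Y.v k ω c| ≤ a)
    (fun i k a b hab h ω hω c => (h ω hω c).trans hab) fun i => (s.lf i).Y.bd
  obtain ⟨K3, h3, b3⟩ := exists_sub S (fun i k a => ∀ ω, (S.F k).μ ω ≠ 0 → ∀ j,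
    |s.Q.v k ω j - (s.lf i).F k ω ((s.lf i).Y.v k ω) j| ≤ a * S.dl 1 k)
    (fun i k a b hab h ω hω c => (h ω hω c).trans (mul_le_mul_of_nonneg_right hab (S.dl_pos 1 k).le))
    fun i => (s.lf i).pt
  have b4 : ∀ᶠ k in UF, ∀ i, ∀ ω ω', (S.F k).μ ω ≠ 0 → (S.F k).μ ω' ≠ 0 → (S.F k).Z ω ω' → (s.lf i).La k ω ω' →
      (s.lf i).F k ω = (s.lf i).F k ω' := eventually_all.mpr fun i => (s.lf i).fn
  have h5 : S.Sub (fun k => max (K1 k + K2 k + K3 k) 1) := by
    refine ((h1.add (h2.add h3)).add (S.Sub_const zero_le_one)).mono ?_ ?_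
    · exact Eventually.of_forall fun k => zero_le_one.trans (le_max_right _ _)
    · filter_upwards [h1.1, h2.1, h3.1] with k a b c
      exact max_le (by linarith) (by linarith)
  refine ⟨_, h5, fun k => le_max_right _ _, ?_⟩
  filter_upwards [h1.1, h2.1, h3.1, b1, b2, b3, b4] with k a1 a2 a3 c1 c2 c3 c4
  refine ⟨fun ω hω j => (c1 ω hω j).trans ((?_ : _ ≤ _).trans (le_max_left _ _)),
    fun ω hω i a => (c2 i ω hω a).trans ((?_ : _ ≤ _).trans (le_max_left _ _)),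
    fun ω ω' p q r i d => c4 i ω ω' p q r d,
    fun ω hω i j => (c3 i ω hω j).trans (mul_le_mul_of_nonneg_right ((?_ : _ ≤ _).trans (le_max_left _ _)) (S.dl_pos 1 k).le)⟩ <;>
  linarith

/-! ### uniform connectedness -/

theorem unif {Cl : MCl (M + 1)} {g r : ℕ} {w : Fin (M + 1) → ℝ} {ρ : ℝ}
    {TT : ∀ S : Sp, MSys S (M + 1) (lin g) (Fin r) → Prop} (hT : Hom M Cl g r w ρ TT) {v : ℝ} (hv : 0 < v) :
    ∃ δ : ℝ, 0 < δ ∧ ∀ S s, TT S s → ∀ᶠ k in UF, ¬ HasLb (fun a => s.cnd 0 a k) δ v := by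
  obtain ⟨δ, hδ, h1⟩ := con_unif (C := lft TT) hT.dg (fun S x hx => hx.imp fun s hs => hs.1) (c := 0)
    (fun S s hs => by
      obtain ⟨s', hs', h2⟩ := hs
      have h3 := hT.con S s' h2
      rw [con_iff_hasLb] at h3 ⊢
      intro v hv
      obtain ⟨δ, hδ, h4⟩ := h3 v hv
      refine ⟨δ, hδ, ?_⟩
      filter_upwards [h4, hs'] with k a b
      have e : (fun c => s.cnd 0 c k) = fun c => s'.cnd 0 c k := by
        funext c
        rw [cnd_ob, cnd_ob, b]
      rw [e]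
      exact a)
    (fun S x y e hx => by
      obtain ⟨s, hs, h2⟩ := hx
      exact ⟨s, by filter_upwards [hs, e] with k a b using a.trans b, h2⟩) hv
  exact ⟨δ, hδ, fun S s hs => h1 S s ⟨s, Eventually.of_forall fun _ => rfl, hs⟩⟩

/-! ### affine coordinates -/

/-- polynomials of degree at most one are affine -/
theorem eval_sub_of_deg {e : ℕ} (p : MvPolynomial (Fin e) ℝ) (hp : p.totalDegree ≤ 1) (y y' : Fin e → ℝ) :
    MvPolynomial.eval y p - MvPolynomial.eval y' p = ∑ a, (y a - y' a) * p.coeff (Finsupp.single a 1) := by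
  have h1 : ∀ y : Fin e → ℝ, MvPolynomial.eval y p = p.coeff 0 + ∑ a, y a * p.coeff (Finsupp.single a 1) := by
    intro y
    have h2 : p = MvPolynomial.C (p.coeff 0) + ∑ a, MvPolynomial.C (p.coeff (Finsupp.single a 1)) * MvPolynomial.X a := by
      ext m
      rw [MvPolynomial.coeff_add, MvPolynomial.coeff_sum]
      simp only [MvPolynomial.coeff_C_mul, MvPolynomial.coeff_X', MvPolynomial.coeff_C]
      by_cases h0 : m = 0
      · subst h0
        rw [if_pos rfl, Finset.sum_eq_zero, add_zero]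
        intro a _
        rw [if_neg (by simp), mul_zero]
      · rw [if_neg (fun h => h0 h.symm), zero_add]
        by_cases h3 : ∃ a, m = Finsupp.single a 1
        · obtain ⟨a, rfl⟩ := h3
          rw [Finset.sum_eq_single a]
          · rw [if_pos rfl, mul_one]
          · intro b _ hb
            rw [if_neg, mul_zero]
            intro hc
            exact hb (Finsupp.single_left_injective one_ne_zero hc)
          · intro hc
            exact absurd (Finset.mem_univ _) hc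
        · rw [Finset.sum_eq_zero]
          · by_contra hc
            have h4 := MvPolynomial.le_totalDegree (MvPolynomial.mem_support_iff.mpr hc)
            have h5 := h4.trans hp
            have h6 : ∃ a, m a ≠ 0 := by
              by_contra hn
              push Not at hn
              exact h0 (Finsupp.ext hn)
            obtain ⟨a, ha⟩ := h6
            apply h3
            refine ⟨a, ?_⟩
            have h7 : m = Finsupp.single a (m a) + (m - Finsupp.single a (m a)) := by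
              ext b
              by_cases hb : a = b
              · subst hb; simp
              · simp [Finsupp.single_apply, hb]
            have h8 : (m.sum fun _ n => n) = m a + ((m - Finsupp.single a (m a)).sum fun _ n => n) := by
              conv_lhs => rw [h7]
              rw [Finsupp.sum_add_index' (fun _ => rfl) (fun _ _ _ => rfl), Finsupp.sum_single_index rfl]
            have h9 : ((m - Finsupp.single a (m a)).sum fun _ n => n) = 0 := by omega
            have h10 : m a = 1 := by omega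
            have h11 : m - Finsupp.single a (m a) = 0 := by
              ext b
              by_contra hb
              have hb' : b ∈ (m - Finsupp.single a (m a)).support := Finsupp.mem_support_iff.mpr hb
              have := Finset.single_le_sum (f := fun b => (m - Finsupp.single a (m a)) b) (fun _ _ => Nat.zero_le _) hb'
              have h12 : (m - Finsupp.single a (m a)) b ≤ 0 := by
                rw [← h9]
                exact this
              exact hb (Nat.le_zero.mp h12)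
            rw [h7, h11, add_zero, h10]
          · intro a _
            rw [if_neg (fun hc => h3 ⟨a, hc.symm⟩), mul_zero]
    conv_lhs => rw [h2]
    simp only [map_add, map_sum, map_mul, MvPolynomial.eval_C, MvPolynomial.eval_X]
    congr 1
    exact Finset.sum_congr rfl fun a _ => mul_comm _ _
  rw [h1 y, h1 y', add_sub_add_left_eq_sub, ← Finset.sum_sub_distrib]
  exact Finset.sum_congr rfl fun a _ => by ring

/-- the derivatives of an affine function -/
theorem deriv_of_aff {e : ℕ} (f : (Fin e → ℝ) → ℝ) (c : Fin e → ℝ) (hf : ∀ y y', f y - f y' = ∑ a, (y a - y' a) * c a)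
    (y : Fin e → ℝ) (a : Fin e) : deriv (fun t => f (Function.update y a t)) (y a) = c a := by
  have h1 : (fun t => f (Function.update y a t)) = fun t => f y + (t - y a) * c a := by
    funext t
    have h2 := hf (Function.update y a t) y
    rw [Finset.sum_eq_single a] at h2
    · rw [Function.update_self] at h2
      linarith
    · intro b _ hb
      rw [Function.update_of_ne hb, sub_self, zero_mul]
    · intro hc
      exact absurd (Finset.mem_univ _) hc
  rw [h1]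
  have h3 : HasDerivAt (fun t : ℝ => f y + (t - y a) * c a) (1 * c a) (y a) :=
    (((hasDerivAt_id (y a)).sub_const (y a)).mul_const (c a)).const_add (f y)
  rw [h3.deriv, one_mul]

/-! ### witnesses of concentration -/

theorem sum_ext {D : ℕ} (J : Finset (Fin D)) (f : J → ℝ) :
    ∑ j, (if hj : j ∈ J then f ⟨j, hj⟩ else 0) = ∑ j : J, f j := by
  rw [← Finset.sum_subset (Finset.subset_univ J) (fun j _ hj => dif_neg hj), ← Finset.sum_attach, ← Finset.univ_eq_attach]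
  exact Finset.sum_congr rfl fun j _ => dif_pos j.2

theorem exists_wit {F : FSp} {D : ℕ} {ι : Type} (x : FMs F.Ω D ι) (J : Finset (Fin D)) {h₀ δ : ℝ}
    (hn : ¬ NCf F (cQ1 F x) (Fin 1) (fun ω a (j : J) => mtan x ω a j) h₀ δ) :
    ∃ (l : FLab F) (u : l.T.Ω → Fin D → ℝ) (A : l.T.Ω → Prop) (e : ℝ), δ ≤ e ∧ e ≤ 1 / 2 ∧
      (∀ w w', l.T.μ w ≠ 0 → l.T.μ w' ≠ 0 → l.T.Z w w' → l.V w w' → cQ1 F x (l.p.π w) (l.p.π w') → u w = u w') ∧
      (∀ w, l.T.μ w ≠ 0 → ∑ j, u w j ^ 2 = 1) ∧ (∀ w j, j ∉ J → u w j = 0) ∧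
      (∀ w, l.T.μ w ≠ 0 → A w → ∀ a, |∑ j, u w j * mtan x (l.p.π w) a j| ≤ dlF F e) ∧
      l.leak (fc (cQ1 F x)) / (h₀ * e * F.n) + δ < l.T.pb A := by
  unfold NCf at hn
  push Not at hn
  obtain ⟨l, ν, h1, h2, e, he, he', h3⟩ := hn
  obtain ⟨f, hf⟩ : ∃ f : l.T.Ω → J → ℝ, ∀ w j, f w j = ν w 0 j := ⟨fun w j => ν w 0 j, fun _ _ => rfl⟩
  have hN : ∀ w, l.T.μ w ≠ 0 → 1 ≤ ∑ j, f w j ^ 2 := by
    intro w hw
    have h4 := h2 w hw fun _ => 1
    have e1 : (fun _ : Fin 1 => (1 : ℝ)) ᵥ* ν w = f w := by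
      funext j
      rw [hf]
      simp [Matrix.vecMul, dotProduct]
    rw [e1] at h4
    have e2 : (fun _ : Fin 1 => (1 : ℝ)) ⬝ᵥ (fun _ : Fin 1 => (1 : ℝ)) = 1 := by simp [dotProduct]
    rw [e2] at h4
    refine h4.trans (le_of_eq ?_)
    exact Finset.sum_congr rfl fun j _ => (sq _).symm
  refine ⟨l, fun w j => if hj : j ∈ J then f w ⟨j, hj⟩ / Real.sqrt (∑ j, f w j ^ 2) else 0, _, e, he, he',
    fun w w' a b c d k => ?_, fun w hw => ?_, fun w j hj => dif_neg hj, fun w hw hA a => ?_, h3⟩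
  · have e1 : f w = f w' := by
      funext j
      rw [hf, hf, h1 w w' a b c d k]
    show (fun j => if hj : j ∈ J then f w ⟨j, hj⟩ / Real.sqrt (∑ j, f w j ^ 2) else 0) =
      fun j => if hj : j ∈ J then f w' ⟨j, hj⟩ / Real.sqrt (∑ j, f w' j ^ 2) else 0
    rw [e1]
  · have h4 := hN w hw
    have h5 : 0 < ∑ j, f w j ^ 2 := by linarith
    have e2 : ∑ j, (if hj : j ∈ J then f w ⟨j, hj⟩ / Real.sqrt (∑ j, f w j ^ 2) else 0) ^ 2 =
        ∑ j : Fin D, (if hj : j ∈ J then (fun j : J => (f w j / Real.sqrt (∑ j, f w j ^ 2)) ^ 2) ⟨j, hj⟩ else 0) := by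
      refine Finset.sum_congr rfl fun j _ => ?_
      by_cases hj : j ∈ J
      · rw [dif_pos hj, dif_pos hj]
      · rw [dif_neg hj, dif_neg hj]
        norm_num
    have e3 := sum_ext J (fun j : J => (f w j / Real.sqrt (∑ j, f w j ^ 2)) ^ 2)
    refine (e2.trans e3).trans ?_
    simp_rw [div_pow]
    rw [← Finset.sum_div, Real.sq_sqrt h5.le, div_self h5.ne']
  · have h4 := hN w hw
    have h6 := hA a 0
    have e1 : (ν w *ᵥ fun j : J => mtan x (l.p.π w) a j) 0 = ∑ j : J, f w j * mtan x (l.p.π w) a j :=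
      Finset.sum_congr rfl fun j _ => by rw [hf]
    have h7 : 1 ≤ Real.sqrt (∑ j, f w j ^ 2) := by
      rw [Real.one_le_sqrt]
      exact h4
    have e2 : ∑ j, (if hj : j ∈ J then f w ⟨j, hj⟩ / Real.sqrt (∑ j, f w j ^ 2) else 0) * mtan x (l.p.π w) a j =
        ∑ j : Fin D, (if hj : j ∈ J then (fun j : J => f w j / Real.sqrt (∑ j, f w j ^ 2) *
            mtan x (l.p.π w) a j) ⟨j, hj⟩ else 0) := by
      refine Finset.sum_congr rfl fun j _ => ?_
      by_cases hj : j ∈ J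
      · rw [dif_pos hj, dif_pos hj]
      · rw [dif_neg hj, dif_neg hj, zero_mul]
    have e3 := sum_ext J (fun j : J => f w j / Real.sqrt (∑ j, f w j ^ 2) * mtan x (l.p.π w) a j)
    have e4 : ∑ j : J, f w j / Real.sqrt (∑ j, f w j ^ 2) * mtan x (l.p.π w) a j =
        (∑ j : J, f w j * mtan x (l.p.π w) a j) / Real.sqrt (∑ j, f w j ^ 2) := by
      rw [Finset.sum_div]
      exact Finset.sum_congr rfl fun j _ => by ring
    have e5 : ∑ j, (if hj : j ∈ J then f w ⟨j, hj⟩ / Real.sqrt (∑ j, f w j ^ 2) else 0) * mtan x (l.p.π w) a j =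
        (∑ j : J, f w j * mtan x (l.p.π w) a j) / Real.sqrt (∑ j, f w j ^ 2) := (e2.trans e3).trans e4
    refine le_trans (le_of_eq (congrArg abs e5)) ?_
    rw [abs_div, abs_of_pos (by linarith : 0 < Real.sqrt (∑ j, f w j ^ 2)), div_le_iff₀ (by linarith)]
    have h8 : |∑ j : J, f w j * mtan x (l.p.π w) a j| ≤ dlF F e := by
      rw [← e1]
      exact h6
    have h9 := dlF_pos F e
    nlinarith

/-! ### the theorem -/

variable {D g r m : ℕ}

/-- classes of systems for which the non concentration of the tangents in the coordinates `J` holds -/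
structure NcCls (C : ∀ S : Sp, MSys S D (lin g) (Fin r) → Prop) (J : Finset (Fin D)) (φ : Fin (m + 1) → Fin D) : Prop where
  im : ∀ S s, C S s → ∀ (T : Sp) (p : Pj T S) (A : ∀ k, (T.F k).Ω → Prop) (hA : 0 < ul (T.pr A)),
    C (Sp.im p A) (s.im p A hA)
  trn : ∀ S s, C S s → ∀ (e : ℝ) (he : 0 < e) (h1 : e ≤ 1), C (S.chg S.tr e he) (s.trn e he h1)
  con : ∃ δ : ℝ, 0 < δ ∧ ∀ S s, C S s → ∀ᶠ k in UF, ¬ HasLb (fun a => s.cnd 0 a k) δ (1 / 2)
  rg : ∀ j ∈ J, ∃ i, φ i = j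
  full : ∀ S s, C S s → ∀ e : ℝ, 0 < e → e ≤ 1 → ∀ ε : ℝ, 0 < ε → ∀ᶠ k in UF, (((m : ℝ) + 1) * e - ε) * (S.F k).n ≤
    H (fc (Setoid.ker fun ω (i : Fin (m + 1)) => s.Q.cellv e k ω (φ i)) : FL (S.F k))
  af : ∀ S s, C S s → ∀ᶠ k in UF, ∀ ω, (S.F k).μ ω ≠ 0 → ∀ i, ∀ j ∈ J, ∀ y y' : Fin (s.lf i).e → ℝ,
    (s.lf i).F k ω y j - (s.lf i).F k ω y' j = ∑ a, (y a - y' a) * mtan (ob s k) ω ⟨i, a⟩ j

/-- NON CONCENTRATION FOR ONE SYSTEM, from uniform connectedness of the truncations of its images -/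
theorem ncq_one {ι : Type} [Finite ι] {E : ℕ → ℕ} {s : MSys S D E ι} {J : Finset (Fin D)} {φ : Fin (m + 1) → Fin D}
    {δ : ℝ} (hδ : 0 < δ)
    (hu : ∀ (T : Sp) (p : Pj T S) (A : ∀ k, (T.F k).Ω → Prop) (hA : 0 < ul (T.pr A)) (e : ℝ) (he : 0 < e) (h1 : e ≤ 1),
      ∀ᶠ k in UF, ¬ HasLb (fun a => ((s.im p A hA).trn e he h1).cnd 0 a k) δ (1 / 2))
    (hrg : ∀ j ∈ J, ∃ i, φ i = j)
    (hfull : ∀ (T : Sp) (p : Pj T S) (A : ∀ k, (T.F k).Ω → Prop) (hA : 0 < ul (T.pr A)) (e : ℝ), 0 < e → e ≤ 1 →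
      ∀ ε : ℝ, 0 < ε → ∀ᶠ k in UF, (((m : ℝ) + 1) * e - ε) * ((Sp.im p A).F k).n ≤
        H (fc (Setoid.ker fun ω (i : Fin (m + 1)) => (s.im p A hA).Q.cellv e k ω (φ i)) : FL ((Sp.im p A).F k)))
    (haf : ∀ᶠ k in UF, ∀ ω, (S.F k).μ ω ≠ 0 → ∀ i, ∀ j ∈ J, ∀ y y' : Fin (s.lf i).e → ℝ,
      (s.lf i).F k ω y j - (s.lf i).F k ω y' j = ∑ a, (y a - y' a) * mtan (ob s k) ω ⟨i, a⟩ j)
    (hR : R1 J s) : NCq J (min (δ / 4) (1 / 8)) s := by
  set h₀ := min (δ / 4) (1 / 8) with hh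
  have hh0 : 0 < h₀ := lt_min (by linarith) (by norm_num)
  have hh1 : h₀ ≤ δ / 4 := min_le_left _ _
  have hh2 : h₀ ≤ 1 / 8 := min_le_right _ _
  by_contra hn
  obtain ⟨δ₀, hδ₀, hn2⟩ : ∃ δ : ℝ, 0 < δ ∧ ¬ ∀ᶠ k in UF, NCf (S.F k) (cQ1 (S.F k) (ob s k)) (Fin 1)
      (fun ω a (j : J) => mtan (ob s k) ω a j) h₀ δ := by
    by_contra hc
    apply hn
    intro δ hδ
    by_contra hk
    exact hc ⟨δ, hδ, hk⟩
  have h1 := UF_not hn2
  have h2 : ∀ k, ∃ (l : FLab (S.F k)) (u : l.T.Ω → Fin D → ℝ) (A : l.T.Ω → Prop) (e : ℝ),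
      ¬ NCf (S.F k) (cQ1 (S.F k) (ob s k)) (Fin 1) (fun ω a (j : J) => mtan (ob s k) ω a j) h₀ δ₀ →
      δ₀ ≤ e ∧ e ≤ 1 / 2 ∧
      (∀ w w', l.T.μ w ≠ 0 → l.T.μ w' ≠ 0 → l.T.Z w w' → l.V w w' → cQ1 (S.F k) (ob s k) (l.p.π w) (l.p.π w') →
        u w = u w') ∧
      (∀ w, l.T.μ w ≠ 0 → ∑ j, u w j ^ 2 = 1) ∧ (∀ w j, j ∉ J → u w j = 0) ∧
      (∀ w, l.T.μ w ≠ 0 → A w → ∀ a, |∑ j, u w j * mtan (ob s k) (l.p.π w) a j| ≤ dlF (S.F k) e) ∧
      l.leak (fc (cQ1 (S.F k) (ob s k))) / (h₀ * e * (S.F k).n) + δ₀ < l.T.pb A := by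
    intro k
    by_cases hk : NCf (S.F k) (cQ1 (S.F k) (ob s k)) (Fin 1) (fun ω a (j : J) => mtan (ob s k) ω a j) h₀ δ₀
    · exact ⟨FLab.triv _, fun _ _ => 0, fun _ => True, 0, fun h => absurd hk h⟩
    · obtain ⟨l, u, A, e, h⟩ := exists_wit (ob s k) J hk
      exact ⟨l, u, A, e, fun _ => h⟩
  choose l u A e h3 using h2
  have h4 : ∀ᶠ k in UF, δ₀ ≤ e k ∧ e k ≤ 1 / 2 ∧
      (∀ w w', (l k).T.μ w ≠ 0 → (l k).T.μ w' ≠ 0 → (l k).T.Z w w' → (l k).V w w' →
        cQ1 (S.F k) (ob s k) ((l k).p.π w) ((l k).p.π w') → u k w = u k w') ∧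
      (∀ w, (l k).T.μ w ≠ 0 → ∑ j, u k w j ^ 2 = 1) ∧ (∀ w j, j ∉ J → u k w j = 0) ∧
      (∀ w, (l k).T.μ w ≠ 0 → A k w → ∀ a, |∑ j, u k w j * mtan (ob s k) ((l k).p.π w) a j| ≤ dlF (S.F k) (e k)) ∧
      (l k).leak (fc (cQ1 (S.F k) (ob s k))) / (h₀ * e k * (S.F k).n) + δ₀ < (l k).T.pb (A k) :=
    h1.mono fun k hk => h3 k hk
  -- the exponent
  have ube : UB e := UB_of_nonneg_le (h4.mono fun k hk => hδ₀.le.trans hk.1) (h4.mono fun k hk => hk.2.1)
  have hte := ul_tendsto ube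
  have hge : δ₀ ≤ ul e := const_le_ul ube (h4.mono fun k hk => hk.1)
  have hle : ul e ≤ 1 / 2 := le_of_tendsto hte (h4.mono fun k hk => hk.2.1)
  set η := δ₀ / 4 with hη
  have hη0 : 0 < η := by positivity
  set ε := ul e - η with hε
  have hε0 : 0 < ε := by linarith
  have hε1 : ε ≤ 1 := by linarith
  -- the member
  have hA : 0 < ul ((Lab.sp (S := S) l).pr A) := by
    refine hδ₀.trans_le (const_le_ul (UB_pr _) ?_)
    filter_upwards [h4] with k hk
    have h5 : 0 ≤ (l k).leak (fc (cQ1 (S.F k) (ob s k))) / (h₀ * e k * (S.F k).n) := by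
      have := (S.F k).pos
      have := hδ₀.trans_le hk.1
      exact div_nonneg ((l k).leak_nonneg _) (by positivity)
    have h6 : δ₀ ≤ (l k).T.pb (A k) := by linarith [hk.2.2.2.2.2.2]
    exact h6
  have hcon := hu (Lab.sp (S := S) l) (Lab.pj (S := S) l) A hA ε hε0 hε1
  -- bounds
  obtain ⟨K, hK, hK1, hKb⟩ := exists_bds s
  have hcst : S.Sub (fun k => ncK D (E 0) (K k)) := by
    unfold ncK
    have a1 := (S.Sub_const (show (0 : ℝ) ≤ (E 0 : ℕ) * (2 * (D + 1)) by positivity)).mul hK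
    have a2 := (S.Sub_const (show (0 : ℝ) ≤ D * 2 by positivity)).mul hK
    have a3 := (a1.add a2).add (S.Sub_const zero_le_one)
    refine a3.mono ?_ (Eventually.of_forall fun k => le_of_eq (by ring))
    filter_upwards [hK.1] with k hk
    positivity
  set θ := min (δ * ε / 8) (ε / 32) with hθ
  have hθ0 : 0 < θ := by
    apply lt_min <;> positivity
  have b1 := hcst.2.eventually (gt_mem_nhds hθ0)
  have b2 := (S.div_n_tendsto (Real.logb 2 (D * (D + 1) + 2) * (m + 1 : ℕ))).eventually (gt_mem_nhds hθ0)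
  have b3 := (S.div_n_tendsto 1).eventually (gt_mem_nhds (show 0 < θ * δ₀ / 2 by positivity))
  have b4 := hR (θ * δ₀ / 2) (by positivity)
  have b5 := hfull (Lab.sp (S := S) l) (Lab.pj (S := S) l) A hA ε hε0 hε1 θ hθ0
  have b6 : ∀ᶠ k in UF, (m : ℝ) * (Real.logb 2 (5 * K k) / (S.F k).n) < θ := by
    have c1 : S.Sub (fun k => 5 * K k) := (S.Sub_const (by norm_num)).mul hK
    have c2 := c1.2.const_mul (m : ℝ)
    rw [mul_zero] at c2
    filter_upwards [c2.eventually (gt_mem_nhds hθ0)] with k hk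
    refine lt_of_le_of_lt (mul_le_mul_of_nonneg_left (div_le_div_of_nonneg_right ?_ (S.F k).pos.le) (Nat.cast_nonneg m)) hk
    exact Real.logb_le_logb_of_le (by norm_num) (by linarith [hK1 k]) (by linarith)
  have b7 := hte.eventually (lt_mem_nhds (show ul e - η < ul e by linarith))
  have b8 := hte.eventually (gt_mem_nhds (show ul e < ul e + η by linarith))
  obtain ⟨k, hk⟩ := (hcon.and (h4.and (haf.and (hKb.and (b1.and (b2.and (b3.and (b4.and
    (b5.and (b6.and (b7.and b8))))))))))).exists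
  obtain ⟨hcon, ⟨q1, q2, q3, q4, q5, q6, q7⟩, haf, ⟨k1, k2, k3, k4⟩, b1, b2, b3, b4, b5, b6, b7, b8⟩ := hk
  have hn0 : 0 < (S.F k).n := (S.F k).pos
  have hek : ε ≤ e k := by linarith
  have hek2 : e k ≤ 2 * ε := by linarith
  have hp : 0 < (l k).T.pb (A k) := by
    have h5 : 0 ≤ (l k).leak (fc (cQ1 (S.F k) (ob s k))) / (h₀ * e k * (S.F k).n) := by
      have := hδ₀.trans_le q1
      exact div_nonneg ((l k).leak_nonneg _) (by positivity)
    linarith
  have HN : NHyp (ob s k) J φ (l k) (A k) (u k) (K k) ε (E 0) :=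
    { K1 := hK1 k
      e0 := hε0
      e1 := hε1
      Q := k1
      Y := k2
      dim := fun i => (s.lf i).he
      fn := k3
      pt := k4
      af := haf
      fnu := q3
      nu := q4
      Ju := q5
      rg := hrg
      pA := hp.ne'
      ta := fun w hw hA a => (q6 w hw hA a).trans (dlF_anti (S.F k) hek) }
  obtain ⟨W, I0, w1, w2, w3, w4⟩ := HN.fin_label
  -- the numbers
  have hpd : δ₀ ≤ (l k).T.pb (A k) := by
    have h5 : 0 ≤ (l k).leak (fc (cQ1 (S.F k) (ob s k))) / (h₀ * e k * (S.F k).n) := by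
      have := hδ₀.trans_le q1
      exact div_nonneg ((l k).leak_nonneg _) (by positivity)
    linarith
  have hI : I0 ≤ h₀ * (2 * ε) * (S.F k).n + θ * (S.F k).n := by
    have hek0 : 0 < e k := hε0.trans_le hek
    have c1 : (l k).leak (fc (cQ1 (S.F k) (ob s k))) < (l k).T.pb (A k) * (h₀ * e k * (S.F k).n) := by
      rw [← div_lt_iff₀ (by positivity)]
      linarith
    have c2 : (1 : ℝ) < θ * δ₀ / 2 * (S.F k).n := by
      rwa [div_lt_iff₀ hn0] at b3
    have c3 : I (fc (tcell (S.F k) (ob s k) J) : FL (S.F k)) (fc (cQ1 (S.F k) (ob s k))) ⊥ ≤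
      θ * δ₀ / 2 * (S.F k).n := b4
    have c4 : (l k).T.pb (A k) * I0 ≤ (l k).T.pb (A k) * (h₀ * (2 * ε) * (S.F k).n + θ * (S.F k).n) := by
      have c5 : (l k).T.pb (A k) * (h₀ * e k * (S.F k).n) ≤ (l k).T.pb (A k) * (h₀ * (2 * ε) * (S.F k).n) := by
        apply mul_le_mul_of_nonneg_left _ hp.le
        apply mul_le_mul_of_nonneg_right _ hn0.le
        exact mul_le_mul_of_nonneg_left hek2 hh0.le
      have c6 : θ * δ₀ * (S.F k).n ≤ (l k).T.pb (A k) * (θ * (S.F k).n) := by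
        have := mul_le_mul_of_nonneg_right hpd (show 0 ≤ θ * (S.F k).n by positivity)
        linarith
      rw [mul_add]
      linarith
    exact le_of_mul_le_mul_left c4 hp
  have hlog : Real.logb 2 (ncK D (E 0) (K k) + 1) ≤ θ * (S.F k).n := by
    rw [div_lt_iff₀ hn0] at b1
    refine le_trans (Real.logb_le_logb_of_le (by norm_num) ?_ (by linarith)) b1.le
    have := ncK_nonneg D (E 0) (zero_le_one.trans (hK1 k))
    linarith
  have hθ1 : θ ≤ δ * ε / 8 := min_le_left _ _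
  have hθ2 : θ ≤ ε / 32 := min_le_right _ _
  have hleak : I0 + Real.logb 2 (ncK D (E 0) (K k) + 1) ≤ δ * (ε * (S.F k).n) := by
    have c1 : h₀ * (2 * ε) * (S.F k).n ≤ δ / 4 * (2 * ε) * (S.F k).n := by
      apply mul_le_mul_of_nonneg_right _ hn0.le
      exact mul_le_mul_of_nonneg_right hh1 (by linarith)
    have c2 : θ * (S.F k).n ≤ δ * ε / 8 * (S.F k).n := mul_le_mul_of_nonneg_right hθ1 hn0.le
    have c3 : 0 ≤ δ * ε * (S.F k).n := by positivity
    nlinarith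
  have hlogd : Real.logb 2 (5 * K k / dlF (S.F k) ε) = Real.logb 2 (5 * K k) + ε * (S.F k).n := by
    have c1 : dlF (S.F k) ε = (2 : ℝ) ^ (-(ε * (S.F k).n)) := rfl
    rw [Real.logb_div (by linarith [hK1 k]) (dlF_pos _ _).ne', c1, Real.logb_rpow (by norm_num) (by norm_num)]
    ring
  have hinfo : 1 / 2 * (ε * (S.F k).n) ≤ W.info := by
    have c1 : (((m : ℝ) + 1) * ε - θ) * (S.F k).n ≤ H (fc (F := FSp.im (l k).p (A k)) (Rst (ob s k) φ ε)) := b5
    have c2 : (m : ℝ) * Real.logb 2 (5 * K k) ≤ θ * (S.F k).n := by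
      have := b6.le
      rw [← mul_div_assoc, div_le_iff₀ hn0] at this
      exact this
    have c3 : (m + 1 : ℕ) * Real.logb 2 (D * (D + 1) + 2) ≤ θ * (S.F k).n := by
      have := b2.le
      rw [div_le_iff₀ hn0] at this
      rw [mul_comm]
      exact this
    have c4 : h₀ * (2 * ε) * (S.F k).n ≤ 1 / 8 * (2 * ε) * (S.F k).n := by
      apply mul_le_mul_of_nonneg_right _ hn0.le
      exact mul_le_mul_of_nonneg_right hh2 (by linarith)
    have c5 : θ * (S.F k).n ≤ ε / 32 * (S.F k).n := mul_le_mul_of_nonneg_right hθ2 hn0.le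
    rw [hlogd, mul_add] at w4
    have c6 : 0 ≤ ε * (S.F k).n := by positivity
    have c7 : (((m : ℝ) + 1) * ε - θ) * (S.F k).n = (m : ℝ) * (ε * (S.F k).n) + ε * (S.F k).n - θ * (S.F k).n := by ring
    rw [c7] at c1
    nlinarith
  -- the contradiction
  apply hcon
  refine ⟨tnF ε hε0 W, fun a => ?_, ?_⟩
  · rcases a with _ | i
    · have e1 : ((((s.im (Lab.pj (S := S) l) A hA).Q).chg (Sp.im (Lab.pj (S := S) l) A).tr ε hε0).cellv 1 k) = ((s.im (Lab.pj (S := S) l) A hA).Q).cellv ε k :=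
        (cellv_chg (s.im (Lab.pj (S := S) l) A hA).Q ε hε0 1 k).trans (by rw [mul_one])
      have e2 : (tnF ε hε0 W).leak (((s.im (Lab.pj (S := S) l) A hA).trn ε hε0 hε1).cnd 0 none k) =
          W.leak (fc (F := FSp.im (l k).p (A k)) (Setoid.ker fun ω => cell (dlF (S.F k) ε) ((ob s k).Q ω))) :=
        congrArg (fun f => FLab.leak (F := ((Sp.im (Lab.pj (S := S) l) A).F k).chg ⊤ ε hε0) (tnF ε hε0 W) (fc (Setoid.ker f))) e1
      exact (le_of_eq e2).trans (w2.trans hleak)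
    · have e2 : (tnF ε hε0 W).leak (((s.im (Lab.pj (S := S) l) A hA).trn ε hε0 hε1).cnd 0 (some i) k) =
          W.leak (fc (F := FSp.im (l k).p (A k)) ((s.lf i).La k ⊓
            Setoid.ker ((((s.im (Lab.pj (S := S) l) A hA).lf i).Y.chg (Sp.im (Lab.pj (S := S) l) A).tr ε hε0).cellv 0 k))) := rfl
      exact (le_of_eq e2).trans ((w3 i _ inf_le_left).trans hleak)
  · exact hinfo

/-- the same for classes -/
theorem NcCls.ncq {C : ∀ S : Sp, MSys S D (lin g) (Fin r) → Prop} {J : Finset (Fin D)} {φ : Fin (m + 1) → Fin D}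
    (HC : NcCls C J φ) : ∃ h₀ : ℝ, 0 < h₀ ∧ ∀ S s, C S s → R1 J s → NCq J h₀ s := by
  obtain ⟨δ, hδ, hu⟩ := HC.con
  refine ⟨min (δ / 4) (1 / 8), lt_min (by linarith) (by norm_num), fun S s hs hR => ?_⟩
  exact ncq_one hδ (fun T p A hA e he h1 => hu _ _ (HC.trn _ _ (HC.im S s hs T p A hA) e he h1)) HC.rg
    (fun T p A hA e he h1 ε hε => HC.full _ _ (HC.im S s hs T p A hA) e he h1 ε hε) (HC.af S s hs) hR

end

end Pool.Agent.Helper37.DK2
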