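import Pool.Agent.Helper37.DK2.Nof
import Pool.Agent.Helper37.DK2.Ncq
import Pool.Agent.Helper37.DK2.Clo
import Pool.Agent.Helper37.DK2.Nst

/-! NOUNIT, level of systems: the tangents are tame; non concentration of the tangents in the coordinates `J` near
hyperplanes gives `NC (card J)`, and `NC (card J + 1)` if there is one more type with unit directions in the other
coordinates. -/

set_option autoImplicit false

namespace Pool.Agent.Helper37.DK2

open Finset Filter Topology Matrix Pool.Agent.Helper69.RK Pool.Agent.Helper31.EC Pool.Agent.Helper31.EC.Sp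
open Pool.Agent.Helper40.EL Pool.Agent.Helper89.LX Pool.Agent.Helper3.LF Pool.Agent.Helper84.MT
open Pool.Agent.Helper49.MD Pool.Agent.Helper36.AM

noncomputable section

variable {S T : Sp} {M : ℕ} {E : ℕ → ℕ} {ι κ : Type}

theorem sub_le_rpow {K : ℕ → ℝ} (hK : S.Sub K) {c : ℝ} (hc : 0 < c) : ∀ᶠ k in UF, K k ≤ 2 ^ (c * (S.F k).n) := by
  filter_upwards [hK.1, hK.2.eventually (gt_mem_nhds hc)] with k h0 h1
  have h2 := (S.F k).pos
  have h3 := (div_lt_iff₀ h2).mp h1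
  have h4 := (Real.logb_le_iff_le_rpow (by norm_num) (by linarith)).mp h3.le
  linarith

/-- THE TANGENTS ARE TAME, one leaf -/
theorem exists_ltan_bd {Q : S.VV M} (l : Leaf S Q E) : ∃ K : ℕ → ℝ, S.Sub K ∧ ∀ᶠ k in UF, ∀ ω, (S.F k).μ ω ≠ 0 →
    ∀ a j, |ltan l k ω a j| ≤ K k := by
  obtain ⟨K, hK, h1⟩ := l.lip
  refine ⟨K, hK, ?_⟩
  filter_upwards [h1, hK.1] with k hk h0 ω hω a j
  unfold ltan
  rw [← Real.norm_eq_abs]
  refine norm_deriv_le_of_lip' h0 ?_
  have h2 : ∀ᶠ t in 𝓝 (l.Y.v k ω a), |t - l.Y.v k ω a| ≤ 1 := by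
    have := Metric.closedBall_mem_nhds (l.Y.v k ω a) one_pos
    filter_upwards [this] with t ht
    rw [Metric.mem_closedBall, Real.dist_eq] at ht
    exact ht
  filter_upwards [h2] with t ht
  rw [Function.update_eq_self, Real.norm_eq_abs, Real.norm_eq_abs]
  have h3 := hk ω hω (Function.update (l.Y.v k ω) a t) (l.Y.v k ω) (fun i => by
    by_cases hi : i = a
    · subst hi
      rw [Function.update_self]
      exact ht
    · rw [Function.update_of_ne hi, sub_self, abs_zero]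
      exact zero_le_one) (fun i => by
        rw [sub_self, abs_zero]
        exact zero_le_one) j
  refine h3.trans (le_of_eq ?_)
  congr 1
  rw [Finset.sum_eq_single a]
  · rw [Function.update_self]
  · intro b _ hb
    rw [Function.update_of_ne hb, sub_self, abs_zero]
  · intro hc
    exact absurd (Finset.mem_univ _) hc

theorem mtan_ob (s : MSys S M E ι) (k : ℕ) (ω : (S.F k).Ω) (a : Σ i, Fin ((ob s k).lf i).e) (j : Fin M) :
    mtan (ob s k) ω a j = ltan (s.lf a.1) k ω a.2 j := rfl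

/-- THE TANGENTS ARE TAME -/
theorem exists_tan_bd [Finite ι] (s : MSys S M E ι) : ∃ K : ℕ → ℝ, S.Sub K ∧ ∀ᶠ k in UF,
    ∀ ω, (S.F k).μ ω ≠ 0 → ∀ a j, |mtan (ob s k) ω a j| ≤ K k := by
  obtain ⟨K, h1, h2⟩ := exists_sub S (fun (i : ι) k x => ∀ ω, (S.F k).μ ω ≠ 0 → ∀ a j, |ltan (s.lf i) k ω a j| ≤ x)
    (fun i k a b hab h ω hω c j => (h ω hω c j).trans hab) fun i => exists_ltan_bd (s.lf i)
  refine ⟨K, h1, ?_⟩
  filter_upwards [h2] with k hk ω hω a j
  rw [mtan_ob]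
  exact hk a.1 ω hω a.2 j

/-- the coordinates `J` spanned: `card J` directions -/
theorem NCq.nc {J : Finset (Fin M)} {h : ℝ} (h0 : 0 < h) {s : MSys S M E ι} (H : NCq J h s) : NC J.card h s := by
  intro δ hδ
  have h1 := H (δ / 4) (by positivity)
  set κ : ℝ := min (δ / 2) (δ ^ 2 / 4) with hκ
  have hκ0 : 0 < κ := by
    apply lt_min <;> positivity
  have h2 := sub_le_rpow (S := S) (S.Sub_const (show (0 : ℝ) ≤ (M : ℝ) + 1 by positivity)) hκ0
  filter_upwards [h1, h2] with k a b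
  refine NCf.of_q h0 hκ0 (min_le_left _ _) (by linarith) ?_ b a
  have h3 : κ ≤ δ ^ 2 / 4 := min_le_right _ _
  have h4 : 2 * κ / δ ≤ δ / 2 := by
    rw [div_le_iff₀ hδ]
    nlinarith
  linarith

/-- NOUNIT: one more type with unit directions outside of `J` -/
theorem NCq.nou [Finite ι] {J : Finset (Fin M)} (hJ : J.Nonempty) {h : ℝ} (h0 : 0 < h) {s : MSys S M E ι}
    (H : NCq J h s) (l : κ → Leaf S s.Q E) (hv : ∃ K : ℕ → ℝ, S.Sub K ∧ Typ (fun k (ω : (S.F k).Ω) =>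
      ∃ (i : κ) (a : Fin (l i).e), (∀ j ∈ J, ltan (l i) k ω a j = 0) ∧ ∃ j, 1 ≤ K k * |ltan (l i) k ω a j|)) :
    NC (J.card + 1) h (s.union l) := by
  obtain ⟨K1, hK1, b1⟩ := exists_tan_bd s
  obtain ⟨K2, hK2, b2⟩ := hv
  have hK : S.Sub (fun k => K1 k + K2 k + 1) := (hK1.add hK2).add (S.Sub_const zero_le_one)
  have hcst : S.Sub (fun k => 2 * (M + M * (M + 1) * (K1 k + K2 k + 1) ^ 2)) := by
    have a1 := hK.mul hK
    have a2 := (S.Sub_const (show (0 : ℝ) ≤ (M : ℝ) * (M + 1) by positivity)).mul a1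
    have a3 := (S.Sub_const (show (0 : ℝ) ≤ (M : ℝ) by positivity)).add a2
    have a4 := (S.Sub_const (show (0 : ℝ) ≤ 2 by norm_num)).mul a3
    refine a4.mono ?_ (Eventually.of_forall fun k => le_of_eq (by ring))
    filter_upwards with k
    positivity
  intro δ hδ
  have h1 := H (δ / 4) (by positivity)
  set c : ℝ := min (δ / 2) (δ ^ 2 / 8) with hc
  have hc0 : 0 < c := by
    apply lt_min <;> positivity
  have h2 := sub_le_rpow hcst hc0
  have h3 : ∀ᶠ k in UF, (S.F k).pb (fun ω => ¬ ∃ (i : κ) (a : Fin (l i).e), (∀ j ∈ J, ltan (l i) k ω a j = 0) ∧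
      ∃ j, 1 ≤ K2 k * |ltan (l i) k ω a j|) < δ / 4 := b2.eventually (gt_mem_nhds (by positivity))
  filter_upwards [h1, h2, h3, b1, hK1.1, hK2.1] with k a b d e f1 f2
  refine NCf.nou (κ := c) (K := K1 k + K2 k + 1) hJ h0 hc0 (min_le_left _ _) (show δ / 4 ≤ δ / 2 by linarith)
    (δ'' := δ / 4) ?_ (by linarith) b (fun ω => ¬ ∃ (i : κ) (a : Fin (l i).e), (∀ j ∈ J, ltan (l i) k ω a j = 0) ∧
      ∃ j, 1 ≤ K2 k * |ltan (l i) k ω a j|) d.le ?_ ?_ ?_ a
  · have h4 : c ≤ δ ^ 2 / 8 := min_le_right _ _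
    have h5 : 2 * c / δ ≤ δ / 2 := by
      rw [div_le_iff₀ hδ]
      nlinarith
    linarith
  · intro ω _ x
    exact ⟨⟨Sum.inl x.1, x.2⟩, rfl⟩
  · intro ω hω _ x j
    exact (e ω hω x j).trans (by linarith)
  · intro ω hω hB
    obtain ⟨i, x, h4, j, h5⟩ := not_not.mp hB
    refine ⟨⟨Sum.inr i, x⟩, fun j hj => h4 j hj, ?_⟩
    have h6 : mtan (ob (s.union l) k) ω ⟨Sum.inr i, x⟩ ⬝ᵥ mtan (ob (s.union l) k) ω ⟨Sum.inr i, x⟩ =
        ∑ j, ltan (l i) k ω x j * ltan (l i) k ω x j := rfl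
    rw [h6]
    have h7 : ltan (l i) k ω x j * ltan (l i) k ω x j ≤ ∑ j, ltan (l i) k ω x j * ltan (l i) k ω x j :=
      Finset.single_le_sum (f := fun j => ltan (l i) k ω x j * ltan (l i) k ω x j) (fun _ _ => mul_self_nonneg _)
        (Finset.mem_univ j)
    have h8 : 1 ≤ (K1 k + K2 k + 1) * |ltan (l i) k ω x j| :=
      h5.trans (mul_le_mul_of_nonneg_right (by linarith) (abs_nonneg _))
    have h9 : 1 ≤ ((K1 k + K2 k + 1) * |ltan (l i) k ω x j|) ^ 2 := one_le_pow₀ h8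
    rw [mul_pow, sq_abs, sq (ltan (l i) k ω x j)] at h9
    exact h9.trans (mul_le_mul_of_nonneg_left h7 (by positivity))

end

end Pool.Agent.Helper37.DK2
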