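import Pool.Agent.Helper37.DK2.Lin

/-! From non concentration near hyperplanes of the parts of the tangents in the coordinates `J` to the classes `NC`, finite
part: `NCq J` gives `NC J.card`; with one more unit vector which vanishes on `J` it gives `NC (J.card + 1)`; sheets. -/

set_option autoImplicit false

namespace Pool.Agent.Helper37.DK2

open Finset Filter Topology Matrix Pool.Agent.Helper69.RK Pool.Agent.Helper31.EC Pool.Agent.Helper31.EC.Sp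
open Pool.Agent.Helper40.EL Pool.Agent.Helper89.LX Pool.Agent.Helper3.LF Pool.Agent.Helper84.MT
open Pool.Agent.Helper49.MD Pool.Agent.Helper36.AM

noncomputable section

theorem abs_le_one_of_dot {γ : Type} [Fintype γ] {b : γ → ℝ} (hb : b ⬝ᵥ b = 1) (i : γ) : |b i| ≤ 1 := by
  have h2 : b i * b i ≤ b ⬝ᵥ b :=
    Finset.single_le_sum (f := fun i => b i * b i) (fun i _ => mul_self_nonneg _) (Finset.mem_univ i)
  rw [hb] at h2
  exact abs_le_one_iff_mul_self_le_one.mpr h2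

/-- the value of a combination with coefficients at most one -/
theorem abs_comb_le {γ β : Type} [Fintype γ] [Fintype β] (ν : Matrix γ β ℝ) (b : γ → ℝ) (t : β → ℝ) {x : ℝ}
    (hb : ∀ i, |b i| ≤ 1) (ht : ∀ c, |(ν *ᵥ t) c| ≤ x) : |(b ᵥ* ν) ⬝ᵥ t| ≤ Fintype.card γ * x := by
  rw [← Matrix.dotProduct_mulVec]
  refine (Finset.abs_sum_le_sum_abs _ _).trans ?_
  have h1 : ∑ i, |b i * (ν *ᵥ t) i| ≤ ∑ _i : γ, x := by
    refine Finset.sum_le_sum fun i _ => ?_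
    rw [abs_mul]
    calc |b i| * |(ν *ᵥ t) i| ≤ 1 * |(ν *ᵥ t) i| := mul_le_mul_of_nonneg_right (hb i) (abs_nonneg _)
      _ ≤ x := by rw [one_mul]; exact ht i
  refine h1.trans (le_of_eq ?_)
  rw [Finset.sum_const, Finset.card_univ, nsmul_eq_mul]

/-- families of one functional -/
theorem adm_one {β : Type} [Fintype β] (a : β → ℝ) (ha : 1 ≤ a ⬝ᵥ a) : Adm (fun (_ : Fin 1) j => a j : Matrix (Fin 1) β ℝ) := by
  intro b
  have e1 : b ᵥ* (fun (_ : Fin 1) j => a j : Matrix (Fin 1) β ℝ) = b 0 • a := by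
    funext j
    rw [Pi.smul_apply, smul_eq_mul]
    show ∑ i : Fin 1, b i * a j = b 0 * a j
    rw [Fin.sum_univ_one]
  rw [e1, smul_dotProduct, dotProduct_smul, smul_eq_mul, smul_eq_mul]
  have e2 : b ⬝ᵥ b = b 0 * b 0 := Fin.sum_univ_one _
  rw [e2]
  nlinarith [mul_self_nonneg (b 0)]

theorem one_mulVec {β : Type} [Fintype β] (a t : β → ℝ) (c : Fin 1) :
    ((fun (_ : Fin 1) j => a j : Matrix (Fin 1) β ℝ) *ᵥ t) c = a ⬝ᵥ t := rfl

/-- sums over `J` and its complement -/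
theorem sum_split {M : ℕ} (J : Finset (Fin M)) (f : Fin M → ℝ) : ∑ j, f j = ∑ j : J, f j + ∑ j ∈ univ.filter (· ∉ J), f j := by
  classical
  rw [← Finset.sum_filter_add_sum_filter_not univ (· ∈ J) f]
  congr 1
  rw [Finset.filter_mem_eq_inter, Finset.univ_inter]
  exact (Finset.sum_coe_sort J f).symm

/-! ### `NCq J` gives `NC J.card` -/

section

variable {M : ℕ}

theorem hor_card (J : Finset (Fin M)) : Fintype.card (Fin M) < Fintype.card (Fin (M + 1 - J.card)) + J.card := by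
  rw [Fintype.card_fin, Fintype.card_fin]
  have := J.card_le_univ
  rw [Fintype.card_fin] at this
  omega

/-- the horizontal combination -/
def hor (J : Finset (Fin M)) (ν : Matrix (Fin (M + 1 - J.card)) (Fin M) ℝ) : Fin (M + 1 - J.card) → ℝ :=
  (exists_hor ν J (hor_card J)).choose

theorem hor_one (J : Finset (Fin M)) (ν : Matrix (Fin (M + 1 - J.card)) (Fin M) ℝ) : hor J ν ⬝ᵥ hor J ν = 1 :=
  (exists_hor ν J (hor_card J)).choose_spec.1

theorem hor_zero (J : Finset (Fin M)) (ν : Matrix (Fin (M + 1 - J.card)) (Fin M) ℝ) {j : Fin M} (hj : j ∉ J) :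
    (hor J ν ᵥ* ν) j = 0 := (exists_hor ν J (hor_card J)).choose_spec.2 j hj

theorem hor_dot (J : Finset (Fin M)) (ν : Matrix (Fin (M + 1 - J.card)) (Fin M) ℝ) (t : Fin M → ℝ) :
    (fun j : J => (hor J ν ᵥ* ν) j) ⬝ᵥ (fun j : J => t j) = (hor J ν ᵥ* ν) ⬝ᵥ t := by
  have h1 := sum_split J fun j => (hor J ν ᵥ* ν) j * t j
  have h2 : ∑ j ∈ univ.filter (· ∉ J), (hor J ν ᵥ* ν) j * t j = 0 := by
    refine Finset.sum_eq_zero fun j hj => ?_
    rw [hor_zero J ν (Finset.mem_filter.mp hj).2, zero_mul]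
  rw [h2, add_zero] at h1
  exact h1.symm

theorem NCf.of_q {F : FSp} {C : Setoid F.Ω} {α : Type} {t : F.Ω → α → Fin M → ℝ} {J : Finset (Fin M)}
    {h₀ δ δ' κ : ℝ} (h0 : 0 < h₀) (hκ : 0 < κ) (h1 : κ ≤ δ / 2) (h2 : δ' ≤ δ / 2) (h3 : 2 * κ / δ + δ' ≤ δ)
    (h4 : (M : ℝ) + 1 ≤ 2 ^ (κ * F.n)) (H : NCf F C (Fin 1) (fun ω a (j : J) => t ω a j) h₀ δ') :
    NCf F C (Fin (M + 1 - J.card)) t h₀ δ := by
  refine NCf.red (δ'' := 0) h0 hκ h1 h2 (by linarith) (fun _ => False) ?_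
    (fun ν => (fun (_ : Fin 1) (j : J) => (hor J ν ᵥ* ν) j)) (fun ν hν => ?_) (fun ω _ _ ν hν e _ _ hs a c => ?_) H
  · have e1 : F.pb (fun _ => False) = 0 := by
      unfold FSp.pb
      exact Finset.sum_eq_zero fun ω _ => res_neg _ _ _ id
    exact e1.le
  · apply adm_one (fun j : J => (hor J ν ᵥ* ν) j)
    have e1 := hor_dot J ν (hor J ν ᵥ* ν)
    rw [e1]
    have e2 := hν (hor J ν)
    rwa [hor_one] at e2
  · have e1 : ((fun (_ : Fin 1) (j : J) => (hor J ν ᵥ* ν) j : Matrix (Fin 1) J ℝ) *ᵥ fun j : J => t ω a j) c =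
        (hor J ν ᵥ* ν) ⬝ᵥ t ω a := hor_dot J ν (t ω a)
    have e2 := abs_comb_le ν (hor J ν) (t ω a) (fun i => abs_le_one_of_dot (hor_one J ν) i) (fun c => hs a c)
    refine (le_of_eq (congrArg abs e1)).trans (e2.trans ?_)
    have e3 : (Fintype.card (Fin (M + 1 - J.card)) : ℝ) ≤ 2 ^ (κ * F.n) := by
      refine le_trans ?_ h4
      rw [Fintype.card_fin]
      exact_mod_cast Nat.sub_le _ _
    have e4 : (2 : ℝ) ^ (-((e - κ) * F.n)) = 2 ^ (κ * F.n) * 2 ^ (-(e * F.n)) := by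
      rw [← Real.rpow_add (by norm_num)]
      congr 1
      ring
    rw [e4]
    exact mul_le_mul_of_nonneg_right e3 (by positivity)

/-! ### one more unit vector -/

/-- a good combination: it is minimal on the coordinates outside `J`, and not small on `J` -/
def GoodC {γ : Type} [Fintype γ] (J : Finset (Fin M)) (ν : Matrix γ (Fin M) ℝ) (b : γ → ℝ) : Prop :=
  b ⬝ᵥ b = 1 ∧ (∀ v : Fin M → ℝ, (∀ j ∈ J, v j = 0) →
    (∑ j ∈ univ.filter (· ∉ J), (b ᵥ* ν) j * (b ᵥ* ν) j) * (v ⬝ᵥ v) ≤ (ν *ᵥ v) ⬝ᵥ (ν *ᵥ v)) ∧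
    1 / 4 ≤ ∑ j : J, (b ᵥ* ν) j * (b ᵥ* ν) j

open Classical in
/-- the functional of the coordinates `J` -/
def gfun {γ : Type} [Fintype γ] (J : Finset (Fin M)) (ν : Matrix γ (Fin M) ℝ) : J → ℝ :=
  if hex : ∃ b, GoodC J ν b then fun j => 2 * (hex.choose ᵥ* ν) j else fun _ => 1

theorem gfun_ge {γ : Type} [Fintype γ] {J : Finset (Fin M)} (hJ : J.Nonempty) (ν : Matrix γ (Fin M) ℝ) :
    1 ≤ gfun J ν ⬝ᵥ gfun J ν := by
  unfold gfun
  split_ifs with hex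
  · have h1 := hex.choose_spec.2.2
    have e1 : (fun j : J => 2 * (hex.choose ᵥ* ν) j) ⬝ᵥ (fun j : J => 2 * (hex.choose ᵥ* ν) j) =
        4 * ∑ j : J, (hex.choose ᵥ* ν) j * (hex.choose ᵥ* ν) j := by
      rw [Finset.mul_sum]
      exact Finset.sum_congr rfl fun j _ => by ring
    rw [e1]
    linarith
  · have e1 : (fun _ : J => (1 : ℝ)) ⬝ᵥ (fun _ : J => (1 : ℝ)) = J.card := by
      unfold dotProduct
      rw [Finset.sum_const, Finset.card_univ, Fintype.card_coe, nsmul_eq_mul]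
      ring
    rw [e1]
    exact_mod_cast hJ.card_pos

/-- a good combination exists -/
theorem exists_good {γ : Type} [Fintype γ] {J : Finset (Fin M)} (hc : Fintype.card γ + J.card = M)
    {ν : Matrix γ (Fin M) ℝ} (hν : Adm ν) {v : Fin M → ℝ} (hv : ∀ j ∈ J, v j = 0) {K x : ℝ} (hK : 0 < K)
    (hv1 : 1 ≤ K * (v ⬝ᵥ v)) (hx : (ν *ᵥ v) ⬝ᵥ (ν *ᵥ v) ≤ x) (hx1 : K * x ≤ 3 / 4) : ∃ b, GoodC J ν b := by
  classical
  have hcard : Fintype.card γ = Fintype.card ↥(Jᶜ : Finset (Fin M)) := by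
    rw [Fintype.card_coe, Finset.card_compl, Fintype.card_fin]
    omega
  set ε : γ ≃ ↥(Jᶜ : Finset (Fin M)) := Fintype.equivOfCardEq hcard with hε
  have hsum : ∀ f : Fin M → ℝ, ∑ j ∈ univ.filter (· ∉ J), f j = ∑ c : γ, f (ε c) := by
    intro f
    have e1 : univ.filter (· ∉ J) = Jᶜ := by
      ext j
      simp
    rw [e1, ← Finset.sum_coe_sort Jᶜ f]
    exact (Equiv.sum_comp ε fun j => f j).symm
  have hne : Nonempty γ := by
    by_contra hc'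
    rw [not_nonempty_iff] at hc'
    have h1 : ∀ j, j ∈ J := by
      intro j
      by_contra hj
      exact hc'.elim (ε.symm ⟨j, Finset.mem_compl.mpr hj⟩)
    have h2 : v ⬝ᵥ v = 0 := Finset.sum_eq_zero fun j _ => by rw [hv j (h1 j), zero_mul]
    rw [h2, mul_zero] at hv1
    linarith
  obtain ⟨b, hb, hmin⟩ := exists_minvec (ν.submatrix id fun c => (ε c : Fin M))
  have hB : ∀ v : Fin M → ℝ, (∀ j ∈ J, v j = 0) →
      (∑ j ∈ univ.filter (· ∉ J), (b ᵥ* ν) j * (b ᵥ* ν) j) * (v ⬝ᵥ v) ≤ (ν *ᵥ v) ⬝ᵥ (ν *ᵥ v) := by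
    intro v hv
    have h1 := hmin fun c => v (ε c)
    have e1 : (b ᵥ* ν.submatrix id fun c => (ε c : Fin M)) = fun c => (b ᵥ* ν) (ε c) := rfl
    have e2 : (ν.submatrix id fun c => (ε c : Fin M)) *ᵥ (fun c => v (ε c)) = ν *ᵥ v := by
      funext c
      show ∑ c', ν c (ε c') * v (ε c') = ∑ j, ν c j * v j
      rw [sum_split J fun j => ν c j * v j, hsum fun j => ν c j * v j]
      have e3 : ∑ j : J, ν c j * v j = 0 := Finset.sum_eq_zero fun j _ => by rw [hv j j.2, mul_zero]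
      rw [e3, zero_add]
    have e4 : (fun c => v (ε c)) ⬝ᵥ (fun c => v (ε c)) = v ⬝ᵥ v := by
      show ∑ c, v (ε c) * v (ε c) = ∑ j, v j * v j
      rw [sum_split J fun j => v j * v j, hsum fun j => v j * v j]
      have e3 : ∑ j : J, v j * v j = 0 := Finset.sum_eq_zero fun j _ => by rw [hv j j.2, mul_zero]
      rw [e3, zero_add]
    rw [e1, e2, e4] at h1
    rw [hsum fun j => (b ᵥ* ν) j * (b ᵥ* ν) j]
    exact h1
  refine ⟨b, hb, hB, ?_⟩
  have h1 := hν b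
  rw [hb] at h1
  have h2 : (b ᵥ* ν) ⬝ᵥ (b ᵥ* ν) = ∑ j : J, (b ᵥ* ν) j * (b ᵥ* ν) j +
      ∑ j ∈ univ.filter (· ∉ J), (b ᵥ* ν) j * (b ᵥ* ν) j := sum_split J fun j => (b ᵥ* ν) j * (b ᵥ* ν) j
  have h3 := hB v hv
  set y := ∑ j ∈ univ.filter (· ∉ J), (b ᵥ* ν) j * (b ᵥ* ν) j with hy
  have hy0 : 0 ≤ y := Finset.sum_nonneg fun j _ => mul_self_nonneg _
  have h4 : y ≤ K * x := by
    calc y = y * 1 := (mul_one y).symm
      _ ≤ y * (K * (v ⬝ᵥ v)) := mul_le_mul_of_nonneg_left hv1 hy0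
      _ = K * (y * (v ⬝ᵥ v)) := by ring
      _ ≤ K * x := mul_le_mul_of_nonneg_left (h3.trans hx) hK.le
  linarith

/-- the functional of the coordinates `J` is small on the vectors on which the family is small -/
theorem gfun_dot {γ : Type} [Fintype γ] {J : Finset (Fin M)} {ν : Matrix γ (Fin M) ℝ} {v : Fin M → ℝ}
    (hex : ∃ b, GoodC J ν b) (hv : ∀ j ∈ J, v j = 0) {K x : ℝ} (hK : 1 ≤ K) (hx0 : 0 ≤ x)
    (hv1 : 1 ≤ K ^ 2 * (v ⬝ᵥ v)) (hvx : ∀ c, |(ν *ᵥ v) c| ≤ x) {t : Fin M → ℝ} (ht : ∀ j, |t j| ≤ K)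
    (htx : ∀ c, |(ν *ᵥ t) c| ≤ x) :
    |gfun J ν ⬝ᵥ fun j : J => t j| ≤ 2 * (Fintype.card γ + M * (Fintype.card γ + 1) * K ^ 2) * x := by
  classical
  obtain ⟨b1, b2, b3⟩ := hex.choose_spec
  set b := hex.choose with hb
  have e0 : gfun J ν = fun j : J => 2 * (b ᵥ* ν) j := by
    unfold gfun
    rw [dif_pos hex]
  have hγ : (0 : ℝ) ≤ Fintype.card γ := Nat.cast_nonneg _
  -- the vertical part of the combination
  have h1 : (ν *ᵥ v) ⬝ᵥ (ν *ᵥ v) ≤ Fintype.card γ * x ^ 2 := by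
    have h2 : ∑ c, (ν *ᵥ v) c * (ν *ᵥ v) c ≤ ∑ _c : γ, x ^ 2 := by
      refine Finset.sum_le_sum fun c _ => ?_
      rw [← sq, ← sq_abs]
      exact pow_le_pow_left₀ (abs_nonneg _) (hvx c) 2
    refine h2.trans (le_of_eq ?_)
    rw [Finset.sum_const, Finset.card_univ, nsmul_eq_mul]
  have h3 := b2 v hv
  set y := ∑ j ∈ univ.filter (· ∉ J), (b ᵥ* ν) j * (b ᵥ* ν) j with hy
  have hy0 : 0 ≤ y := Finset.sum_nonneg fun j _ => mul_self_nonneg _
  have h4 : y ≤ K ^ 2 * (Fintype.card γ * x ^ 2) := by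
    calc y = y * 1 := (mul_one y).symm
      _ ≤ y * (K ^ 2 * (v ⬝ᵥ v)) := mul_le_mul_of_nonneg_left hv1 hy0
      _ = K ^ 2 * (y * (v ⬝ᵥ v)) := by ring
      _ ≤ _ := mul_le_mul_of_nonneg_left (h3.trans h1) (by positivity)
  have h5 : ∀ j, j ∉ J → |(b ᵥ* ν) j| ≤ K * (Fintype.card γ + 1) * x := by
    intro j hj
    have h6 : (b ᵥ* ν) j * (b ᵥ* ν) j ≤ y :=
      Finset.single_le_sum (f := fun j => (b ᵥ* ν) j * (b ᵥ* ν) j) (fun j _ => mul_self_nonneg _)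
        (Finset.mem_filter.mpr ⟨Finset.mem_univ j, hj⟩)
    have h7 : |(b ᵥ* ν) j| ^ 2 ≤ (K * (Fintype.card γ + 1) * x) ^ 2 := by
      rw [sq_abs, sq]
      refine h6.trans (h4.trans ?_)
      have e1 : (K * (Fintype.card γ + 1) * x) ^ 2 = K ^ 2 * ((Fintype.card γ + 1) ^ 2 * x ^ 2) := by ring
      rw [e1]
      apply mul_le_mul_of_nonneg_left _ (by positivity)
      apply mul_le_mul_of_nonneg_right _ (by positivity)
      nlinarith
    exact le_of_sq_le_sq h7 (by positivity)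
  -- the value
  have h8 : |(b ᵥ* ν) ⬝ᵥ t| ≤ Fintype.card γ * x := abs_comb_le ν b t (fun i => abs_le_one_of_dot b1 i) htx
  have h9 : |∑ j ∈ univ.filter (· ∉ J), (b ᵥ* ν) j * t j| ≤ M * (K * (Fintype.card γ + 1) * x * K) := by
    refine (Finset.abs_sum_le_sum_abs _ _).trans ?_
    have h10 : ∑ j ∈ univ.filter (· ∉ J), |(b ᵥ* ν) j * t j| ≤
        ∑ _j ∈ (univ.filter (· ∉ J) : Finset (Fin M)), K * (Fintype.card γ + 1) * x * K := by
      refine Finset.sum_le_sum fun j hj => ?_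
      rw [abs_mul]
      exact mul_le_mul (h5 j (Finset.mem_filter.mp hj).2) (ht j) (abs_nonneg _) (by positivity)
    refine h10.trans ?_
    rw [Finset.sum_const, nsmul_eq_mul]
    apply mul_le_mul_of_nonneg_right _ (by positivity)
    have := Finset.card_le_univ (univ.filter (· ∉ J) : Finset (Fin M))
    rw [Fintype.card_fin] at this
    exact_mod_cast this
  have h11 : (b ᵥ* ν) ⬝ᵥ t = ∑ j : J, (b ᵥ* ν) j * t j + ∑ j ∈ univ.filter (· ∉ J), (b ᵥ* ν) j * t j :=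
    sum_split J fun j => (b ᵥ* ν) j * t j
  have h12 : gfun J ν ⬝ᵥ (fun j : J => t j) = 2 * ((b ᵥ* ν) ⬝ᵥ t - ∑ j ∈ univ.filter (· ∉ J), (b ᵥ* ν) j * t j) := by
    rw [e0, h11, add_sub_cancel_right, Finset.mul_sum]
    exact Finset.sum_congr rfl fun j _ => by ring
  rw [h12, abs_mul, abs_of_pos (by norm_num : (0 : ℝ) < 2)]
  have h13 := abs_sub ((b ᵥ* ν) ⬝ᵥ t) (∑ j ∈ univ.filter (· ∉ J), (b ᵥ* ν) j * t j)
  have h14 : (M : ℝ) * (K * (Fintype.card γ + 1) * x * K) = M * (Fintype.card γ + 1) * K ^ 2 * x := by ring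
  rw [h14] at h9
  nlinarith

/-- NOUNIT, finite form -/
theorem NCf.nou {F : FSp} {C : Setoid F.Ω} {α α' : Type} {t : F.Ω → α → Fin M → ℝ} {t' : F.Ω → α' → Fin M → ℝ}
    {J : Finset (Fin M)} (hJ : J.Nonempty) {h₀ δ δ' δ'' κ K : ℝ} (h0 : 0 < h₀) (hκ : 0 < κ) (h1 : κ ≤ δ / 2)
    (h2 : δ' ≤ δ / 2) (h3 : 2 * κ / δ + δ' + δ'' ≤ δ) (hK : 1 ≤ K)
    (h4 : 2 * (M + M * (M + 1) * K ^ 2) ≤ (2 : ℝ) ^ (κ * F.n)) (B : F.Ω → Prop) (hB : F.pb B ≤ δ'')
    (hsub : ∀ ω, F.μ ω ≠ 0 → ∀ a, ∃ a', t ω a = t' ω a')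
    (hbd : ∀ ω, F.μ ω ≠ 0 → ¬ B ω → ∀ a j, |t ω a j| ≤ K)
    (hv : ∀ ω, F.μ ω ≠ 0 → ¬ B ω → ∃ a', (∀ j ∈ J, t' ω a' j = 0) ∧ 1 ≤ K ^ 2 * (t' ω a' ⬝ᵥ t' ω a'))
    (H : NCf F C (Fin 1) (fun ω a (j : J) => t ω a j) h₀ δ') :
    NCf F C (Fin (M + 1 - (J.card + 1))) t' h₀ δ := by
  have hn := F.pos
  refine NCf.red h0 hκ h1 h2 h3 B hB (fun ν => (fun (_ : Fin 1) (j : J) => gfun J ν j))
    (fun ν hν => adm_one (gfun J ν) (gfun_ge hJ ν)) (fun ω hω hb ν hν e he _ hs a c => ?_) H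
  have hδ0 : 0 < δ := by linarith
  have hcM : J.card ≤ M := by
    have := J.card_le_univ
    rwa [Fintype.card_fin] at this
  obtain ⟨a', v1, v2⟩ := hv ω hω hb
  set x : ℝ := 2 ^ (-(e * F.n)) with hx
  have hx0 : 0 < x := by positivity
  set y : ℝ := 2 ^ (κ * F.n) with hy
  have hy0 : 0 < y := by positivity
  have hM1 : (1 : ℝ) ≤ M := by
    have h5 : 0 < J.card := hJ.card_pos
    have : 0 < M := by omega
    exact_mod_cast this
  have hγ : (Fintype.card (Fin (M + 1 - (J.card + 1))) : ℝ) ≤ M := by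
    rw [Fintype.card_fin]
    have : M + 1 - (J.card + 1) ≤ M := by omega
    exact_mod_cast this
  have hγ0 : (0 : ℝ) ≤ Fintype.card (Fin (M + 1 - (J.card + 1))) := Nat.cast_nonneg _
  -- `x y ≤ 1`, so `x` is small
  have hxy : x * y ≤ 1 := by
    rw [hx, hy, ← Real.rpow_add (by norm_num)]
    apply Real.rpow_le_one_of_one_le_of_nonpos (by norm_num)
    nlinarith
  have hvx : ∀ c, |(ν *ᵥ t' ω a') c| ≤ x := fun c => hs a' c
  have hq : (ν *ᵥ t' ω a') ⬝ᵥ (ν *ᵥ t' ω a') ≤ M * x ^ 2 := by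
    have h5 : ∑ c, (ν *ᵥ t' ω a') c * (ν *ᵥ t' ω a') c ≤ ∑ _c : Fin (M + 1 - (J.card + 1)), x ^ 2 := by
      refine Finset.sum_le_sum fun c _ => ?_
      rw [← sq, ← sq_abs]
      exact pow_le_pow_left₀ (abs_nonneg _) (hvx c) 2
    refine h5.trans ?_
    rw [Finset.sum_const, Finset.card_univ, nsmul_eq_mul]
    exact mul_le_mul_of_nonneg_right hγ (by positivity)
  have hsmall : K ^ 2 * (M * x ^ 2) ≤ 3 / 4 := by
    have h6 : 4 * (M * K ^ 2) ≤ y := by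
      refine le_trans ?_ h4
      nlinarith [mul_nonneg (by linarith : (0:ℝ) ≤ (M : ℝ) - 1) (by positivity : (0:ℝ) ≤ (M:ℝ) * K ^ 2), sq_nonneg K]
    have h7 : x ≤ 1 := by
      rw [hx]
      apply Real.rpow_le_one_of_one_le_of_nonpos (by norm_num)
      nlinarith
    have h8 : 4 * (M * K ^ 2) * x ≤ 1 := by
      calc 4 * (M * K ^ 2) * x ≤ y * x := mul_le_mul_of_nonneg_right h6 hx0.le
        _ ≤ 1 := by rw [mul_comm]; exact hxy
    have h9 : K ^ 2 * (M * x ^ 2) = (M * K ^ 2 * x) * x := by ring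
    rw [h9]
    have h10 : 0 ≤ M * K ^ 2 * x := by positivity
    nlinarith
  have hex : ∃ b, GoodC J ν b := exists_good (K := K ^ 2) (x := M * x ^ 2) (by rw [Fintype.card_fin]; omega) hν v1
    (by positivity) v2 hq hsmall
  obtain ⟨a'', ha''⟩ := hsub ω hω a
  have h10 := gfun_dot hex v1 hK hx0.le v2 hvx (t := t ω a) (hbd ω hω hb a) (fun c => by
    rw [ha'']
    exact hs a'' c)
  have e1 : ((fun (_ : Fin 1) (j : J) => gfun J ν j : Matrix (Fin 1) J ℝ) *ᵥ fun j : J => t ω a j) c =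
      gfun J ν ⬝ᵥ fun j : J => t ω a j := rfl
  refine (le_of_eq (congrArg abs e1)).trans (h10.trans ?_)
  have e4 : (2 : ℝ) ^ (-((e - κ) * F.n)) = y * x := by
    rw [hx, hy, ← Real.rpow_add (by norm_num)]
    congr 1
    ring
  rw [e4]
  apply mul_le_mul_of_nonneg_right _ hx0.le
  refine le_trans ?_ h4
  have h11 : (M : ℝ) * (Fintype.card (Fin (M + 1 - (J.card + 1))) + 1) * K ^ 2 ≤ M * (M + 1) * K ^ 2 := by
    apply mul_le_mul_of_nonneg_right _ (by positivity)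
    exact mul_le_mul_of_nonneg_left (by linarith) (by positivity)
  linarith

end

end

end Pool.Agent.Helper37.DK2
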