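import Pool.Agent.Helper37.DK2.DlF
import Pool.Agent.Helper37.DK2.Nou
import Pool.Agent.Helper89.LX.Frm

/-! ROW DLOW for the classes `DKU`: a homogeneous class which consists of systems of the class `DKU k` has at least `k`
weights one. The gradients of the coordinates of weight larger than one of a frame of `kappa_c` almost kill the tangents,
and they are known to the label and to the point. -/

set_option autoImplicit false

namespace Pool.Agent.Helper37.DK2

open Finset Filter Topology Matrix Pool.Agent.Helper69.RK Pool.Agent.Helper31.EC Pool.Agent.Helper31.EC.Sp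
open Pool.Agent.Helper40.EL Pool.Agent.Helper89.LX Pool.Agent.Helper3.LF Pool.Agent.Helper84.MT
open Pool.Agent.Helper49.MD Pool.Agent.Helper36.AM

noncomputable section

variable {S : Sp} {M : ℕ} {E : ℕ → ℕ} {ι κ : Type}

theorem sub_sp (l : Lab S) {K : ℕ → ℝ} (h : l.sp.Sub K) : S.Sub K := by
  refine ⟨h.1, h.2.congr fun k => ?_⟩
  have h1 : (l.sp.F k).n = (S.F k).n := (l k).hn
  rw [h1]

theorem sub_ovr (l : Lab S) {e : ℝ} (he : 0 < e) {K : ℕ → ℝ} (h : (l.ovr e he).Sub K) : S.Sub K := by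
  refine ⟨h.1, ?_⟩
  have h2 := h.2.const_mul e
  rw [mul_zero] at h2
  refine h2.congr fun k => ?_
  rw [l.n_over e he k]
  have := (S.F k).pos
  field_simp

theorem typ_all {n : ℕ} (E : Fin n → ∀ k, (S.F k).Ω → Prop) (h : ∀ i, Typ (E i)) :
    Typ (fun k ω => ∀ i, E i k ω) := by
  have key : ∀ s : Finset (Fin n), Typ (fun k ω => ∀ i ∈ s, E i k ω) := by
    intro s
    induction s using Finset.induction_on with
    | empty => exact Typ_true.mono (Eventually.of_forall fun k ω _ _ i hi => by simp at hi)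
    | insert a s ha ih =>
      refine ((h a).and ih).mono (Eventually.of_forall fun k ω _ g i hi => ?_)
      rw [Finset.mem_insert] at hi
      rcases hi with rfl | hi
      · exact g.1
      · exact g.2 i hi
  exact (key Finset.univ).mono (Eventually.of_forall fun k ω _ g i => g i (Finset.mem_univ i))

/-- the degree of the charts of a frame with weights between one and `W` -/
theorem frm_deg {Q : S.VV M} {l : Lab S} {w : Fin M → ℝ} {c W : ℝ} (hc : 0 < c) (h1 : ∀ i, 1 ≤ w i) (hW : ∀ i, w i ≤ W)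
    (f : Frm Q l (fun j => w j * c)) (k : ℕ) (ω : (l.sp.F k).Ω) (j : Fin M) : (f.P k ω j).totalDegree ≤ ⌈W⌉₊ := by
  have hW0 : 0 ≤ W := zero_le_one.trans ((h1 j).trans (hW j))
  unfold MvPolynomial.totalDegree
  apply Finset.sup_le
  intro a ha
  by_cases h0 : a = 0
  · rw [h0, Finsupp.sum_zero_index]
    exact Nat.zero_le _
  · have h2 := f.red k ω j a ha h0
    have h3 : ∑ i, (a i : ℝ) ≤ W := by
      have h4 : (∑ i, (a i : ℝ)) * c ≤ ∑ i, (a i : ℝ) * (w i * c) := by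
        rw [Finset.sum_mul]
        refine Finset.sum_le_sum fun i _ => ?_
        have h5 : (0 : ℝ) ≤ a i := Nat.cast_nonneg _
        have h6 := h1 i
        nlinarith [mul_nonneg h5 hc.le]
      have h7 : (∑ i, (a i : ℝ)) * c ≤ W * c := by
        have := mul_le_mul_of_nonneg_right (hW j) hc.le
        linarith
      exact le_of_mul_le_mul_right h7 hc
    rw [Finsupp.sum_fintype _ _ (fun _ => rfl)]
    have h8 : ((∑ i, a i : ℕ) : ℝ) ≤ ⌈W⌉₊ := by
      push_cast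
      exact h3.trans (Nat.le_ceil W)
    exact_mod_cast h8

/-- the charts of a leaf are differentiable at the point -/
theorem leaf_diff {Q : S.VV M} (t : Leaf S Q E) : ∀ᶠ k in UF, ∀ ω, (S.F k).μ ω ≠ 0 → ∀ a j,
    DifferentiableAt ℝ (fun x => t.F k ω (Function.update (t.Y.v k ω) a x) j) (t.Y.v k ω a) := by
  filter_upwards [t.alg, t.crF] with k h1 h2 ω hω a j
  obtain ⟨g, _, hg⟩ := (h1 ω hω).der 1 _ (h2 ω hω j) a
  exact (hg (t.Y.v k ω) (fun i => by rw [sub_self, abs_zero]; exact one_pos)).differentiableAt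

theorem sub_lpc (M n : ℕ) {K : ℕ → ℝ} (hK : S.Sub K) : S.Sub (fun k => lpc M n (K k)) := by
  unfold lpc
  exact ((S.Sub_const (by positivity)).mul hK).mul ((S.Sub_const (Nat.cast_nonneg _)).mul
    (Sub_pow' (hK.add (S.Sub_const zero_le_one)) n))

theorem sub_frk (M n : ℕ) {K : ℕ → ℝ} (hK : S.Sub K) : S.Sub (fun k => frk M n (K k)) := by
  unfold frk
  have h1 := sub_lpc M n hK
  have h2 := Sub_pow' ((S.Sub_const zero_le_one).add ((S.Sub_const (Nat.cast_nonneg M)).mul h1)) M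
  have h3 := Sub_pow' ((S.Sub_const zero_le_one).add h1) M
  have h4 := h3.mul (((S.Sub_const (show (0 : ℝ) ≤ 2 by norm_num)).mul hK).add (S.Sub_const zero_le_one))
  exact h2.mul ((S.Sub_const (Nat.cast_nonneg M)).mul (((h1.mul (S.Sub_const (Nat.cast_nonneg n))).mul
    ((S.Sub_const (show (0 : ℝ) ≤ 2 by norm_num)).mul h4)).mul hK))

/-- the gradients of the coordinates of the frame almost kill the tangents -/
def EvD {g r : ℕ} {w : Fin (M + 1) → ℝ} {c : ℝ} {s : MSys S (M + 1) (lin g) (Fin r)} {l : Lab S}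
    (f : Frm s.Q l (fun j => w j * c)) (K : ℕ → ℝ) (k : ℕ) (ω : (l k).T.Ω) : Prop :=
  ∀ (i : Fin r) (a : Fin (s.lf i).e) (j : Fin (M + 1)),
        |∑ b, MvPolynomial.eval (fun j => rnd (S.dl 1 k) (s.Q.v k ((l k).p.π ω) j)) (MvPolynomial.pderiv b
          (Pool.Agent.Helper36.AM.inv (f.P k ω) j)) * ltan (s.lf i) k ((l k).p.π ω) a b| ≤
            K k * (S.dl (w j * c) k / S.dl c k) + K k * S.dl 1 k

/-- the finite form: at the points where the leaf relations hold, the gradients of the coordinates `φ` of the frame almost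
kill the tangents -/
theorem exists_dl {g r : ℕ} {w : Fin (M + 1) → ℝ} {c W : ℝ} (hc : 0 < c) (h1 : ∀ i, 1 ≤ w i) (hW : ∀ i, w i ≤ W)
    {s : MSys S (M + 1) (lin g) (Fin r)} {l : Lab S} (f : Frm s.Q l (fun j => w j * c)) {e : ℝ} {he : 0 < e}
    {t : MSys (l.ovr e he) (M + 1) (lin g) (Fin r)} (ht : Gzf s l f c e he t) :
    ∃ K : ℕ → ℝ, S.Sub K ∧ (∀ k, 1 ≤ K k) ∧ Typ (S := l.sp) (EvD f K) ∧
      ∀ᶠ k in UF, ∀ ω : (l k).T.Ω, (l k).T.μ ω ≠ 0 → ∀ i j,
        |MvPolynomial.eval (fun i => MvPolynomial.eval (fun j => rnd (S.dl 1 k) (s.Q.v k ((l k).p.π ω) j))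
          (Pool.Agent.Helper36.AM.inv (f.P k ω) i)) (MvPolynomial.pderiv i (f.P k ω j))| ≤ K k := by
  obtain ⟨Kc, hKc, hc1⟩ := f.bd
  obtain ⟨Kp, hKp, hp1⟩ := f.pt
  obtain ⟨Kx, hKx', hx1⟩ := f.X.bd
  have hKx : S.Sub Kx := sub_sp l hKx'
  obtain ⟨Ks, hKs, _, hs1⟩ := exists_bds s
  obtain ⟨Kt, hKt', ht1⟩ := exists_tan_bd t
  have hKt : S.Sub Kt := sub_ovr l he hKt'
  choose he' o hY hT using ht.lfr
  have hK : S.Sub (fun k => Kc k + Kp k + Kx k + Ks k + Kt k + 1) :=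
    ((((hKc.add hKp).add hKx).add hKs).add hKt).add (S.Sub_const zero_le_one)
  have hsm := sub_le_rpow (S := S) (K := fun k => (1 + lpc (M + 1) ⌈W⌉₊ (Kc k + Kp k + Kx k + Ks k + Kt k + 1)) ^ (M + 1) *
    (2 * (Kc k + Kp k + Kx k + Ks k + Kt k + 1) + 1))
    ((Sub_pow' ((S.Sub_const zero_le_one).add (sub_lpc (M + 1) ⌈W⌉₊ hK)) (M + 1)).mul
      (((S.Sub_const (show (0 : ℝ) ≤ 2 by norm_num)).mul hK).add (S.Sub_const zero_le_one))) one_pos
  have hdf := eventually_all.mpr fun i => leaf_diff (t.lf i)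
  have hfin : S.Sub (fun k => max 1 ((Kc k + Kp k + Kx k + Ks k + Kt k + 1) +
      frk (M + 1) ⌈W⌉₊ (Kc k + Kp k + Kx k + Ks k + Kt k + 1) +
        lpc (M + 1) ⌈W⌉₊ (Kc k + Kp k + Kx k + Ks k + Kt k + 1))) := by
    have a1 := (hK.add (sub_frk (M + 1) ⌈W⌉₊ hK)).add (sub_lpc (M + 1) ⌈W⌉₊ hK)
    refine (a1.add (S.Sub_const zero_le_one)).mono (Eventually.of_forall fun k => zero_le_one.trans (le_max_left _ _)) ?_
    filter_upwards [a1.1] with k a
    exact max_le (by linarith) (by linarith)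
  refine ⟨_, hfin, fun k => le_max_left _ _, ?_, ?_⟩
  · refine (typ_all _ hT).mono ?_
    filter_upwards [hc1, hp1, hx1, hs1, ht1, hsm, hdf, hKc.1, hKp.1, hKx.1, hKs.1, hKt.1]
      with k c1 p1 x1 s1 t1 sm df z1 z2 z3 z4 z5 ω hω hE i a j
    have hn := (S.F k).pos
    have hδ := S.dl_pos 1 k
    have hd1 : (2 : ℝ) ^ (1 * (S.F k).n) * S.dl 1 k = 1 := by
      unfold Sp.dl
      rw [← Real.rpow_add (by norm_num)]
      norm_num
    have hωS : (S.F k).μ ((l k).p.π ω) ≠ 0 := (l k).p.supp ω hω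
    set K := Kc k + Kp k + Kx k + Ks k + Kt k + 1 with hKd
    have h2 := frm_tan (M := M + 1) (P := f.P k ω) (κ := ⌈W⌉₊) (K := K) (δ1 := S.dl 1 k) (dc := S.dl c k) (he' i)
      (f.tri k ω) (fun j => frm_deg hc h1 hW f k ω j) (by linarith) (fun j a => (c1 ω hω j a).trans (by linarith))
      (d := fun i => S.dl (w i * c) k) (fun i => S.dl_pos _ _)
      (fun i => by
        show S.dl (w i * c) k ≤ 1
        rw [← S.dl_zero k]
        exact S.dl_anti (by have := h1 i; positivity) k)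
      (fun i => S.dl_anti (by have := h1 i; nlinarith) k) (S.dl_pos _ _) hδ (Xv := f.X.v k ω)
      (Qv := s.Q.v k ((l k).p.π ω)) (x := fun j => rnd (S.dl 1 k) (s.Q.v k ((l k).p.π ω) j))
      (fun i => (x1 ω hω i).trans (by linarith))
      (fun j => by rw [abs_sub_comm]; exact rnd_le hδ _)
      (fun j => (p1 ω hω j).trans (mul_le_mul_of_nonneg_right (by linarith) hδ.le))
      (F := (s.lf i).F k ((l k).p.π ω)) (G := (t.lf i).F k ω) (o := o i k ω) (Y := (s.lf i).Y.v k ((l k).p.π ω))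
      (Z := (t.lf i).Y.v k ω) (hY i k ω)
      (fun j => (s1.2.2.2 _ hωS i j).trans (mul_le_mul_of_nonneg_right (by linarith) hδ.le))
      (hE i) (fun a j => df i ω hω a j) (fun a j => (t1 ω hω ⟨i, a⟩ j).trans (by linarith)) ?_ a j
    · refine h2.trans ?_
      have hf0 := frk_nonneg (M + 1) ⌈W⌉₊ (show 0 ≤ K by linarith)
      have hl0 := lpc_nonneg (M + 1) ⌈W⌉₊ (show 0 ≤ K by linarith)
      have hle := le_max_right 1 (K + frk (M + 1) ⌈W⌉₊ K + lpc (M + 1) ⌈W⌉₊ K)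
      refine add_le_add (mul_le_mul_of_nonneg_right (by linarith) (div_pos (S.dl_pos _ _) (S.dl_pos _ _)).le)
        (mul_le_mul_of_nonneg_right (by linarith) hδ.le)
    · rw [← mul_assoc]
      exact (mul_le_mul_of_nonneg_right sm hδ.le).trans hd1.le
  · filter_upwards [hc1, hp1, hx1, hs1, ht1, hsm, hKc.1, hKp.1, hKx.1, hKs.1, hKt.1]
      with k c1 p1 x1 s1 t1 sm z1 z2 z3 z4 z5 ω hω i j
    have hn := (S.F k).pos
    have hδ := S.dl_pos 1 k
    have hd1 : (2 : ℝ) ^ (1 * (S.F k).n) * S.dl 1 k = 1 := by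
      unfold Sp.dl
      rw [← Real.rpow_add (by norm_num)]
      norm_num
    set K := Kc k + Kp k + Kx k + Ks k + Kt k + 1 with hKd
    have h2 := frm_A (M := M + 1) (P := f.P k ω) (κ := ⌈W⌉₊) (K := K) (δ1 := S.dl 1 k)
      (f.tri k ω) (fun j => frm_deg hc h1 hW f k ω j) (by linarith) (fun j a => (c1 ω hω j a).trans (by linarith))
      (d := fun i => S.dl (w i * c) k) (fun i => S.dl_pos _ _)
      (fun i => by
        show S.dl (w i * c) k ≤ 1
        rw [← S.dl_zero k]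
        exact S.dl_anti (by have := h1 i; positivity) k) hδ (Xv := f.X.v k ω)
      (Qv := s.Q.v k ((l k).p.π ω)) (x := fun j => rnd (S.dl 1 k) (s.Q.v k ((l k).p.π ω) j))
      (fun i => (x1 ω hω i).trans (by linarith))
      (fun j => by rw [abs_sub_comm]; exact rnd_le hδ _)
      (fun j => (p1 ω hω j).trans (mul_le_mul_of_nonneg_right (by linarith) hδ.le)) ?_ i j
    · refine h2.trans ?_
      have hf0 := frk_nonneg (M + 1) ⌈W⌉₊ (show 0 ≤ K by linarith)
      have hle := le_max_right 1 (K + frk (M + 1) ⌈W⌉₊ K + lpc (M + 1) ⌈W⌉₊ K)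
      linarith
    · rw [← mul_assoc]
      exact (mul_le_mul_of_nonneg_right sm hδ.le).trans hd1.le

/-- ROW DLOW for the classes `DKU` -/
theorem dlowU (M : ℕ) : DLOW DKU M := by
  classical
  intro k₀ g r w ρ TT h
  by_contra hk
  rw [not_le] at hk
  obtain ⟨S, s, hs⟩ := h.ne
  obtain ⟨mm, hNC⟩ := h.cl S s hs
  obtain ⟨hh, hhe⟩ : ∃ hh : ℝ, hh = 1 / ((mm : ℝ) + 1) := ⟨_, rfl⟩
  have hh0 : 0 < hh := by rw [hhe]; positivity
  rw [← hhe] at hNC
  obtain ⟨W, hWe⟩ : ∃ W, W = w (Fin.last M) := ⟨_, rfl⟩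
  have h1 : ∀ i, 1 ≤ w i := fun i => by rw [← h.one]; exact h.mono (Fin.zero_le i)
  have hW : ∀ i, w i ≤ W := fun i => by rw [hWe]; exact h.mono (Fin.le_last i)
  have hW1 : 1 ≤ W := (h1 0).trans (hW 0)
  obtain ⟨c, hce⟩ : ∃ c, c = 1 / (2 * W) := ⟨_, rfl⟩
  have hc : 0 < c := by rw [hce]; positivity
  have hWc : W * c = 1 / 2 := by rw [hce]; field_simp
  obtain ⟨l, f, hl⟩ := h.box S s hs c hc (by rw [← hWe, hWc]; norm_num)
  obtain ⟨t, ht, _⟩ := h.zoom S s hs c hc (by rw [← hWe, hWc]; norm_num) l f hl (1 / 2) (by norm_num)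
    (by rw [← hWe, hWc]; norm_num)
  obtain ⟨K, hK, hK1, hT, hA⟩ := exists_dl hc h1 hW f ht
  -- the smallest weight larger than one
  obtain ⟨ws, hws1, hws⟩ : ∃ ws : ℝ, 1 < ws ∧ ∀ j, w j ≠ 1 → ws ≤ w j := by
    by_cases hne : (univ.filter fun j => w j ≠ 1).Nonempty
    · obtain ⟨j, hj, hmin⟩ := Finset.exists_min_image _ w hne
      refine ⟨w j, lt_of_le_of_ne (h1 j) (fun h' => (Finset.mem_filter.1 hj).2 h'.symm), fun i hi => ?_⟩
      exact hmin i (Finset.mem_filter.2 ⟨Finset.mem_univ i, hi⟩)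
    · refine ⟨2, by norm_num, fun j hj => ?_⟩
      exact absurd ⟨j, Finset.mem_filter.2 ⟨Finset.mem_univ j, hj⟩⟩ hne
  obtain ⟨e₁, he1⟩ : ∃ e₁, e₁ = min ((ws - 1) * c / 2) (1 / 2) := ⟨_, rfl⟩
  have he0 : 0 < e₁ := by
    rw [he1]
    exact lt_min (by have := mul_pos (show 0 < ws - 1 by linarith) hc; linarith) (by norm_num)
  have he2 : e₁ ≤ (ws - 1) * c / 2 := by rw [he1]; exact min_le_left _ _
  have he3 : e₁ ≤ 1 / 2 := by rw [he1]; exact min_le_right _ _
  -- the coordinates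
  obtain ⟨φ, hφ⟩ : ∃ φ : Fin (M + 1 + 1 - k₀) → {j : Fin (M + 1) // w j ≠ 1}, Function.Injective φ := by
    have h2 : Fintype.card {j : Fin (M + 1) // w j ≠ 1} = M + 1 - nd1 w := by
      rw [Fintype.card_subtype_compl, Fintype.card_fin, Fintype.card_subtype]
      rfl
    have h3 : M + 1 + 1 - k₀ ≤ Fintype.card {j : Fin (M + 1) // w j ≠ 1} := by
      rw [h2]
      omega
    have h4 : Fintype.card (Fin (M + 1 + 1 - k₀)) ≤ Fintype.card {j : Fin (M + 1) // w j ≠ 1} := by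
      rwa [Fintype.card_fin]
    obtain ⟨e⟩ := Function.Embedding.nonempty_of_card_le h4
    exact ⟨e, e.injective⟩
  have hφ' : Function.Injective fun a => (φ a).1 := fun a b hab => hφ (Subtype.ext hab)
  -- the constants
  have hC : S.Sub (fun k => ((M + 1 : ℕ) : ℝ) * (1 + K k) * (2 * K k)) :=
    ((S.Sub_const (Nat.cast_nonneg _)).mul ((S.Sub_const zero_le_one).add hK)).mul
      ((S.Sub_const (show (0 : ℝ) ≤ 2 by norm_num)).mul hK)
  have hC1 := sub_le_rpow hC he0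
  obtain ⟨δ, hδe⟩ : ∃ δ, δ = min e₁ (1 / 4) := ⟨_, rfl⟩
  have hδ0 : 0 < δ := by rw [hδe]; exact lt_min he0 (by norm_num)
  have hδ1 : δ ≤ e₁ := by rw [hδe]; exact min_le_left _ _
  have hδ2 : δ ≤ 1 / 4 := by rw [hδe]; exact min_le_right _ _
  have hT1 : Tendsto (fun k => (l k).T.pb (fun ω : (l k).T.Ω => ¬ EvD f K k ω)) UF (𝓝 0) := hT
  have hleak : Tendsto (fun k => (l k).leak (s.cnd c none k) / (S.F k).n) UF (𝓝 0) := hl.1 none
  obtain ⟨k, hNCk, hAk, hCk, hTk, hlk, hfn⟩ := ((hNC δ hδ0).and (hA.and (hC1.and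
    ((hT1.eventually (gt_mem_nhds (show (0 : ℝ) < 1 / 4 by norm_num))).and
      ((hleak.eventually (gt_mem_nhds (show 0 < hh * e₁ / 4 by positivity))).and f.fn))))).exists
  have hn := (S.F k).pos
  have hδp := S.dl_pos 1 k
  have hNCk' : NCf (S.F k) (cQ1 (S.F k) (ob s k)) (Fin (M + 1 + 1 - k₀)) (mtan (ob s k)) hh δ := hNCk
  have h5 := hNCk' (l k) (fun ω => nuM (f.P k ω) (fun j => rnd (S.dl 1 k) (s.Q.v k ((l k).p.π ω) j))
    (((M + 1 : ℕ) : ℝ) * (1 + K k)) (fun a => (φ a).1)) ?_ ?_ e₁ hδ1 he3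
  · -- the contradiction
    have h6 : 1 - (1 / 4 : ℝ) < (l k).T.pb (fun ω => ∀ (a : Σ i, Fin ((ob s k).lf i).e) (c' : Fin (M + 1 + 1 - k₀)),
        |(nuM (f.P k ω) (fun j => rnd (S.dl 1 k) (s.Q.v k ((l k).p.π ω) j)) (((M + 1 : ℕ) : ℝ) * (1 + K k))
          (fun a => (φ a).1) *ᵥ mtan (ob s k) ((l k).p.π ω) a) c'| ≤ 2 ^ (-(e₁ * (S.F k).n))) := by
      have h7 := (l k).T.pb_add_compl (EvD f K k)
      have h7' : 1 - (1 / 4 : ℝ) < (l k).T.pb (EvD f K k) := by linarith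
      refine lt_of_lt_of_le h7' ((l k).T.pb_mono ?_)
      intro ω _ hE a c'
      have e1 : (nuM (f.P k ω) (fun j => rnd (S.dl 1 k) (s.Q.v k ((l k).p.π ω) j)) (((M + 1 : ℕ) : ℝ) * (1 + K k))
          (fun a => (φ a).1) *ᵥ mtan (ob s k) ((l k).p.π ω) a) c' = ((M + 1 : ℕ) : ℝ) * (1 + K k) *
          ∑ b, MvPolynomial.eval (fun j => rnd (S.dl 1 k) (s.Q.v k ((l k).p.π ω) j)) (MvPolynomial.pderiv b
            (Pool.Agent.Helper36.AM.inv (f.P k ω) (φ c').1)) * ltan (s.lf a.1) k ((l k).p.π ω) a.2 b := by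
        rw [Finset.mul_sum]
        show (∑ b, nuM (f.P k ω) (fun j => rnd (S.dl 1 k) (s.Q.v k ((l k).p.π ω) j)) (((M + 1 : ℕ) : ℝ) * (1 + K k))
          (fun a => (φ a).1) c' b * ltan (s.lf a.1) k ((l k).p.π ω) a.2 b) = _
        refine Finset.sum_congr rfl fun b _ => ?_
        rw [← mul_assoc]
        rfl
      have h8 := hE a.1 a.2 (φ c').1
      have h9 : 0 ≤ ((M + 1 : ℕ) : ℝ) * (1 + K k) := by
        have := hK1 k
        positivity
      rw [e1, abs_mul, abs_of_nonneg h9]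
      have h10 : S.dl (w (φ c').1 * c) k / S.dl c k ≤ 2 ^ (-(2 * e₁ * (S.F k).n)) := by
        unfold Sp.dl
        rw [← Real.rpow_sub (by norm_num)]
        apply Real.rpow_le_rpow_of_exponent_le (by norm_num)
        have h11 := hws _ (φ c').2
        have h12 : (ws - 1) * c ≤ (w (φ c').1 - 1) * c := mul_le_mul_of_nonneg_right (by linarith) hc.le
        have h13 : 2 * e₁ * (S.F k).n ≤ (w (φ c').1 - 1) * c * (S.F k).n :=
          mul_le_mul_of_nonneg_right (by linarith) hn.le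
        linarith
      have h11 : S.dl 1 k ≤ 2 ^ (-(2 * e₁ * (S.F k).n)) := by
        unfold Sp.dl
        apply Real.rpow_le_rpow_of_exponent_le (by norm_num)
        nlinarith
      have hKk := hK1 k
      have h12 : K k * (S.dl (w (φ c').1 * c) k / S.dl c k) + K k * S.dl 1 k ≤
          2 * K k * 2 ^ (-(2 * e₁ * (S.F k).n)) := by
        have a1 := mul_le_mul_of_nonneg_left h10 (show 0 ≤ K k by linarith)
        have a2 := mul_le_mul_of_nonneg_left h11 (show 0 ≤ K k by linarith)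
        linarith
      have h13 : ((M + 1 : ℕ) : ℝ) * (1 + K k) * (2 * K k * 2 ^ (-(2 * e₁ * (S.F k).n))) ≤
          2 ^ (-(e₁ * (S.F k).n)) := by
        have a1 : ((M + 1 : ℕ) : ℝ) * (1 + K k) * (2 * K k * 2 ^ (-(2 * e₁ * (S.F k).n))) =
            ((M + 1 : ℕ) : ℝ) * (1 + K k) * (2 * K k) * 2 ^ (-(2 * e₁ * (S.F k).n)) := by ring
        have a2 : (2 : ℝ) ^ (-(e₁ * (S.F k).n)) = 2 ^ (e₁ * (S.F k).n) * 2 ^ (-(2 * e₁ * (S.F k).n)) := by
          rw [← Real.rpow_add (by norm_num)]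
          congr 1
          ring
        rw [a1, a2]
        exact mul_le_mul_of_nonneg_right hCk (by positivity)
      exact (mul_le_mul_of_nonneg_left (h8.trans h12) h9).trans h13
    have h7 : (l k).leak (fc (cQ1 (S.F k) (ob s k))) / (hh * e₁ * (S.F k).n) < 1 / 4 := by
      have a1 : (l k).leak (fc (cQ1 (S.F k) (ob s k))) < hh * e₁ / 4 * (S.F k).n := (div_lt_iff₀ hn).mp hlk
      rw [div_lt_iff₀ (by positivity)]
      linarith
    linarith
  · intro ω ω' a1 a2 a3 a4 a5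
    have h6 : f.P k ω = f.P k ω' := hfn ω ω' a1 a2 a3 a4
    have h7 : (fun j => rnd (S.dl 1 k) (s.Q.v k ((l k).p.π ω) j)) =
        fun j => rnd (S.dl 1 k) (s.Q.v k ((l k).p.π ω') j) := by
      funext j
      exact rnd_of_cell a5 j
    show nuM (f.P k ω) _ _ _ = nuM (f.P k ω') _ _ _
    rw [h6, h7]
  · intro ω hω b
    exact inv_adm (f.tri k ω) (zero_le_one.trans (hK1 k)) (hAk ω hω) hφ' b

end

end Pool.Agent.Helper37.DK2
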