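import Pool.Agent.Helper37.DK2.Def

/-! CLOSURE of the classes `NC k h`, finite part: extensions, events of extensions. -/

set_option autoImplicit false

namespace Pool.Agent.Helper37.DK2

open Finset Filter Topology Matrix Pool.Agent.Helper69.RK Pool.Agent.Helper31.EC Pool.Agent.Helper31.EC.Sp
open Pool.Agent.Helper40.EL Pool.Agent.Helper89.LX Pool.Agent.Helper3.LF Pool.Agent.Helper84.MT
open Pool.Agent.Helper49.MD Pool.Agent.Helper36.AM

noncomputable section

variable {S T : Sp} {M : ℕ} {E : ℕ → ℕ} {ι κ : Type}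

/-! ### extensions -/

/-- non concentration in an extension -/
theorem NCf.pull {F K : FSp} (p : FPj K F) (hn : K.n = F.n) {C : Setoid F.Ω} {C' : Setoid K.Ω}
    (hC : ∀ ω ω', K.μ ω ≠ 0 → K.μ ω' ≠ 0 → (C' ω ω' ↔ C (p.π ω) (p.π ω')))
    {γ : Type} [Fintype γ] {α β : Type} [Fintype β] {t : F.Ω → α → β → ℝ} {h δ : ℝ} (h0 : 0 < h) (hδ : 0 < δ)
    (H : NCf F C γ t h δ) : NCf K C' γ (fun ω => t (p.π ω)) h δ := by
  intro l ν h1 h2 e he he'
  have h3 := H (FLab.down p hn l) ν (fun w w' a b c d e1 => h1 w w' a b c d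
    ((hC _ _ (l.p.supp w a) (l.p.supp w' b)).mpr e1)) h2 e he he'
  have h4 : (FLab.down p hn l).leak (fc C) ≤ l.leak (fc C') := by
    refine (FLab.down_leak p hn l _).trans (l.leak_anti ?_)
    exact fc_le fun ω ω' a b _ d => (hC ω ω' a b).mpr d
  have h5 : 0 < h * e * K.n := by
    have := K.pos
    have := hδ.trans_le he
    positivity
  have e0 : (FLab.down p hn l).T.pb (fun w => ∀ a c, |(ν w *ᵥ t ((FLab.down p hn l).p.π w) a) c| ≤
      2 ^ (-(e * F.n))) = l.T.pb (fun w => ∀ a c, |(ν w *ᵥ t (p.π (l.p.π w)) a) c| ≤ 2 ^ (-(e * K.n))) := by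
    rw [hn]
    rfl
  rw [← e0]
  refine h3.trans ?_
  rw [← hn]
  have := div_le_div_of_nonneg_right h4 h5.le
  linarith

/-! ### events -/

open Pool.Agent.Helper52.KP in
theorem pb_glue {F K : FSp} (p : FPj K F) (A : K.Ω → Prop) (l₁ : FLab (FSp.im p A))
    (l₂ : FLab (FSp.im p fun ω => ¬ A ω)) (P : (glue p A l₁ l₂).T.Ω → Prop) :
    (glue p A l₁ l₂).T.pb P = K.pb A * l₁.T.pb (fun a => P (Sum.inl a)) +
      (1 - K.pb A) * l₂.T.pb (fun a => P (Sum.inr a)) := by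
  have e0 : (glue p A l₁ l₂).T.pb P = ∑ a, res (gμ p A l₁ l₂) P (Sum.inl a) +
      ∑ a, res (gμ p A l₁ l₂) P (Sum.inr a) := Fintype.sum_sum_type _
  rw [e0]
  have e1 : ∑ a, res (gμ p A l₁ l₂) P (Sum.inl a) = K.pb A * l₁.T.pb (fun a => P (Sum.inl a)) := by
    show _ = K.pb A * ∑ a, res l₁.T.μ (fun a => P (Sum.inl a)) a
    rw [Finset.mul_sum]
    refine Finset.sum_congr rfl fun a _ => ?_
    by_cases h : P (Sum.inl a)
    · rw [res_pos _ _ _ h, res_pos l₁.T.μ (fun a => P (Sum.inl a)) _ h]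
      rfl
    · rw [res_neg _ _ _ h, res_neg l₁.T.μ (fun a => P (Sum.inl a)) _ h, mul_zero]
  have e2 : ∑ a, res (gμ p A l₁ l₂) P (Sum.inr a) = (1 - K.pb A) * l₂.T.pb (fun a => P (Sum.inr a)) := by
    show _ = (1 - K.pb A) * ∑ a, res l₂.T.μ (fun a => P (Sum.inr a)) a
    rw [Finset.mul_sum]
    refine Finset.sum_congr rfl fun a _ => ?_
    by_cases h : P (Sum.inr a)
    · rw [res_pos _ _ _ h, res_pos l₂.T.μ (fun a => P (Sum.inr a)) _ h]
      rfl
    · rw [res_neg _ _ _ h, res_neg l₂.T.μ (fun a => P (Sum.inr a)) _ h, mul_zero]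
  rw [e1, e2]

theorem exists_supp (F : FSp) : ∃ ω, F.μ ω ≠ 0 := by
  by_contra hc
  push Not at hc
  have h1 := F.ms
  have h2 : mass F.μ = 0 := Finset.sum_eq_zero fun w _ => hc w
  rw [h2] at h1
  norm_num at h1

open Pool.Agent.Helper52.KP in
/-- non concentration on an event of an extension; the loss is one bit and the probability of the event -/
theorem NCf.im {F K : FSp} (p : FPj K F) (A : K.Ω → Prop) {C : Setoid F.Ω} {γ : Type} [Fintype γ] {α β : Type}
    [Fintype β] {t : F.Ω → α → β → ℝ} {h δ δ' r : ℝ} (h0 : 0 < h) (hδ' : 0 < δ') (hr : 0 < r) (hA : r ≤ K.pb A)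
    (hd : δ' ≤ δ) (h1 : 1 / (h * δ * F.n) + δ' ≤ δ * r) (H : NCf F C γ t h δ') : NCf (FSp.im p A) C γ t h δ := by
  intro l₁ ν a1 a2 e he he'
  obtain ⟨w₀, hw₀⟩ := exists_supp l₁.T
  set l₂ : FLab (FSp.im p fun ω => ¬ A ω) := FLab.triv _ with hl₂
  have hn0 := F.pos
  have hδ0 : 0 < δ := hδ'.trans_le hd
  have he0 : 0 < e := hδ0.trans_le he
  have key := H (glue p A l₁ l₂) (Sum.elim ν fun _ => ν w₀) ?_ ?_ e (hd.trans he) he'
  · -- the conclusion
    have b1 : K.pb A * l₁.T.pb (fun w => ∀ a c, |(ν w *ᵥ t (l₁.p.π w) a) c| ≤ 2 ^ (-(e * F.n))) ≤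
        (glue p A l₁ l₂).T.pb (fun w => ∀ a c, |((Sum.elim ν (fun _ => ν w₀) : _ → Matrix γ β ℝ) w *ᵥ
          t ((glue p A l₁ l₂).p.π w) a) c| ≤ 2 ^ (-(e * F.n))) := by
      rw [pb_glue]
      refine le_add_of_nonneg_right (mul_nonneg (sub_nonneg.mpr (K.pb_le_one A)) (FSp.pb_nonneg _ _))
    have b2 : (glue p A l₁ l₂).leak (fc C) ≤ K.pb A * l₁.leak (FSp.imap p A (fc C)) + 1 := by
      have c1 := glue_leak p A l₁ l₂ (fc C)
      have c2 := (abs_le.mp c1).2
      have c3 : l₂.leak (FSp.imap p (fun ω => ¬ A ω) (fc C)) = 0 := FLab.triv_leak _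
      rw [c3] at c2
      linarith
    have hq : 0 < K.pb A := hr.trans_le hA
    have hX : 0 < h * e * F.n := by positivity
    have c4 := (b1.trans key).trans (add_le_add (div_le_div_of_nonneg_right b2 hX.le) le_rfl)
    show l₁.T.pb (fun w => ∀ a c, |(ν w *ᵥ t (l₁.p.π w) a) c| ≤ 2 ^ (-(e * F.n))) ≤
      l₁.leak (FSp.imap p A (fc C)) / (h * e * F.n) + δ
    have c5 : 1 / (h * e * F.n) ≤ 1 / (h * δ * F.n) :=
      one_div_le_one_div_of_le (by positivity)
        (mul_le_mul_of_nonneg_right (mul_le_mul_of_nonneg_left he h0.le) hn0.le)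
    have c6 : (K.pb A * l₁.leak (FSp.imap p A (fc C)) + 1) / (h * e * F.n) + δ' =
        K.pb A * (l₁.leak (FSp.imap p A (fc C)) / (h * e * F.n)) + (1 / (h * e * F.n) + δ') := by ring
    rw [c6] at c4
    have c7 : 1 / (h * e * F.n) + δ' ≤ K.pb A * δ := by
      have : δ * r ≤ K.pb A * δ := by
        rw [mul_comm]
        exact mul_le_mul_of_nonneg_right hA hδ0.le
      linarith
    have c8 : K.pb A * l₁.T.pb (fun w => ∀ a c, |(ν w *ᵥ t (l₁.p.π w) a) c| ≤ 2 ^ (-(e * F.n))) ≤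
        K.pb A * (l₁.leak (FSp.imap p A (fc C)) / (h * e * F.n) + δ) := by
      rw [mul_add]
      linarith
    exact le_of_mul_le_mul_left c8 hq
  · -- a function of the label and of the cell
    intro w w' b1 b2 b3 b4 b5
    have b4' : Sum.map (Quotient.mk l₁.V) (Quotient.mk l₂.V) w = Sum.map (Quotient.mk l₁.V) (Quotient.mk l₂.V) w' := b4
    rcases w with a | a <;> rcases w' with b | b
    · rw [Sum.map_inl, Sum.map_inl, Sum.inl.injEq] at b4'
      have k1 : l₁.T.μ a ≠ 0 := right_ne_zero_of_mul b1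
      have k2 : l₁.T.μ b ≠ 0 := right_ne_zero_of_mul b2
      exact a1 a b k1 k2 ((l₁.p.hZ a b k1 k2).mpr b3) (Quotient.eq (r := l₁.V).mp b4') b5
    · rw [Sum.map_inl, Sum.map_inr] at b4'
      exact absurd b4' (by simp)
    · rw [Sum.map_inr, Sum.map_inl] at b4'
      exact absurd b4' (by simp)
    · rfl
  · intro w hw
    rcases w with a | a
    · exact a2 a (right_ne_zero_of_mul hw)
    · exact a2 w₀ hw₀

/-- informations on an event of an extension -/
theorem I_im_le {F K : FSp} (p : FPj K F) (A : K.Ω → Prop) (B C : Setoid F.Ω) :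
    K.pb A * I (fc B : FL (FSp.im p A)) (fc (F := FSp.im p A) C) ⊥ ≤ I (fc B : FL F) (fc C) ⊥ + 1 := by
  have h2 := K.rmap_I_le A (p.map (fc B)) (p.map (fc C)) (p.map ⊥)
  rw [p.I_map] at h2
  have e1 : (FSp.imp p A).map (FSp.imap p A (fc B)) = K.rmap A (p.map (fc B)) := FSp.imp_imap p A _
  have e2 : (FSp.imp p A).map (FSp.imap p A (fc C)) = K.rmap A (p.map (fc C)) := FSp.imp_imap p A _
  have e3 : (FSp.imp p A).map (FSp.imap p A ⊥) = K.rmap A (p.map ⊥) := FSp.imp_imap p A _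
  rw [← e1, ← e2, ← e3, (FSp.imp p A).I_map] at h2
  exact h2

end

end Pool.Agent.Helper37.DK2
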