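import Pool.Agent.Helper36.AM.St
import Pool.Agent.Helper52.KP.Glue

/-! CLASSES OF SYSTEMS GIVEN BY THEIR TANGENTS. `NC k h`: given the point and a label of leak `L` at the point, the tangents
of the types are in the `2 ^ (-e n)` neighbourhood of a subspace of dimension less than `k` (which is a function of the point
and of the label) with probability at most `L / (h e n) + o(1)`. The class does not depend on labels or forms of the
system; it is closed under extensions, more types, events, diagonals. The condition (R1): the parts of the tangents in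
the coordinates `J` are independent of the point. -/

set_option autoImplicit false

namespace Pool.Agent.Helper37.DK2

open Finset Filter Topology Matrix Pool.Agent.Helper69.RK Pool.Agent.Helper31.EC Pool.Agent.Helper31.EC.Sp
open Pool.Agent.Helper40.EL Pool.Agent.Helper89.LX Pool.Agent.Helper3.LF Pool.Agent.Helper84.MT
open Pool.Agent.Helper49.MD Pool.Agent.Helper36.AM

noncomputable section

variable {S T : Sp} {M : ℕ} {E : ℕ → ℕ} {ι κ : Type}

/-- the TANGENT of a leaf at the point, in the direction of the parameter `a` -/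
def ftan {Ω : Type} (x : FLf Ω M) (ω : Ω) (a : Fin x.e) : Fin M → ℝ := fun j =>
  deriv (fun t => x.F ω (Function.update (x.Y ω) a t) j) (x.Y ω a)

/-- the tangents of a system -/
def mtan {Ω : Type} (x : FMs Ω M ι) (ω : Ω) (a : Σ i, Fin (x.lf i).e) : Fin M → ℝ := ftan (x.lf a.1) ω a.2

/-- NON CONCENTRATION, finite form: for every label of leak `L` for the condition `C` and every family (indices `γ`) of
functionals which is a function of the label and of the cell of `C`, and which is bounded from below on the unit sphere,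
all the vectors `t` are in the `2 ^ (-e n)` neighbourhood of the common kernel with probability at most
`L / (h e n) + δ` -/
def NCf (F : FSp) (C : Setoid F.Ω) (γ : Type) [Fintype γ] {α β : Type} [Fintype β] (t : F.Ω → α → β → ℝ)
    (h δ : ℝ) : Prop :=
  ∀ (l : FLab F) (ν : l.T.Ω → Matrix γ β ℝ),
    (∀ w w', l.T.μ w ≠ 0 → l.T.μ w' ≠ 0 → l.T.Z w w' → l.V w w' → C (l.p.π w) (l.p.π w') → ν w = ν w') →
    (∀ w, l.T.μ w ≠ 0 → ∀ b : γ → ℝ, b ⬝ᵥ b ≤ (b ᵥ* ν w) ⬝ᵥ (b ᵥ* ν w)) →
    ∀ e : ℝ, δ ≤ e → e ≤ 1 / 2 →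
      l.T.pb (fun w => ∀ a c, |(ν w *ᵥ t (l.p.π w) a) c| ≤ 2 ^ (-(e * F.n))) ≤ l.leak (fc C) / (h * e * F.n) + δ

/-- the cells of level 1 of the point -/
def cQ1 (F : FSp) (x : FMs F.Ω M ι) : Setoid F.Ω := Setoid.ker fun ω => cell (dlF F 1) (x.Q ω)

theorem cQ1_ob (s : MSys S M E ι) (k : ℕ) : cQ1 (S.F k) (ob s k) = Setoid.ker (s.Q.cellv 1 k) := rfl

theorem NCf.mono {F : FSp} {C : Setoid F.Ω} {γ : Type} [Fintype γ] {α β : Type} [Fintype β] {t : F.Ω → α → β → ℝ}
    {h δ δ' : ℝ} (hδ : δ ≤ δ') (H : NCf F C γ t h δ) : NCf F C γ t h δ' := by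
  intro l ν h1 h2 e he he'
  exact (H l ν h1 h2 e (hδ.trans he) he').trans (by linarith)

/-- fewer conditions on the vectors -/
theorem NCf.sub {F : FSp} {C : Setoid F.Ω} {γ : Type} [Fintype γ] {α α' β : Type} [Fintype β] {t : F.Ω → α → β → ℝ}
    {t' : F.Ω → α' → β → ℝ} {h δ : ℝ} (H : NCf F C γ t h δ)
    (ht : ∀ ω, F.μ ω ≠ 0 → ∀ a, ∃ a', t ω a = t' ω a') : NCf F C γ t' h δ := by
  intro l ν h1 h2 e he he'
  refine le_trans (l.T.pb_mono ?_) (H l ν h1 h2 e he he')
  intro w hw h3 a c
  obtain ⟨a', e1⟩ := ht _ (l.p.supp w hw) a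
  rw [e1]
  exact h3 a' c

/-- smaller constants -/
theorem NCf.le {F : FSp} {C : Setoid F.Ω} {γ : Type} [Fintype γ] {α β : Type} [Fintype β] {t : F.Ω → α → β → ℝ}
    {h h' δ : ℝ} (h0 : 0 < h') (hh : h' ≤ h) (hδ : 0 < δ) (H : NCf F C γ t h δ) : NCf F C γ t h' δ := by
  intro l ν h1 h2 e he he'
  refine (H l ν h1 h2 e he he').trans ?_
  have hn := F.pos
  have he0 : 0 < e := hδ.trans_le he
  have h3 : 0 < h' * e * F.n := by positivity
  have h4 : h' * e * F.n ≤ h * e * F.n :=
    mul_le_mul_of_nonneg_right (mul_le_mul_of_nonneg_right hh he0.le) hn.le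
  have h5 : l.leak (fc C) / (h * e * F.n) ≤ l.leak (fc C) / (h' * e * F.n) :=
    div_le_div_of_nonneg_left (l.leak_nonneg _) h3 h4
  linarith

/-- fewer functionals -/
theorem NCf.inj {F : FSp} {C : Setoid F.Ω} {γ γ' : Type} [Fintype γ] [Fintype γ'] {α β : Type} [Fintype β]
    {t : F.Ω → α → β → ℝ} {h δ : ℝ} (f : γ → γ') (hf : Function.Injective f) (H : NCf F C γ t h δ) :
    NCf F C γ' t h δ := by
  classical
  intro l ν h1 h2 e he he'
  refine le_trans (l.T.pb_mono ?_) (H l (fun w => (ν w).submatrix f id) ?_ ?_ e he he')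
  · intro w _ h3 a c
    exact h3 a (f c)
  · intro w w' a b c d e1
    show (ν w).submatrix f id = (ν w').submatrix f id
    rw [h1 w w' a b c d e1]
  · intro w hw b
    have h3 := h2 w hw (fun c' => ∑ c, if f c = c' then b c else 0)
    have e1 : ∀ g : γ' → ℝ, (∑ c', (∑ c, if f c = c' then b c else 0) * g c') = ∑ c, b c * g (f c) := by
      intro g
      simp_rw [Finset.sum_mul]
      rw [Finset.sum_comm]
      refine Finset.sum_congr rfl fun c _ => ?_
      rw [Finset.sum_eq_single (f c)]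
      · rw [if_pos rfl]
      · intro c' _ hc'
        rw [if_neg (fun h => hc' h.symm), zero_mul]
      · intro hc; exact absurd (Finset.mem_univ _) hc
    have e2 : (fun c' => ∑ c, if f c = c' then b c else 0) ⬝ᵥ (fun c' => ∑ c, if f c = c' then b c else 0) = b ⬝ᵥ b := by
      rw [dotProduct, e1]
      refine Finset.sum_congr rfl fun c _ => ?_
      congr 1
      rw [Finset.sum_eq_single c]
      · rw [if_pos rfl]
      · intro c' _ hc'
        rw [if_neg (fun h => hc' (hf h))]
      · intro hc; exact absurd (Finset.mem_univ _) hc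
    have e3 : (fun c' => ∑ c, if f c = c' then b c else 0) ᵥ* ν w = b ᵥ* (ν w).submatrix f id := by
      funext j
      exact e1 _
    rw [e2, e3] at h3
    exact h3

/-- THE CLASS `NC k h` as an approximate predicate -/
def ncA (M : ℕ) (ι : Type) (k : ℕ) (h : ℝ) : AP (KM M ι) where
  P := fun F x δ => NCf F (cQ1 F x) (Fin (M + 1 - k)) (mtan x) h δ
  mono := fun _ _ _ _ hδ H => H.mono hδ

/-- THE CLASS `NC k h` -/
def NC (k : ℕ) (h : ℝ) (s : MSys S M E ι) : Prop := (ncA M ι k h).pd 0 S (ob s)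

/-- the classes `NC k h`, `h = 1 / (m + 1)`, as classes of systems of leaves -/
def DKN (M k m : ℕ) : MCl M := fun _ _ _ s => NC k (1 / ((m : ℝ) + 1)) s

/-- the condition (R1) as an approximate predicate: the parts of the tangents in the coordinates `J` are independent of the
point -/
def tcell (F : FSp) (x : FMs F.Ω M ι) (J : Finset (Fin M)) : Setoid F.Ω :=
  Setoid.ker fun ω (a : Σ i, Fin (x.lf i).e) (j : J) => ⌊mtan x ω a j / dlF F 1⌋

def r1A (M : ℕ) (ι : Type) (J : Finset (Fin M)) : AP (KM M ι) where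
  P := fun F x δ => I (fc (tcell F x J) : FL F) (fc (cQ1 F x)) ⊥ ≤ δ * F.n
  mono := fun F _ _ _ hδ H => H.trans (mul_le_mul_of_nonneg_right hδ F.pos.le)

/-- THE CONDITION (R1) -/
def R1 (J : Finset (Fin M)) (s : MSys S M E ι) : Prop := (r1A M ι J).pd 0 S (ob s)

/-- non concentration of the parts of the tangents in the coordinates `J` near hyperplanes -/
def ncqA (M : ℕ) (ι : Type) (J : Finset (Fin M)) (h : ℝ) : AP (KM M ι) where
  P := fun F x δ => NCf F (cQ1 F x) (Fin 1) (fun ω a (j : J) => mtan x ω a j) h δ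
  mono := fun _ _ _ _ hδ H => H.mono hδ

def NCq (J : Finset (Fin M)) (h : ℝ) (s : MSys S M E ι) : Prop := (ncqA M ι J h).pd 0 S (ob s)

/-- the coordinates of weight one -/
def J1 {M : ℕ} (w : Fin M → ℝ) : Finset (Fin M) := by
  classical exact univ.filter fun j => w j = 1

theorem J1_card {M : ℕ} (w : Fin M → ℝ) : (J1 w).card = nd1 w := rfl

/-- FROZEN: a homogeneous class contains a homogeneous class with (R1) for the coordinates of weight one -/
def HR1 (M : ℕ) : Prop := ∀ (Cl : MCl (M + 1)) (g r : ℕ) (w : Fin (M + 1) → ℝ) (ρ : ℝ)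
  (TT : ∀ S : Sp, MSys S (M + 1) (lin g) (Fin r) → Prop), Hom M Cl g r w ρ TT →
    ∃ TT' : ∀ S : Sp, MSys S (M + 1) (lin g) (Fin r) → Prop, Hom M Cl g r w ρ TT' ∧
      (∀ S s, TT' S s → TT S s) ∧ ∀ S s, TT' S s → R1 (J1 w) s

end

end Pool.Agent.Helper37.DK2
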