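import Pool.Agent.Helper36.AM.Inv
import Pool.Agent.Helper84.MT.Seg
import Mathlib.Analysis.Calculus.Deriv.Mul
import Mathlib.Analysis.Calculus.Deriv.Comp

/-! Triangular charts and tangents (deterministic): the gradients of the inverse of the chart of a frame almost kill the
tangents of the leaves, with the factor given by the weights. -/

set_option autoImplicit false

namespace Pool.Agent.Helper37.DK2

open Finset MvPolynomial Matrix Pool.Agent.Helper36.AM Pool.Agent.Helper81.MI Pool.Agent.Helper84.MT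

noncomputable section

variable {M : ℕ} {P : Fin M → MvPolynomial (Fin M) ℝ}

/-- triangular systems -/
theorem tri_solve {A : Fin M → Fin M → ℝ} (h0 : ∀ j i, ¬ i < j → A j i = 0) {L : ℝ} (hL : 0 ≤ L)
    (hA : ∀ j i, |A j i| ≤ L) {u y : Fin M → ℝ} (hu : ∀ j, u j + ∑ i, A j i * u i = y j) {ε : ℝ} (hε : 0 ≤ ε)
    (hy : ∀ j, |y j| ≤ ε) (j : Fin M) : |u j| ≤ (1 + M * L) ^ M * ε := by
  have h1L : 1 ≤ 1 + M * L := by
    have : 0 ≤ (M : ℝ) * L := by positivity
    linarith
  have key : ∀ n : ℕ, ∀ j : Fin M, (j : ℕ) < n → |u j| ≤ (1 + M * L) ^ n * ε := by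
    intro n
    induction n with
    | zero => intro j hj; omega
    | succ n ih =>
      intro j hj
      have h1 : u j = y j - ∑ i, A j i * u i := by linarith [hu j]
      have h2 : |∑ i, A j i * u i| ≤ M * (L * ((1 + M * L) ^ n * ε)) := by
        refine (Finset.abs_sum_le_sum_abs _ _).trans ?_
        have h3 : ∀ i ∈ (Finset.univ : Finset (Fin M)), |A j i * u i| ≤ L * ((1 + M * L) ^ n * ε) := by
          intro i _
          by_cases hij : i < j
          · rw [abs_mul]
            exact mul_le_mul (hA j i) (ih i (by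
              have : (i : ℕ) < j := hij
              omega)) (abs_nonneg _) hL
          · rw [h0 j i hij, zero_mul, abs_zero]
            positivity
        have h4 := Finset.sum_le_card_nsmul _ _ _ h3
        rwa [Finset.card_univ, Fintype.card_fin, nsmul_eq_mul] at h4
      rw [h1]
      refine (abs_sub _ _).trans ?_
      have h5 : ε ≤ (1 + M * L) ^ n * ε := le_mul_of_one_le_left hε (one_le_pow₀ h1L)
      have h6 := hy j
      calc |y j| + |∑ i, A j i * u i| ≤ (1 + M * L) ^ n * ε + M * (L * ((1 + M * L) ^ n * ε)) := by linarith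
        _ = (1 + M * L) ^ (n + 1) * ε := by ring
  exact key M j j.2

/-- the inverse of a triangular chart -/
theorem inv_left (tri : ∀ j, ∀ i ∈ (P j).vars, i < j) {x u : Fin M → ℝ} (h : ∀ j, x j = eval u (P j) + u j)
    (j : Fin M) : eval x (inv P j) = u j := by
  have key : ∀ n : ℕ, ∀ j : Fin M, (j : ℕ) < n → eval x (inv P j) = u j := by
    intro n
    induction n with
    | zero => intro j hj; omega
    | succ n ih =>
      intro j hj
      rw [inv_eval tri]
      have h1 : eval (fun i => eval x (inv P i)) (P j) = eval u (P j) := by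
        apply eval_congr
        intro i hi
        exact ih i (by
          have : (i : ℕ) < j := tri j i hi
          omega)
      rw [h1, h j]
      ring
  exact key (j + 1) j (Nat.lt_succ_self _)

/-- chain rule for polynomials -/
theorem hasDeriv_eval (q : MvPolynomial (Fin M) ℝ) {φ : ℝ → Fin M → ℝ} {φ' : Fin M → ℝ} {t₀ : ℝ}
    (h : ∀ i, HasDerivAt (fun t => φ t i) (φ' i) t₀) :
    HasDerivAt (fun t => eval (φ t) q) (∑ i, eval (φ t₀) (pderiv i q) * φ' i) t₀ := by
  classical
  induction q using MvPolynomial.induction_on with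
  | C c =>
    simp only [eval_C, pderiv_C, map_zero, zero_mul, Finset.sum_const_zero]
    exact hasDerivAt_const _ _
  | add p q hp hq =>
    simp only [map_add, add_mul, Finset.sum_add_distrib]
    exact hp.add hq
  | mul_X p n hp =>
    have h1 := hp.mul (h n)
    have e1 : (fun t => eval (φ t) (p * X n)) = fun t => eval (φ t) p * φ t n := by
      funext t
      rw [map_mul, eval_X]
    rw [e1]
    have e2 : ∑ i, eval (φ t₀) (pderiv i (p * X n)) * φ' i =
        (∑ i, eval (φ t₀) (pderiv i p) * φ' i) * φ t₀ n + eval (φ t₀) p * φ' n := by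
      have h2 : ∀ i, eval (φ t₀) (pderiv i (p * X n)) * φ' i =
          eval (φ t₀) (pderiv i p) * φ' i * φ t₀ n + (if n = i then eval (φ t₀) p * φ' n else 0) := by
        intro i
        rw [Derivation.leibniz, smul_eq_mul, smul_eq_mul, map_add, map_mul, map_mul, eval_X, pderiv_X]
        by_cases hi : n = i
        · subst hi
          rw [Pi.single_eq_same, map_one, if_pos rfl]
          ring
        · rw [Pi.single_eq_of_ne hi, map_zero, if_neg hi]
          ring
      rw [Finset.sum_congr rfl fun i _ => h2 i, Finset.sum_add_distrib, Finset.sum_ite_eq, if_pos (Finset.mem_univ n),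
        ← Finset.sum_mul]
    rw [e2]
    exact h1

/-- coefficients of a derivative -/
theorem pderiv_coeff_le {κ : ℕ} {q : MvPolynomial (Fin M) ℝ} (hq : q.totalDegree ≤ κ) {K : ℝ} (hK : 0 ≤ K)
    (hc : ∀ s, |q.coeff s| ≤ K) (i : Fin M) (s : Fin M →₀ ℕ) : |(pderiv i q).coeff s| ≤ K * κ := by
  rw [coeff_pderiv, abs_mul]
  by_cases h0 : q.coeff (s + Finsupp.single i 1) = 0
  · rw [h0, abs_zero, zero_mul]
    positivity
  · have h1 := sum_le_deg hq (mem_support_iff.mpr h0)
    have h2 : s i + 1 ≤ κ := by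
      have h3 := Finset.single_le_sum (f := fun i' => (s + Finsupp.single i 1 : Fin M →₀ ℕ) i')
        (fun _ _ => Nat.zero_le _) (Finset.mem_univ i)
      have h4 : (s + Finsupp.single i 1 : Fin M →₀ ℕ) i = s i + 1 := by simp
      simp only [h4] at h3
      omega
    have h5 : |((s i : ℝ) + 1)| ≤ κ := by
      rw [abs_of_nonneg (by positivity)]
      exact_mod_cast h2
    exact mul_le_mul (hc _) h5 (abs_nonneg _) hK

/-- the Lipschitz constant of the chart -/
def lpc (M κ : ℕ) (K : ℝ) : ℝ := ((κ : ℝ) + 1) ^ M * K * (κ * (K + 1) ^ κ)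

theorem lpc_nonneg (M κ : ℕ) {K : ℝ} (hK : 0 ≤ K) : 0 ≤ lpc M κ K := by
  unfold lpc
  positivity

/-- the constant of `frm_tan` -/
def frk (M κ : ℕ) (K : ℝ) : ℝ := (1 + M * lpc M κ K) ^ M * (M * (lpc M κ K * κ *
  (2 * ((1 + lpc M κ K) ^ M * (2 * K + 1))) * K))

theorem frk_nonneg (M κ : ℕ) {K : ℝ} (hK : 0 ≤ K) : 0 ≤ frk M κ K := by
  unfold frk
  have := lpc_nonneg M κ hK
  positivity

/-- THE GRADIENTS OF THE INVERSE CHART ON THE TANGENTS -/
theorem frm_tan {e e' : ℕ} (he : e' = e) (tri : ∀ j, ∀ i ∈ (P j).vars, i < j) {κ : ℕ}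
    (hκ : ∀ j, (P j).totalDegree ≤ κ) {K δ1 dc : ℝ} (hK : 1 ≤ K) (hc : ∀ j s, |(P j).coeff s| ≤ K) {d : Fin M → ℝ}
    (hd0 : ∀ i, 0 < d i) (hd1 : ∀ i, d i ≤ 1) (hdc : ∀ i, d i ≤ dc) (hdc0 : 0 < dc) (hδ : 0 < δ1)
    {Xv Qv x : Fin M → ℝ} (hX : ∀ i, |Xv i| ≤ K) (hx : ∀ j, |x j - Qv j| ≤ δ1)
    (hpt : ∀ j, |Qv j - (eval (fun i => d i * Xv i) (P j) + d j * Xv j)| ≤ K * δ1) {F : (Fin e → ℝ) → Fin M → ℝ}
    {G : (Fin e' → ℝ) → Fin M → ℝ} {o Y : Fin e → ℝ} {Z : Fin e' → ℝ}
    (hY : ∀ m, Y m = o m + dc * Z (Fin.cast he.symm m)) (hF : ∀ j, |Qv j - F Y j| ≤ K * δ1)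
    (rel : ∀ (y : Fin e → ℝ) j, F (fun m => o m + dc * y m) j =
      eval (fun a => d a * G (fun m => y (Fin.cast he m)) a) (P j) + d j * G (fun m => y (Fin.cast he m)) j)
    (hdf : ∀ a j, DifferentiableAt ℝ (fun t => G (Function.update Z a t) j) (Z a))
    (htan : ∀ a j, |deriv (fun t => G (Function.update Z a t) j) (Z a)| ≤ K)
    (hs : (1 + lpc M κ K) ^ M * ((2 * K + 1) * δ1) ≤ 1) (a : Fin e) (j : Fin M) :
    |∑ b, eval x (pderiv b (inv P j)) * deriv (fun t => F (Function.update Y a t) b) (Y a)| ≤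
      K * (d j / dc) + frk M κ K * δ1 := by
  subst he
  have hK0 : 0 ≤ K := zero_le_one.trans hK
  obtain ⟨L, hL⟩ : ∃ L, L = lpc M κ K := ⟨_, rfl⟩
  have hL0 : 0 ≤ L := by rw [hL]; exact lpc_nonneg M κ hK0
  rw [← hL] at hs
  obtain ⟨U, hU⟩ : ∃ U : Fin M → ℝ, U = fun i => d i * Xv i := ⟨_, rfl⟩
  have hUK : ∀ i, |U i| ≤ K := by
    intro i
    rw [hU]
    show |d i * Xv i| ≤ K
    rw [abs_mul, abs_of_pos (hd0 i)]
    exact (mul_le_of_le_one_left (abs_nonneg _) (hd1 i)).trans (hX i)
  have hpt' : ∀ j, |Qv j - (eval U (P j) + U j)| ≤ K * δ1 := by rw [hU]; exact hpt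
  have hε : 0 ≤ (2 * K + 1) * δ1 := by positivity
  -- the two points
  have hval : ∀ y : Fin M → ℝ, (∀ j, |y j - Qv j| ≤ (K + 1) * δ1) → ∀ j,
      |eval y (inv P j) - U j| ≤ (1 + L) ^ M * ((2 * K + 1) * δ1) := by
    intro y hy
    apply inv_val tri hκ hK0 hc hK0 hε (by rw [hL]; rfl) hs U y hUK
    intro j
    have h3 : y j - (eval U (P j) + U j) = (y j - Qv j) + (Qv j - (eval U (P j) + U j)) := by ring
    rw [h3]
    refine (abs_add_le _ _).trans ?_
    have h4 := hy j
    have h5 := hpt' j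
    linarith
  obtain ⟨Us, hUs⟩ : ∃ Us : Fin M → ℝ, Us = fun i => eval x (inv P i) := ⟨_, rfl⟩
  obtain ⟨U', hU'⟩ : ∃ U' : Fin M → ℝ, U' = fun i => d i * G Z i := ⟨_, rfl⟩
  have hYe : Y = fun m => o m + dc * Z m := funext fun m => hY m
  have hFY : ∀ j, F Y j = eval U' (P j) + U' j := by
    intro j
    rw [hYe, hU']
    exact rel Z j
  have h1 : ∀ j, |Us j - U j| ≤ (1 + L) ^ M * ((2 * K + 1) * δ1) := by
    rw [hUs]
    exact hval x fun j => (hx j).trans (by nlinarith)
  have h2 : ∀ j, |U' j - U j| ≤ (1 + L) ^ M * ((2 * K + 1) * δ1) := by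
    intro j
    have h3 := hval (F Y) (fun j => by
      rw [abs_sub_comm]
      exact (hF j).trans (by nlinarith)) j
    rwa [inv_left tri hFY] at h3
  have hUsK : ∀ j, |Us j| ≤ K + 1 := by
    intro j
    have h3 : |Us j| ≤ |Us j - U j| + |U j| := by
      have := abs_add_le (Us j - U j) (U j)
      rwa [sub_add_cancel] at this
    have h4 := h1 j
    have h5 := hUK j
    linarith
  have hU'K : ∀ j, |U' j| ≤ K + 1 := by
    intro j
    have h3 : |U' j| ≤ |U' j - U j| + |U j| := by
      have := abs_add_le (U' j - U j) (U j)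
      rwa [sub_add_cancel] at this
    have h4 := h2 j
    have h5 := hUK j
    linarith
  have hUU : ∀ j, |U' j - Us j| ≤ 2 * ((1 + L) ^ M * ((2 * K + 1) * δ1)) := by
    intro j
    have h3 : U' j - Us j = (U' j - U j) - (Us j - U j) := by ring
    rw [h3]
    refine (abs_sub _ _).trans ?_
    have h4 := h1 j
    have h5 := h2 j
    linarith
  -- the matrices
  obtain ⟨A, hA⟩ : ∃ A : Fin M → Fin M → ℝ, A = fun j i => eval Us (pderiv i (P j)) := ⟨_, rfl⟩
  obtain ⟨B, hB⟩ : ∃ B : Fin M → Fin M → ℝ, B = fun j i => eval U' (pderiv i (P j)) := ⟨_, rfl⟩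
  have hA0 : ∀ j i, ¬ i < j → A j i = 0 := by
    intro j i hij
    rw [hA]
    show eval Us (pderiv i (P j)) = 0
    rw [pderiv_eq_zero_of_notMem_vars (fun h => hij (tri j i h)), map_zero]
  have hAL : ∀ j i, |A j i| ≤ L := by
    intro j i
    rw [hA]
    refine (pderiv_le (P j) (hκ j) Us (K + 1) K (by linarith) hK0 hUsK (hc j) i).trans (le_of_eq ?_)
    rw [hL]
    unfold lpc
    ring
  have hBA : ∀ j i, |B j i - A j i| ≤ L * κ * (2 * ((1 + L) ^ M * ((2 * K + 1) * δ1))) := by
    intro j i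
    rw [hA, hB]
    have h3 := eval_sub_le (pderiv i (P j)) ((totalDegree_pderiv_le i (P j)).trans (hκ j)) U' Us (K + 1) (K * κ)
      (2 * ((1 + L) ^ M * ((2 * K + 1) * δ1))) (by linarith) (by positivity) (by positivity) hU'K hUsK hUU
      (fun s => pderiv_coeff_le (hκ j) hK0 (hc j) i s)
    refine h3.trans (le_of_eq ?_)
    rw [hL]
    unfold lpc
    ring
  -- the tangents
  obtain ⟨v, hv⟩ : ∃ v : Fin M → ℝ, v = fun i => d i / dc * deriv (fun t => G (Function.update Z a t) i) (Z a) :=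
    ⟨_, rfl⟩
  have hvj : ∀ i, |v i| ≤ K * (d i / dc) := by
    intro i
    rw [hv]
    show |d i / dc * _| ≤ _
    rw [abs_mul, abs_of_pos (div_pos (hd0 i) hdc0), mul_comm]
    exact mul_le_mul_of_nonneg_right (htan a i) (div_pos (hd0 i) hdc0).le
  have hvK : ∀ i, |v i| ≤ K := by
    intro i
    refine (hvj i).trans ?_
    have : d i / dc ≤ 1 := (div_le_one hdc0).mpr (hdc i)
    nlinarith
  have hder : ∀ b, deriv (fun t => F (Function.update Y a t) b) (Y a) = v b + ∑ i, B b i * v i := by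
    intro b
    -- the chart along the direction `a`
    have hg : ∀ i, HasDerivAt (fun t => d i * G (Function.update Z a ((t - o a) / dc)) i) (v i) (Y a) := by
      intro i
      have e1 : (Y a - o a) / dc = Z a := by
        rw [hYe]
        field_simp
        ring
      have h4 : HasDerivAt (fun t : ℝ => (t - o a) / dc) (1 / dc) (Y a) :=
        ((hasDerivAt_id (Y a)).sub_const (o a)).div_const dc
      have h5 : HasDerivAt (fun t => G (Function.update Z a t) i) (deriv (fun t => G (Function.update Z a t) i) (Z a))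
          ((Y a - o a) / dc) := by
        rw [e1]
        exact (hdf a i).hasDerivAt
      have h6 := (h5.comp (Y a) h4).const_mul (d i)
      have e2 : d i * (deriv (fun t => G (Function.update Z a t) i) (Z a) * (1 / dc)) = v i := by
        rw [hv]
        field_simp
      rw [e2] at h6
      exact h6
    have h7 : HasDerivAt (fun t => eval (fun i => d i * G (Function.update Z a ((t - o a) / dc)) i) (P b) +
        d b * G (Function.update Z a ((t - o a) / dc)) b)
        (∑ i, eval (fun i => d i * G (Function.update Z a ((Y a - o a) / dc)) i) (pderiv i (P b)) * v i + v b) (Y a) :=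
      (hasDeriv_eval (P b) (φ := fun t i => d i * G (Function.update Z a ((t - o a) / dc)) i) hg).add (hg b)
    have e3 : (fun t => F (Function.update Y a t) b) = fun t =>
        eval (fun i => d i * G (Function.update Z a ((t - o a) / dc)) i) (P b) +
          d b * G (Function.update Z a ((t - o a) / dc)) b := by
      funext t
      have h8 := rel (Function.update Z a ((t - o a) / dc)) b
      have e4 : (fun m => o m + dc * Function.update Z a ((t - o a) / dc) m) = Function.update Y a t := by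
        funext m
        by_cases hm : m = a
        · subst hm
          rw [Function.update_self, Function.update_self]
          field_simp
          ring
        · rw [Function.update_of_ne hm, Function.update_of_ne hm, hYe]
      rw [e4] at h8
      exact h8
    rw [e3, h7.deriv]
    have e5 : (fun i => d i * G (Function.update Z a ((Y a - o a) / dc)) i) = U' := by
      have e1 : (Y a - o a) / dc = Z a := by
        rw [hYe]
        field_simp
        ring
      rw [e1, Function.update_eq_self, hU']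
    rw [e5, hB]
    ring
  -- the solution
  obtain ⟨y, hy⟩ : ∃ y : Fin M → ℝ, y = fun b => deriv (fun t => F (Function.update Y a t) b) (Y a) := ⟨_, rfl⟩
  obtain ⟨z, hz⟩ : ∃ z : Fin M → ℝ, z = fun j => eval x (dir y (inv P j)) := ⟨_, rfl⟩
  have hzy : ∀ j, z j + ∑ i, A j i * z i = y j := by
    intro j
    rw [hz, hA, hUs]
    exact (inv_dir tri x y j).symm
  have hdiff : ∀ j, (z j - v j) + ∑ i, A j i * (z i - v i) = ∑ i, (B j i - A j i) * v i := by
    intro j
    have h8 := hzy j
    have h9 : y j = v j + ∑ i, B j i * v i := by rw [hy]; exact hder j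
    have h10 : ∑ i, A j i * (z i - v i) = ∑ i, A j i * z i - ∑ i, A j i * v i := by
      rw [← Finset.sum_sub_distrib]
      exact Finset.sum_congr rfl fun i _ => by ring
    have h11 : ∑ i, (B j i - A j i) * v i = ∑ i, B j i * v i - ∑ i, A j i * v i := by
      rw [← Finset.sum_sub_distrib]
      exact Finset.sum_congr rfl fun i _ => by ring
    rw [h10, h11]
    linarith
  have hrhs : ∀ j, |∑ i, (B j i - A j i) * v i| ≤
      M * (L * κ * (2 * ((1 + L) ^ M * ((2 * K + 1) * δ1))) * K) := by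
    intro j
    refine (Finset.abs_sum_le_sum_abs _ _).trans ?_
    have h8 : ∀ i ∈ (Finset.univ : Finset (Fin M)), |(B j i - A j i) * v i| ≤
        L * κ * (2 * ((1 + L) ^ M * ((2 * K + 1) * δ1))) * K := by
      intro i _
      rw [abs_mul]
      exact mul_le_mul (hBA j i) (hvK i) (abs_nonneg _) (by positivity)
    have h9 := Finset.sum_le_card_nsmul _ _ _ h8
    rwa [Finset.card_univ, Fintype.card_fin, nsmul_eq_mul] at h9
  have hfin := tri_solve hA0 hL0 hAL (u := fun j => z j - v j) hdiff (by positivity) hrhs j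
  have e6 : ∑ b, eval x (pderiv b (inv P j)) * deriv (fun t => F (Function.update Y a t) b) (Y a) = z j := by
    rw [hz, hy]
    show _ = eval x (dir _ (inv P j))
    rw [eval_dir']
    exact Finset.sum_congr rfl fun b _ => mul_comm _ _
  rw [e6]
  have h12 : |z j| ≤ |z j - v j| + |v j| := by
    have := abs_add_le (z j - v j) (v j)
    rwa [sub_add_cancel] at this
  have h13 : (1 + M * L) ^ M * (M * (L * κ * (2 * ((1 + L) ^ M * ((2 * K + 1) * δ1))) * K)) = frk M κ K * δ1 := by
    unfold frk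
    rw [← hL]
    ring
  rw [h13] at hfin
  have h14 := hvj j
  have h15 : |z j - v j| ≤ frk M κ K * δ1 := hfin
  linarith

/-- the chart at the rounded point -/
theorem frm_A (tri : ∀ j, ∀ i ∈ (P j).vars, i < j) {κ : ℕ} (hκ : ∀ j, (P j).totalDegree ≤ κ) {K δ1 : ℝ} (hK : 1 ≤ K)
    (hc : ∀ j s, |(P j).coeff s| ≤ K) {d : Fin M → ℝ} (hd0 : ∀ i, 0 < d i) (hd1 : ∀ i, d i ≤ 1) (hδ : 0 < δ1)
    {Xv Qv x : Fin M → ℝ} (hX : ∀ i, |Xv i| ≤ K) (hx : ∀ j, |x j - Qv j| ≤ δ1)
    (hpt : ∀ j, |Qv j - (eval (fun i => d i * Xv i) (P j) + d j * Xv j)| ≤ K * δ1)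
    (hs : (1 + lpc M κ K) ^ M * ((2 * K + 1) * δ1) ≤ 1) (i j : Fin M) :
    |eval (fun i => eval x (inv P i)) (pderiv i (P j))| ≤ lpc M κ K := by
  have hK0 : 0 ≤ K := zero_le_one.trans hK
  obtain ⟨L, hL⟩ : ∃ L, L = lpc M κ K := ⟨_, rfl⟩
  have hL0 : 0 ≤ L := by rw [hL]; exact lpc_nonneg M κ hK0
  rw [← hL] at hs
  have hUK : ∀ i, |d i * Xv i| ≤ K := by
    intro i
    rw [abs_mul, abs_of_pos (hd0 i)]
    exact (mul_le_of_le_one_left (abs_nonneg _) (hd1 i)).trans (hX i)
  have hε : 0 ≤ (2 * K + 1) * δ1 := by positivity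
  have hval := fun j => inv_val tri hκ hK0 hc hK0 hε (by rw [hL]; rfl) hs (fun i => d i * Xv i) x hUK (fun j => by
    have h3 : x j - (eval (fun i => d i * Xv i) (P j) + d j * Xv j) =
        (x j - Qv j) + (Qv j - (eval (fun i => d i * Xv i) (P j) + d j * Xv j)) := by ring
    rw [h3]
    refine (abs_add_le _ _).trans ?_
    have h4 := hx j
    have h5 := hpt j
    nlinarith) j
  have hUs : ∀ j, |eval x (inv P j)| ≤ K + 1 := by
    intro j
    have h3 : |eval x (inv P j)| ≤ |eval x (inv P j) - d j * Xv j| + |d j * Xv j| := by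
      have := abs_add_le (eval x (inv P j) - d j * Xv j) (d j * Xv j)
      rwa [sub_add_cancel] at this
    have h4 := hval j
    have h5 := hUK j
    linarith
  refine (pderiv_le (P j) (hκ j) _ (K + 1) K (by linarith) hK0 hUs (hc j) i).trans (le_of_eq ?_)
  unfold lpc
  ring

/-- the gradients of the inverse chart at `x` -/
def nuM {γ : Type} (P : Fin M → MvPolynomial (Fin M) ℝ) (x : Fin M → ℝ) (C : ℝ) (φ : γ → Fin M) :
    Matrix γ (Fin M) ℝ := fun c a => C * eval x (pderiv a (inv P (φ c)))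

/-- THE GRADIENTS OF THE INVERSE CHART ARE BOUNDED FROM BELOW -/
theorem inv_adm (tri : ∀ j, ∀ i ∈ (P j).vars, i < j) {x : Fin M → ℝ} {L : ℝ} (hL : 0 ≤ L)
    (hA : ∀ i j, |eval (fun i => eval x (inv P i)) (pderiv i (P j))| ≤ L) {γ : Type} [Fintype γ] {φ : γ → Fin M}
    (hφ : Function.Injective φ) (b : γ → ℝ) :
    b ⬝ᵥ b ≤ (b ᵥ* nuM P x (M * (1 + L)) φ) ⬝ᵥ (b ᵥ* nuM P x (M * (1 + L)) φ) := by
  classical
  obtain ⟨N, hN⟩ : ∃ N : Matrix (Fin M) (Fin M) ℝ, N = fun j a => eval x (pderiv a (inv P j)) := ⟨_, rfl⟩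
  obtain ⟨A, hAe⟩ : ∃ A : Matrix (Fin M) (Fin M) ℝ, A = fun j i => eval (fun i => eval x (inv P i)) (pderiv i (P j)) :=
    ⟨_, rfl⟩
  have h1 : (1 + A) * N = 1 := by
    ext j a
    have h2 := inv_dir tri x (Pi.single a 1) j
    have h3 : ∀ i, eval x (dir (Pi.single a 1) (inv P i)) = N i a := by
      intro i
      rw [eval_dir', Finset.sum_eq_single a]
      · rw [Pi.single_eq_same, one_mul, hN]
      · intro b' _ hb'
        rw [Pi.single_eq_of_ne hb', zero_mul]
      · intro hc
        exact absurd (Finset.mem_univ a) hc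
    simp only [h3] at h2
    rw [Matrix.add_mul, Matrix.one_mul, Matrix.add_apply, Matrix.mul_apply, Matrix.one_apply]
    have h4 : (Pi.single a (1 : ℝ) : Fin M → ℝ) j = if j = a then 1 else 0 := by
      rw [Pi.single_apply]
    rw [h4] at h2
    rw [h2, hAe]
  have h2 : N * (1 + A) = 1 := mul_eq_one_comm.mp h1
  obtain ⟨n, hn⟩ : ∃ n : Fin M → ℝ, n = fun a => ∑ c, b c * eval x (pderiv a (inv P (φ c))) := ⟨_, rfl⟩
  have h3 : ∀ c, b c = ∑ j, n j * (1 + A) j (φ c) := by
    intro c
    have e1 : ∑ j, n j * (1 + A) j (φ c) = ∑ c', b c' * (N * (1 + A)) (φ c') (φ c) := by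
      rw [hn]
      simp only [Matrix.mul_apply, Finset.sum_mul, Finset.mul_sum]
      rw [Finset.sum_comm]
      refine Finset.sum_congr rfl fun c' _ => Finset.sum_congr rfl fun j _ => ?_
      rw [hN]
      ring
    rw [e1, h2, Finset.sum_eq_single c]
    · rw [Matrix.one_apply_eq, mul_one]
    · intro c' _ hc'
      rw [Matrix.one_apply_ne (fun h => hc' (hφ h)), mul_zero]
    · intro hc
      exact absurd (Finset.mem_univ c) hc
  have h4 : ∀ j i, |(1 + A) j i| ≤ 1 + L := by
    intro j i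
    rw [Matrix.add_apply]
    refine (abs_add_le _ _).trans ?_
    have h5 : |A j i| ≤ L := by rw [hAe]; exact hA i j
    have h6 : |(1 : Matrix (Fin M) (Fin M) ℝ) j i| ≤ 1 := by
      rw [Matrix.one_apply]
      split <;> norm_num
    linarith
  have h5 : ∀ c, b c * b c ≤ (1 + L) ^ 2 * (M * (n ⬝ᵥ n)) := by
    intro c
    have h6 : |b c| ≤ (1 + L) * ∑ j, |n j| := by
      rw [h3 c, Finset.mul_sum]
      refine (Finset.abs_sum_le_sum_abs _ _).trans (Finset.sum_le_sum fun j _ => ?_)
      rw [abs_mul, mul_comm]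
      exact mul_le_mul_of_nonneg_right (h4 j (φ c)) (abs_nonneg _)
    have h7 : (∑ j, |n j|) ^ 2 ≤ M * (n ⬝ᵥ n) := by
      have h8 := sq_sum_le_card_mul_sum_sq (s := (Finset.univ : Finset (Fin M))) (f := fun j => |n j|)
      rw [Finset.card_univ, Fintype.card_fin] at h8
      refine h8.trans (le_of_eq ?_)
      congr 1
      exact Finset.sum_congr rfl fun j _ => by rw [sq_abs, sq]
    have h9 : b c * b c = |b c| ^ 2 := by rw [sq_abs, sq]
    rw [h9]
    have h10 : |b c| ^ 2 ≤ ((1 + L) * ∑ j, |n j|) ^ 2 := pow_le_pow_left₀ (abs_nonneg _) h6 2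
    rw [mul_pow] at h10
    exact h10.trans (mul_le_mul_of_nonneg_left h7 (by positivity))
  have h6 : b ⬝ᵥ b ≤ M * ((1 + L) ^ 2 * (M * (n ⬝ᵥ n))) := by
    have h7 : ∑ c, b c * b c ≤ ∑ _c : γ, (1 + L) ^ 2 * (M * (n ⬝ᵥ n)) := Finset.sum_le_sum fun c _ => h5 c
    refine h7.trans ?_
    rw [Finset.sum_const, Finset.card_univ, nsmul_eq_mul]
    have h8 : Fintype.card γ ≤ M := by
      have := Fintype.card_le_of_injective φ hφ
      rwa [Fintype.card_fin] at this
    have h9 : 0 ≤ n ⬝ᵥ n := Finset.sum_nonneg fun _ _ => mul_self_nonneg _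
    apply mul_le_mul_of_nonneg_right _ (by positivity)
    exact_mod_cast h8
  refine h6.trans (le_of_eq ?_)
  have h7 : b ᵥ* nuM P x (M * (1 + L)) φ = fun a => M * (1 + L) * n a := by
    funext a
    rw [hn]
    show ∑ c, b c * (M * (1 + L) * eval x (pderiv a (inv P (φ c)))) = M * (1 + L) * ∑ c, b c * _
    rw [Finset.mul_sum]
    exact Finset.sum_congr rfl fun c _ => by ring
  rw [h7]
  show _ = ∑ a, (M * (1 + L) * n a) * (M * (1 + L) * n a)
  have h8 : ∑ a, (M * (1 + L) * n a) * (M * (1 + L) * n a) = (M * (1 + L)) ^ 2 * ∑ a, n a * n a := by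
    rw [Finset.mul_sum]
    exact Finset.sum_congr rfl fun a _ => by ring
  rw [h8]
  show M * ((1 + L) ^ 2 * (M * ∑ a, n a * n a)) = _
  ring

end

end Pool.Agent.Helper37.DK2
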