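import Pool.Agent.Helper37.DK2.Def

/-! Non concentration of the tangents near hyperplanes, FINITE PART: a label which knows a functional `u` small on the
tangents, on an event `A`, gives a label of the space given `A`: a fresh copy of `u` given the tangents, and the cell of
the value of the functional at the point. Its leaks are small, its information is almost full. -/

set_option autoImplicit false

namespace Pool.Agent.Helper37.DK2

open Finset Filter Topology Matrix Pool.Agent.Helper69.RK Pool.Agent.Helper31.EC Pool.Agent.Helper31.EC.Sp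
open Pool.Agent.Helper40.EL Pool.Agent.Helper89.LX Pool.Agent.Helper3.LF Pool.Agent.Helper84.MT
open Pool.Agent.Helper49.MD Pool.Agent.Helper36.AM

noncomputable section

section fin

variable {T F : FSp} (p : FPj T F) (A : T.Ω → Prop) (B : Setoid F.Ω)

/-- the amalgam of an extension, given an event, and of the space, over a partition of the space -/
def fam : FAm (T.rest A) (FSp.im p A) where
  α := Quotient (B ⊓ F.Z)
  f := fun w => Quotient.mk (B ⊓ F.Z) (p.π w)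
  g := fun w => Quotient.mk (B ⊓ F.Z) w
  law := fun a => ms_push p.π (T.rest A).μ (fun w => Quotient.mk (B ⊓ F.Z) w) a
  Zr := Setoid.comap Quotient.out F.Z
  hZ1 := fun ω ω' h h' => by
    have h1 : (B ⊓ F.Z) (Quotient.mk (B ⊓ F.Z) (p.π ω)).out (p.π ω) := Quotient.mk_out _
    have h2 : (B ⊓ F.Z) (Quotient.mk (B ⊓ F.Z) (p.π ω')).out (p.π ω') := Quotient.mk_out _
    rw [show (T.rest A).Z ω ω' ↔ F.Z (p.π ω) (p.π ω') from p.hZ ω ω' (T.rest_supp A ω h).1 (T.rest_supp A ω' h').1]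
    exact ⟨fun h => F.Z.trans (F.Z.trans h1.2 h) (F.Z.symm h2.2), fun h => F.Z.trans (F.Z.trans (F.Z.symm h1.2) h) h2.2⟩
  hZ2 := fun ω ω' _ _ => by
    have h1 : (B ⊓ F.Z) (Quotient.mk (B ⊓ F.Z) ω).out ω := Quotient.mk_out ω
    have h2 : (B ⊓ F.Z) (Quotient.mk (B ⊓ F.Z) ω').out ω' := Quotient.mk_out ω'
    exact ⟨fun h => F.Z.trans (F.Z.trans h1.2 h) (F.Z.symm h2.2), fun h => F.Z.trans (F.Z.trans (F.Z.symm h1.2) h) h2.2⟩

theorem fam_supp (hA : T.pb A ≠ 0) (w : T.Ω × F.Ω) (hw : (fam p A B).sp.μ w ≠ 0) :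
    B (p.π w.1) w.2 ∧ F.Z (p.π w.1) w.2 ∧ T.μ w.1 ≠ 0 ∧ A w.1 ∧ (FSp.im p A).μ w.2 ≠ 0 := by
  obtain ⟨a, b, c⟩ := (fam p A B).supp w hw
  have a' : (B ⊓ F.Z) (p.π w.1) w.2 := Quotient.exact a
  exact ⟨a'.1, a'.2, (T.rest_supp A _ b).1, (T.rest_supp A _ b).2 hA, c⟩

variable {β : Type} (u : T.Ω → β)

/-- the copy of `u` -/
def cpu : FL (fam p A B).sp := fc (F := (fam p A B).sp) (Setoid.comap Prod.fst (Setoid.ker u))

/-- the state of the space -/
theorem fam_top : (fam p A B).p2.top = (fam p A B).p2.map (fc ⊥) := rfl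

/-- the copy of `u` knows about the state as much as `u` knows about `B` on the event -/
theorem cpu_info : I (cpu p A B u) (fam p A B).p2.top ⊥ ≤
    I (fc (F := T.rest A) (Setoid.ker u)) (fc (F := T.rest A) (Setoid.comap p.π B)) ⊥ := by
  have h0 : (fam p A B).p1.map (fc (Setoid.ker (fam p A B).f)) = (fam p A B).p2.map (fc (Setoid.ker (fam p A B).g)) :=
    (fam p A B).common
  set BB := (fam p A B).p1.map (fc (Setoid.ker (fam p A B).f)) with hBB
  have h1 : BB ≤ (fam p A B).p2.top := by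
    rw [h0]
    exact (fam p A B).p2.map_le_top _
  have h2 : I (cpu p A B u) (BB ⊔ (fam p A B).p2.top) ⊥ = I (cpu p A B u) BB ⊥ +
    I (cpu p A B u) (fam p A B).p2.top (BB ⊔ ⊥) := I_chain_right _ _ _ _
  rw [sup_eq_right.mpr h1, sup_bot_eq] at h2
  have h3 : I (cpu p A B u) (fam p A B).p2.top BB = 0 :=
    (fam p A B).indep (fc (F := T.rest A) (Setoid.ker u)) (fc (F := FSp.im p A) ⊥)
  have h4 : I (cpu p A B u) BB ⊥ = I (fc (F := T.rest A) (Setoid.ker u)) (fc (Setoid.ker (fam p A B).f)) ⊥ := by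
    have := (fam p A B).p1.I_map (fc (F := T.rest A) (Setoid.ker u)) (fc (Setoid.ker (fam p A B).f)) ⊥
    rw [FPj.map_bot] at this
    exact this
  rw [h2, h3, h4, add_zero]
  refine I_mono_right ?_
  rw [sup_bot_eq]
  apply fc_le
  intro ω ω' ha hb hZ hB
  have hZ' : F.Z (p.π ω) (p.π ω') := (p.hZ ω ω' (T.rest_supp A ω ha).1 (T.rest_supp A ω' hb).1).mp hZ
  show (fam p A B).f ω = (fam p A B).f ω'
  exact Quotient.sound ⟨hB, hZ'⟩

/-- the same from a label of the space: `u` is a function of the label and of the condition `C` -/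
theorem cpu_le (l : FLab F) (A : l.T.Ω → Prop) (B C : Setoid F.Ω) (u : l.T.Ω → β)
    (hu : ∀ w w', l.T.μ w ≠ 0 → l.T.μ w' ≠ 0 → l.T.Z w w' → l.V w w' → C (l.p.π w) (l.p.π w') → u w = u w') :
    l.T.pb A * I (cpu l.p A B u) (fam l.p A B).p2.top ⊥ ≤ l.leak (fc C) + I (fc B : FL F) (fc C) ⊥ + 1 := by
  have h1 := mul_le_mul_of_nonneg_left (cpu_info l.p A B u) (l.T.pb_nonneg A)
  refine h1.trans ?_
  have h2 : l.T.pb A * I (fc (F := l.T.rest A) (Setoid.ker u)) (fc (F := l.T.rest A) (Setoid.comap l.p.π B)) ⊥ ≤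
      I (fc (Setoid.ker u) : FL l.T) (fc (Setoid.comap l.p.π B)) ⊥ + 1 :=
    l.T.rmap_I_le A (fc (Setoid.ker u)) (fc (Setoid.comap l.p.π B)) ⊥
  refine h2.trans ?_
  have h3 : (fc (Setoid.ker u) : FL l.T) ≤ l.v ⊔ l.p.map (fc C) := by
    show fc (Setoid.ker u) ≤ fc (l.V ⊓ Setoid.comap l.p.π C)
    apply fc_le
    intro w w' a b c d
    exact hu w w' a b c d.1 d.2
  have h4 : I (fc (Setoid.ker u)) (l.p.map (fc B)) ⊥ ≤ I (l.p.map (fc C) ⊔ l.v) (l.p.map (fc B)) ⊥ := by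
    refine I_mono_left ?_
    rw [sup_bot_eq, sup_comm (l.p.map (fc C))]
    exact h3
  rw [I_chain, sup_bot_eq] at h4
  have h5 : I (l.p.map (fc C)) (l.p.map (fc B)) ⊥ = I (fc B : FL F) (fc C) ⊥ := by
    rw [I_comm]
    have := l.p.I_map (fc B) (fc C) ⊥
    rw [FPj.map_bot] at this
    exact this
  have h6 : I l.v (l.p.map (fc B)) (l.p.map (fc C)) ≤ l.leak (fc C) :=
    I_mono_right ((l.p.map_le_top _).trans le_sup_left)
  have h7 : (fc (Setoid.comap l.p.π B) : FL l.T) = l.p.map (fc B) := rfl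
  rw [h7]
  linarith

/-- THE LABEL: the copy of `u` and an integer -/
def flb (hn : T.n = F.n) (c : (fam p A B).sp.Ω → ℤ) : FLab (FSp.im p A) where
  T := (fam p A B).sp
  p := (fam p A B).p2
  hn := hn
  V := Setoid.comap Prod.fst (Setoid.ker u) ⊓ Setoid.ker c

variable {u}

/-- an integer variable which varies at most by `K` on the atoms of the condition -/
theorem h_int1 {F : FSp} (c : F.Ω → ℤ) (B : Setoid F.Ω) {K : ℝ} (hK : 0 ≤ K)
    (hc : ∀ ω ω', F.μ ω ≠ 0 → F.μ ω' ≠ 0 → F.Z ω ω' → B ω ω' → |(c ω : ℝ) - c ω'| ≤ K) :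
    h (fc (Setoid.ker c) : FL F) (fc B) ≤ Real.logb 2 (K + 1) := by
  rw [h_fc]
  have h1 := F.e_int_le (fun ω (_ : Fin 1) => c ω) (B ⊓ F.Z) K hK fun ω ω' a b d _ => hc ω ω' a b d.2 d.1
  have h2 : F.e (Setoid.ker c) (B ⊓ F.Z) ≤ F.e (Setoid.ker fun ω (_ : Fin 1) => c ω) (B ⊓ F.Z) := by
    apply F.e_mono
    intro ω ω' _ _ d _
    exact congrFun d 0
  rw [Nat.cast_one, one_mul] at h1
  exact h2.trans h1

/-- LEAKS of the label -/
theorem flb_leak (hA : T.pb A ≠ 0) (hn : T.n = F.n) (c : (fam p A B).sp.Ω → ℤ) (C : Setoid F.Ω) {K : ℝ} (hK : 0 ≤ K)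
    (hc : ∀ w w' : (fam p A B).sp.Ω, (fam p A B).sp.μ w ≠ 0 → (fam p A B).sp.μ w' ≠ 0 → u w.1 = u w'.1 →
      F.Z w.2 w'.2 → C w.2 w'.2 → |(c w : ℝ) - c w'| ≤ K) :
    (flb p A B u hn c).leak (fc (F := FSp.im p A) C) ≤ I (cpu p A B u) (fam p A B).p2.top ⊥ + Real.logb 2 (K + 1) := by
  set U := cpu p A B u with hU
  set cc : FL (fam p A B).sp := fc (Setoid.ker c) with hcc
  set CC := (fam p A B).p2.map (fc (F := FSp.im p A) C) with hCC
  have e1 : (flb p A B u hn c).leak (fc (F := FSp.im p A) C) = I U (fam p A B).p2.top CC +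
      I cc (fam p A B).p2.top (U ⊔ CC) := I_chain U cc (fam p A B).p2.top CC
  rw [e1]
  have h1 : I U (fam p A B).p2.top CC ≤ I U (fam p A B).p2.top ⊥ :=
    leak_cond bot_le ((fam p A B).p2.map_le_top _)
  have h2 : I cc (fam p A B).p2.top (U ⊔ CC) ≤ h cc (U ⊔ CC) := I_le_h_left _ _ _
  have h4 : h cc (U ⊔ CC) ≤ Real.logb 2 (K + 1) :=
    h_int1 (F := (fam p A B).sp) c (Setoid.comap Prod.fst (Setoid.ker u) ⊓ Setoid.comap Prod.snd C) hK
    (fun w w' a b hZ hC => by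
      refine hc w w' a b hC.1 ?_ hC.2
      have hZ' : F.Z (p.π w.1) (p.π w'.1) := (p.hZ _ _ (fam_supp p A B hA w a).2.2.1 (fam_supp p A B hA w' b).2.2.1).mp hZ
      exact F.Z.trans (F.Z.symm (fam_supp p A B hA w a).2.1) (F.Z.trans hZ' (fam_supp p A B hA w' b).2.1))
  linarith [h2.trans h4]

/-- INFORMATION of the label -/
theorem flb_info (hn : T.n = F.n) (c : (fam p A B).sp.Ω → ℤ) (R : Setoid F.Ω)
    (hc : ∀ w w' : (fam p A B).sp.Ω, (fam p A B).sp.μ w ≠ 0 → (fam p A B).sp.μ w' ≠ 0 → u w.1 = u w'.1 →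
      w.2 = w'.2 → c w = c w') :
    H (fc (F := FSp.im p A) R) - h ((fam p A B).p2.map (fc (F := FSp.im p A) R))
      (cpu p A B u ⊔ fc (F := (fam p A B).sp) (Setoid.ker c)) - I (cpu p A B u) (fam p A B).p2.top ⊥ ≤
      (flb p A B u hn c).info := by
  set U := cpu p A B u with hU
  set cc : FL (fam p A B).sp := fc (Setoid.ker c) with hcc
  set top := (fam p A B).p2.top with htop
  set RR := (fam p A B).p2.map (fc (F := FSp.im p A) R) with hRR
  have e1 : (flb p A B u hn c).info = I U top ⊥ + I cc top (U ⊔ ⊥) := I_chain U cc top ⊥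
  rw [e1, sup_bot_eq]
  have h1 : I cc top U = h cc U := by
    rw [I_eq]
    have h2 : h cc (top ⊔ U) = 0 := by
      apply h_zero
      have h3 : cc ≤ fc (F := (fam p A B).sp) (Setoid.ker Prod.snd ⊓ Setoid.comap Prod.fst (Setoid.ker u)) := by
        apply fc_le
        intro w w' a b _ d
        exact hc w w' a b d.2 d.1
      exact h3
    rw [h2, sub_zero]
  have h3 : H RR = H (fc (F := FSp.im p A) R) := (fam p A B).p2.H_map _
  have h4 : I U RR ⊥ ≤ I U top ⊥ := I_mono_right (((fam p A B).p2.map_le_top _).trans le_sup_left)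
  have h5 : I U RR ⊥ = H RR - h RR U := by
    rw [I_eq', h_bot, sup_bot_eq]
  have h6 : h RR U ≤ h RR (U ⊔ cc) + h cc U := by
    have := h_triangle RR cc U
    rwa [sup_comm cc U] at this
  have h7 := I_nonneg U top ⊥
  rw [h1]
  linarith

end fin

end

end Pool.Agent.Helper37.DK2
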