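import Pool.Agent.Helper37.DK2.Fq

/-! Non concentration of the tangents near hyperplanes, FINITE PART, 2: the label of a system of leaves. -/

set_option autoImplicit false

namespace Pool.Agent.Helper37.DK2

open Finset Filter Topology Matrix Pool.Agent.Helper69.RK Pool.Agent.Helper31.EC Pool.Agent.Helper31.EC.Sp
open Pool.Agent.Helper40.EL Pool.Agent.Helper89.LX Pool.Agent.Helper3.LF Pool.Agent.Helper84.MT
open Pool.Agent.Helper49.MD Pool.Agent.Helper36.AM

noncomputable section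

/-! ### numbers -/

theorem floor_near {a b d : ℝ} (hd : 0 < d) (hab : ⌊a / d⌋ = ⌊b / d⌋) : |a - b| ≤ d := by
  have h1 := Int.floor_le (a / d)
  have h2 := Int.lt_floor_add_one (a / d)
  have h3 := Int.floor_le (b / d)
  have h4 := Int.lt_floor_add_one (b / d)
  rw [hab] at h1 h2
  have h5 : |a / d - b / d| ≤ 1 := by
    rw [abs_le]
    constructor <;> linarith
  rw [← sub_div, abs_div, abs_of_pos hd, div_le_one hd] at h5
  exact h5

theorem floor_diff {a b d : ℝ} (hd : 0 < d) : |((⌊a / d⌋ : ℤ) : ℝ) - ⌊b / d⌋| ≤ |a - b| / d + 1 := by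
  have h1 := Int.floor_le (a / d)
  have h2 := Int.lt_floor_add_one (a / d)
  have h3 := Int.floor_le (b / d)
  have h4 := Int.lt_floor_add_one (b / d)
  have h5 : |a - b| / d = |a / d - b / d| := by
    rw [← sub_div, abs_div, abs_of_pos hd]
  rw [h5, abs_le]
  constructor
  · have := neg_abs_le (a / d - b / d)
    linarith
  · have := le_abs_self (a / d - b / d)
    linarith

/-- a unit vector has a large entry -/
theorem exists_big {m : ℕ} (u : Fin m → ℝ) (hu : ∑ j, u j ^ 2 = 1) : ∃ j, 1 ≤ (m : ℝ) * |u j| := by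
  by_contra hc
  push Not at hc
  have hm : (0 : ℝ) < m := by
    rcases Nat.eq_zero_or_pos m with h0 | h0
    · subst h0
      simp at hu
    · exact_mod_cast h0
  have h1 : ∑ j, u j ^ 2 < ∑ _j : Fin m, 1 / (m : ℝ) := by
    have hne : (univ : Finset (Fin m)).Nonempty := ⟨⟨0, by exact_mod_cast hm⟩, Finset.mem_univ _⟩
    apply Finset.sum_lt_sum_of_nonempty hne
    intro j _
    have h2 := hc j
    have h3 : |u j| < 1 / m := by
      rw [lt_div_iff₀ hm]
      linarith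
    have h4 : (1 : ℝ) / m ≤ 1 := by
      rw [div_le_one hm]
      have : 0 < m := by exact_mod_cast hm
      exact_mod_cast this
    have h5 := abs_nonneg (u j)
    rw [← sq_abs]
    nlinarith
  rw [hu, Finset.sum_const, Finset.card_univ, Fintype.card_fin, nsmul_eq_mul, mul_one_div_cancel hm.ne'] at h1
  exact lt_irrefl _ h1

theorem abs_le_one_of {m : ℕ} (u : Fin m → ℝ) (hu : ∑ j, u j ^ 2 = 1) (j : Fin m) : |u j| ≤ 1 := by
  have h1 : u j ^ 2 ≤ ∑ j, u j ^ 2 := Finset.single_le_sum (f := fun j => u j ^ 2) (fun j _ => sq_nonneg _) (Finset.mem_univ j)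
  rw [hu, ← sq_abs] at h1
  have := abs_nonneg (u j)
  nlinarith

theorem abs_dot_le {m : ℕ} (u v : Fin m → ℝ) {d : ℝ} (hd : 0 ≤ d) (hu : ∀ j, |u j| ≤ 1)
    (hv : ∀ j, u j ≠ 0 → |v j| ≤ d) : |∑ j, u j * v j| ≤ m * d := by
  refine (Finset.abs_sum_le_sum_abs _ _).trans ?_
  have h1 : ∑ j, |u j * v j| ≤ ∑ _j : Fin m, d := by
    refine Finset.sum_le_sum fun j _ => ?_
    rw [abs_mul]
    by_cases hj : u j = 0
    · rw [hj, abs_zero, zero_mul]
      exact hd
    · have h2 := hv j hj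
      have h3 := abs_nonneg (v j)
      calc |u j| * |v j| ≤ 1 * |v j| := mul_le_mul_of_nonneg_right (hu j) h3
        _ ≤ d := by rw [one_mul]; exact h2
  refine h1.trans (le_of_eq ?_)
  rw [Finset.sum_const, Finset.card_univ, Fintype.card_fin, nsmul_eq_mul]

theorem h_intv {F : FSp} {m : ℕ} (c : F.Ω → Fin m → ℤ) (B : Setoid F.Ω) {K : ℝ} (hK : 0 ≤ K)
    (hc : ∀ ω ω', F.μ ω ≠ 0 → F.μ ω' ≠ 0 → F.Z ω ω' → B ω ω' → ∀ i, |(c ω i : ℝ) - c ω' i| ≤ K) :
    h (fc (Setoid.ker c) : FL F) (fc B) ≤ m * Real.logb 2 (K + 1) := by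
  rw [h_fc]
  exact F.e_int_le c (B ⊓ F.Z) K hK fun ω ω' a b d => hc ω ω' a b d.2 d.1

theorem dlF_pos (F : FSp) (r : ℝ) : 0 < dlF F r := Real.rpow_pos_of_pos (by norm_num) _

theorem dlF_anti (F : FSp) {r r' : ℝ} (hr : r ≤ r') : dlF F r' ≤ dlF F r := by
  unfold dlF
  apply Real.rpow_le_rpow_of_exponent_le (by norm_num)
  have := mul_le_mul_of_nonneg_right hr F.pos.le
  linarith

theorem dlF_zero (F : FSp) : dlF F 0 = 1 := by
  unfold dlF
  rw [zero_mul, neg_zero, Real.rpow_zero]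

theorem dlF_le_one (F : FSp) {r : ℝ} (hr : 0 ≤ r) : dlF F r ≤ 1 := by
  rw [← dlF_zero F]
  exact dlF_anti F hr

/-! ### the label -/

section core

variable {F : FSp} {M m : ℕ} {ι : Type} (x : FMs F.Ω M ι) (J : Finset (Fin M)) (φ : Fin (m + 1) → Fin M) (l : FLab F)
  (A : l.T.Ω → Prop) (u : l.T.Ω → Fin M → ℝ) (K : ℝ) (e : ℝ) (E0 : ℕ)

/-- standing hypotheses: `u` is a unit functional of the coordinates `J`, known to the label and the point, small on the
tangents on the event `A`; along the types the coordinates `J` are affine -/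
structure NHyp : Prop where
  K1 : 1 ≤ K
  e0 : 0 < e
  e1 : e ≤ 1
  Q : ∀ ω, F.μ ω ≠ 0 → ∀ j, |x.Q ω j| ≤ K
  Y : ∀ ω, F.μ ω ≠ 0 → ∀ i a, |(x.lf i).Y ω a| ≤ K
  dim : ∀ i, (x.lf i).e ≤ E0
  fn : ∀ ω ω', F.μ ω ≠ 0 → F.μ ω' ≠ 0 → F.Z ω ω' → ∀ i, (x.lf i).La ω ω' → (x.lf i).F ω = (x.lf i).F ω'
  pt : ∀ ω, F.μ ω ≠ 0 → ∀ i j, |x.Q ω j - (x.lf i).F ω ((x.lf i).Y ω) j| ≤ K * dlF F 1
  af : ∀ ω, F.μ ω ≠ 0 → ∀ i, ∀ j ∈ J, ∀ y y' : Fin (x.lf i).e → ℝ, (x.lf i).F ω y j - (x.lf i).F ω y' j =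
    ∑ a, (y a - y' a) * mtan x ω ⟨i, a⟩ j
  fnu : ∀ w w', l.T.μ w ≠ 0 → l.T.μ w' ≠ 0 → l.T.Z w w' → l.V w w' → cQ1 F x (l.p.π w) (l.p.π w') → u w = u w'
  nu : ∀ w, l.T.μ w ≠ 0 → ∑ j, u w j ^ 2 = 1
  Ju : ∀ w j, j ∉ J → u w j = 0
  rg : ∀ j ∈ J, ∃ i, φ i = j
  pA : l.T.pb A ≠ 0
  ta : ∀ w, l.T.μ w ≠ 0 → A w → ∀ a, |∑ j, u w j * mtan x (l.p.π w) a j| ≤ dlF F e

variable {x J φ l A u K e E0}

/-- the cell of the value of the functional at the point -/
def cval (x : FMs F.Ω M ι) (l : FLab F) (u : l.T.Ω → Fin M → ℝ) (e : ℝ) : l.T.Ω × F.Ω → ℤ :=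
  fun w => ⌊(∑ j, u w.1 j * x.Q w.2 j) / dlF F e⌋

/-- the partition which is full: the cells of the coordinates `φ` -/
def Rst (x : FMs F.Ω M ι) (φ : Fin (m + 1) → Fin M) (e : ℝ) : Setoid F.Ω :=
  Setoid.ker fun ω (i : Fin (m + 1)) => cell (dlF F e) (x.Q ω) (φ i)

open Classical in
/-- the place of a large entry -/
def bigj (φ : Fin (m + 1) → Fin M) (v : Fin M → ℝ) : Fin (m + 1) :=
  if hex : ∃ i, 1 ≤ (M : ℝ) * |v (φ i)| then hex.choose else 0

/-- the constant of the leaks -/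
def ncK (M E0 : ℕ) (K : ℝ) : ℝ := (E0 * (2 * K * (M + 1)) + M * (2 * K)) + 1

theorem ncK_nonneg (M E0 : ℕ) {K : ℝ} (hK : 0 ≤ K) : 0 ≤ ncK M E0 K := by
  unfold ncK
  positivity

namespace NHyp

variable (N : NHyp x J φ l A u K e E0)
include N

theorem sp (w : l.T.Ω × F.Ω) (hw : (fam l.p A (tcell F x J)).sp.μ w ≠ 0) : tcell F x J (l.p.π w.1) w.2 ∧
    F.μ (l.p.π w.1) ≠ 0 ∧ l.T.μ w.1 ≠ 0 ∧ A w.1 ∧ F.μ w.2 ≠ 0 := by
  obtain ⟨a, _, c, d, f⟩ := fam_supp l.p A (tcell F x J) N.pA w hw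
  exact ⟨a, l.p.supp _ c, c, d, FSp.im_supp l.p A _ f⟩

omit N in
/-- the values at two points -/
theorem cval_le {w w' : l.T.Ω × F.Ω} {r : ℝ} (hu : u w.1 = u w'.1)
    (hr : |∑ j, u w.1 j * (x.Q w.2 j - x.Q w'.2 j)| ≤ r * dlF F e) :
    |(cval x l u e w : ℝ) - cval x l u e w'| ≤ r + 1 := by
  have h1 := floor_diff (a := ∑ j, u w.1 j * x.Q w.2 j) (b := ∑ j, u w'.1 j * x.Q w'.2 j) (dlF_pos F e)
  refine h1.trans (add_le_add ?_ le_rfl)
  rw [div_le_iff₀ (dlF_pos F e)]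
  refine le_trans (le_of_eq ?_) hr
  congr 1
  rw [← hu, ← Finset.sum_sub_distrib]
  exact Finset.sum_congr rfl fun j _ => by ring

/-- at the point -/
theorem cpt {w w' : l.T.Ω × F.Ω} (hw : (fam l.p A (tcell F x J)).sp.μ w ≠ 0) (hu : u w.1 = u w'.1)
    (hQ : cell (dlF F e) (x.Q w.2) = cell (dlF F e) (x.Q w'.2)) :
    |(cval x l u e w : ℝ) - cval x l u e w'| ≤ M + 1 := by
  refine cval_le hu ?_
  refine abs_dot_le _ _ (dlF_pos F e).le (abs_le_one_of _ (N.nu _ (N.sp w hw).2.2.1)) fun j _ => ?_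
  exact floor_near (dlF_pos F e) (congrFun hQ j)

/-- the tangents of the copy -/
theorem tan {w : l.T.Ω × F.Ω} (hw : (fam l.p A (tcell F x J)).sp.μ w ≠ 0) (a : Σ i, Fin (x.lf i).e) :
    |∑ j, u w.1 j * mtan x w.2 a j| ≤ (M + 1) * dlF F e := by
  obtain ⟨h1, h2, h3, h4, h5⟩ := N.sp w hw
  have h6 := N.ta w.1 h3 h4 a
  have h7 : |∑ j, u w.1 j * (mtan x w.2 a j - mtan x (l.p.π w.1) a j)| ≤ M * dlF F 1 := by
    refine abs_dot_le _ _ (dlF_pos F 1).le (abs_le_one_of _ (N.nu _ h3)) fun j hj => ?_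
    have hJ : j ∈ J := by
      by_contra hc
      exact hj (N.Ju _ _ hc)
    rw [abs_sub_comm]
    exact floor_near (dlF_pos F 1) (congrFun (congrFun h1 a) ⟨j, hJ⟩)
  have h8 : ∑ j, u w.1 j * mtan x w.2 a j = ∑ j, u w.1 j * mtan x (l.p.π w.1) a j +
      ∑ j, u w.1 j * (mtan x w.2 a j - mtan x (l.p.π w.1) a j) := by
    rw [← Finset.sum_add_distrib]
    exact Finset.sum_congr rfl fun j _ => by ring
  rw [h8]
  refine (abs_add_le _ _).trans ?_
  have h9 := mul_le_mul_of_nonneg_left (dlF_anti F N.e1) (Nat.cast_nonneg M : (0 : ℝ) ≤ (M : ℝ))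
  linarith

/-- along the types -/
theorem cwin {w w' : l.T.Ω × F.Ω} (hw : (fam l.p A (tcell F x J)).sp.μ w ≠ 0)
    (hw' : (fam l.p A (tcell F x J)).sp.μ w' ≠ 0) (hu : u w.1 = u w'.1) (i : ι) (hZ : F.Z w.2 w'.2)
    (hL : (x.lf i).La w.2 w'.2) : |(cval x l u e w : ℝ) - cval x l u e w'| ≤ ncK M E0 K := by
  obtain ⟨-, -, h3, -, h5⟩ := N.sp w hw
  obtain ⟨-, -, -, -, h5'⟩ := N.sp w' hw'
  have hK0 : 0 ≤ K := zero_le_one.trans N.K1
  refine cval_le hu ?_
  have h6 := N.fn w.2 w'.2 h5 h5' hZ i hL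
  have hu1 := abs_le_one_of _ (N.nu _ h3)
  -- the parts
  have h7 : ∑ j, u w.1 j * (x.Q w.2 j - x.Q w'.2 j) =
      ∑ a, ((x.lf i).Y w.2 a - (x.lf i).Y w'.2 a) * ∑ j, u w.1 j * mtan x w.2 ⟨i, a⟩ j +
      ∑ j, u w.1 j * ((x.Q w.2 j - (x.lf i).F w.2 ((x.lf i).Y w.2) j) -
        (x.Q w'.2 j - (x.lf i).F w'.2 ((x.lf i).Y w'.2) j)) := by
    have e1 : ∑ a, ((x.lf i).Y w.2 a - (x.lf i).Y w'.2 a) * ∑ j, u w.1 j * mtan x w.2 ⟨i, a⟩ j =
        ∑ j, u w.1 j * ∑ a, ((x.lf i).Y w.2 a - (x.lf i).Y w'.2 a) * mtan x w.2 ⟨i, a⟩ j := by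
      simp_rw [Finset.mul_sum]
      rw [Finset.sum_comm]
      exact Finset.sum_congr rfl fun j _ => Finset.sum_congr rfl fun a _ => by ring
    rw [e1, ← Finset.sum_add_distrib]
    refine Finset.sum_congr rfl fun j _ => ?_
    by_cases hJ : j ∈ J
    · rw [← N.af w.2 h5 i j hJ, ← h6]
      ring
    · rw [N.Ju _ _ hJ]
      ring
  rw [h7]
  refine (abs_add_le _ _).trans ?_
  have h8 : |∑ a, ((x.lf i).Y w.2 a - (x.lf i).Y w'.2 a) * ∑ j, u w.1 j * mtan x w.2 ⟨i, a⟩ j| ≤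
      E0 * (2 * K * (M + 1)) * dlF F e := by
    refine (Finset.abs_sum_le_sum_abs _ _).trans ?_
    have h9 : ∑ a, |((x.lf i).Y w.2 a - (x.lf i).Y w'.2 a) * ∑ j, u w.1 j * mtan x w.2 ⟨i, a⟩ j| ≤
        ∑ _a : Fin (x.lf i).e, 2 * K * ((M + 1) * dlF F e) := by
      refine Finset.sum_le_sum fun a _ => ?_
      rw [abs_mul]
      refine mul_le_mul ?_ (N.tan hw ⟨i, a⟩) (abs_nonneg _) (by linarith)
      have a1 := abs_le.mp (N.Y _ h5 i a)
      have a2 := abs_le.mp (N.Y _ h5' i a)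
      rw [abs_le]
      constructor <;> linarith
    refine h9.trans ?_
    rw [Finset.sum_const, Finset.card_univ, Fintype.card_fin, nsmul_eq_mul]
    have h10 : ((x.lf i).e : ℝ) ≤ E0 := by exact_mod_cast N.dim i
    have h11 : 0 ≤ 2 * K * ((M + 1) * dlF F e) := by
      have := (dlF_pos F e).le
      positivity
    calc ((x.lf i).e : ℝ) * (2 * K * ((M + 1) * dlF F e)) ≤ E0 * (2 * K * ((M + 1) * dlF F e)) :=
          mul_le_mul_of_nonneg_right h10 h11
      _ = _ := by ring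
  have h12 : |∑ j, u w.1 j * ((x.Q w.2 j - (x.lf i).F w.2 ((x.lf i).Y w.2) j) -
        (x.Q w'.2 j - (x.lf i).F w'.2 ((x.lf i).Y w'.2) j))| ≤ M * (2 * K * dlF F 1) := by
    refine abs_dot_le _ _ (by have := (dlF_pos F 1).le; positivity) hu1 fun j _ => ?_
    have a1 := abs_le.mp (N.pt _ h5 i j)
    have a2 := abs_le.mp (N.pt _ h5' i j)
    rw [abs_le]
    constructor <;> linarith
  have h13 : M * (2 * K * dlF F 1) ≤ M * (2 * K) * dlF F e := by
    have := mul_le_mul_of_nonneg_left (dlF_anti F N.e1) (show (0 : ℝ) ≤ M * (2 * K) by positivity)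
    linarith
  linarith

/-- the large entry -/
theorem big {w : l.T.Ω} (hw : l.T.μ w ≠ 0) : 1 ≤ (M : ℝ) * |u w (φ (bigj φ (u w)))| := by
  obtain ⟨j, hj⟩ := exists_big (u w) (N.nu w hw)
  have hJ : j ∈ J := by
    by_contra hc
    rw [N.Ju w j hc, abs_zero, mul_zero] at hj
    norm_num at hj
  obtain ⟨i, rfl⟩ := N.rg j hJ
  have hex : ∃ i, 1 ≤ (M : ℝ) * |u w (φ i)| := ⟨i, hj⟩
  unfold bigj
  rw [dif_pos hex]
  exact hex.choose_spec

/-- COUNT: the cells of the point, given the copy of the functional and the cell of its value -/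
theorem cnt : h ((fam l.p A (tcell F x J)).p2.map (fc (F := FSp.im l.p A) (Rst x φ e)))
      (cpu l.p A (tcell F x J) u ⊔ fc (F := (fam l.p A (tcell F x J)).sp) (Setoid.ker (cval x l u e))) ≤
    m * Real.logb 2 (5 * K / dlF F e) + (m + 1 : ℕ) * Real.logb 2 (M * (M + 1) + 2) := by
  set D := fam l.p A (tcell F x J) with hD
  set U := cpu l.p A (tcell F x J) u with hU
  set cc : FL D.sp := fc (F := D.sp) (Setoid.ker (cval x l u e)) with hcc
  set X : FL D.sp := fc (F := D.sp) (Setoid.ker fun (w : l.T.Ω × F.Ω) (i : Fin m) =>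
    cell (dlF F e) (x.Q w.2) (φ ((bigj φ (u w.1)).succAbove i))) with hX
  have hK0 : 0 ≤ K := zero_le_one.trans N.K1
  have hd := dlF_pos F e
  have e0 : D.p2.map (fc (F := FSp.im l.p A) (Rst x φ e)) = fc (F := D.sp) (Setoid.ker fun (w : l.T.Ω × F.Ω)
      (i : Fin (m + 1)) => cell (dlF F e) (x.Q w.2) (φ i)) := rfl
  rw [e0]
  have h2 := h_triangle (fc (F := D.sp) (Setoid.ker fun (w : l.T.Ω × F.Ω)
      (i : Fin (m + 1)) => cell (dlF F e) (x.Q w.2) (φ i))) X (U ⊔ cc)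
  refine h2.trans ?_
  rw [add_comm]
  refine add_le_add ?_ ?_
  · -- all coordinates but one
    have h3 := h_intv (F := D.sp) (fun (w : l.T.Ω × F.Ω) (i : Fin m) =>
      cell (dlF F e) (x.Q w.2) (φ ((bigj φ (u w.1)).succAbove i)))
      (Setoid.comap Prod.fst (Setoid.ker u) ⊓ Setoid.ker (cval x l u e)) (K := 2 * K / dlF F e + 1)
      (by positivity) (fun w w' a b _ d i => by
        have hb : bigj φ (u w.1) = bigj φ (u w'.1) := congrArg (bigj φ) d.1
        show |((⌊x.Q w.2 _ / dlF F e⌋ : ℤ) : ℝ) - ⌊x.Q w'.2 _ / dlF F e⌋| ≤ _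
        rw [← hb]
        refine (floor_diff hd).trans (add_le_add (div_le_div_of_nonneg_right ?_ hd.le) le_rfl)
        have a1 := abs_le.mp (N.Q _ (N.sp w a).2.2.2.2 (φ ((bigj φ (u w.1)).succAbove i)))
        have a2 := abs_le.mp (N.Q _ (N.sp w' b).2.2.2.2 (φ ((bigj φ (u w.1)).succAbove i)))
        rw [abs_le]
        constructor <;> linarith)
    refine h3.trans (mul_le_mul_of_nonneg_left ?_ (Nat.cast_nonneg _))
    apply Real.logb_le_logb_of_le (by norm_num) (by positivity)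
    have h4 : 1 ≤ K / dlF F e := by
      rw [le_div_iff₀ hd, one_mul]
      exact (dlF_le_one F N.e0.le).trans N.K1
    have h5 : 2 * K / dlF F e = 2 * (K / dlF F e) := by ring
    have h6 : 5 * K / dlF F e = 5 * (K / dlF F e) := by ring
    rw [h5, h6]
    linarith
  · -- the last one
    have h3 := h_intv (F := D.sp) (fun (w : l.T.Ω × F.Ω) (i : Fin (m + 1)) => cell (dlF F e) (x.Q w.2) (φ i))
      (Setoid.ker (fun (w : l.T.Ω × F.Ω) (i : Fin m) =>
        cell (dlF F e) (x.Q w.2) (φ ((bigj φ (u w.1)).succAbove i))) ⊓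
        (Setoid.comap Prod.fst (Setoid.ker u) ⊓ Setoid.ker (cval x l u e)))
      (K := M * (M + 1) + 1) (by positivity) (fun w w' a b _ d i => by
        have hu : u w.1 = u w'.1 := d.2.1
        have hb : bigj φ (u w.1) = bigj φ (u w'.1) := congrArg (bigj φ) hu
        have hc : cval x l u e w = cval x l u e w' := d.2.2
        have hX : ∀ i : Fin m, ⌊x.Q w.2 (φ ((bigj φ (u w.1)).succAbove i)) / dlF F e⌋ =
            ⌊x.Q w'.2 (φ ((bigj φ (u w.1)).succAbove i)) / dlF F e⌋ := by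
          intro i
          have := congrFun d.1 i
          simp only [← hb] at this
          exact this
        have hn := N.nu _ (N.sp w a).2.2.1
        have hu1 := abs_le_one_of _ hn
        by_cases hi : i = bigj φ (u w.1)
        · subst hi
          refine (floor_diff hd).trans (add_le_add ?_ le_rfl)
          rw [div_le_iff₀ hd]
          have hbig := N.big (N.sp w a).2.2.1
          set j₀ := φ (bigj φ (u w.1)) with hj₀
          -- the value of the functional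
          have h4 : |∑ j, u w.1 j * (x.Q w.2 j - x.Q w'.2 j)| ≤ dlF F e := by
            have h5 : ∑ j, u w.1 j * (x.Q w.2 j - x.Q w'.2 j) =
                ∑ j, u w.1 j * x.Q w.2 j - ∑ j, u w'.1 j * x.Q w'.2 j := by
              rw [← hu, ← Finset.sum_sub_distrib]
              exact Finset.sum_congr rfl fun j _ => by ring
            rw [h5]
            exact floor_near hd hc
          have h6 : |∑ j, (if j = j₀ then 0 else u w.1 j) * (x.Q w.2 j - x.Q w'.2 j)| ≤ M * dlF F e := by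
            refine abs_dot_le _ _ hd.le (fun j => ?_) fun j hj => ?_
            · by_cases hc : j = j₀
              · rw [if_pos hc, abs_zero]
                exact zero_le_one
              · rw [if_neg hc]
                exact hu1 j
            · by_cases hc : j = j₀
              · rw [if_pos hc] at hj
                exact absurd rfl hj
              · rw [if_neg hc] at hj
                have hJ : j ∈ J := by
                  by_contra hc
                  exact hj (N.Ju _ _ hc)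
                obtain ⟨i, rfl⟩ := N.rg j hJ
                have hne : i ≠ bigj φ (u w.1) := fun h0 => hc (by rw [hj₀, h0])
                obtain ⟨i', hi'⟩ := Fin.exists_succAbove_eq hne
                have := hX i'
                rw [hi'] at this
                exact floor_near hd this
          have h7 : u w.1 j₀ * (x.Q w.2 j₀ - x.Q w'.2 j₀) =
              ∑ j, u w.1 j * (x.Q w.2 j - x.Q w'.2 j) -
              ∑ j, (if j = j₀ then 0 else u w.1 j) * (x.Q w.2 j - x.Q w'.2 j) := by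
            rw [← Finset.sum_sub_distrib, Finset.sum_eq_single j₀]
            · rw [if_pos rfl]
              ring
            · intro j _ hj
              rw [if_neg hj]
              ring
            · intro hc
              exact absurd (Finset.mem_univ _) hc
          have h8 : |u w.1 j₀| * |x.Q w.2 j₀ - x.Q w'.2 j₀| ≤ (M + 1) * dlF F e := by
            rw [← abs_mul, h7]
            refine (abs_sub _ _).trans ?_
            linarith
          have h9 := abs_nonneg (x.Q w.2 j₀ - x.Q w'.2 j₀)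
          calc |x.Q w.2 j₀ - x.Q w'.2 j₀| ≤ ((M : ℝ) * |u w.1 j₀|) * |x.Q w.2 j₀ - x.Q w'.2 j₀| :=
                le_mul_of_one_le_left h9 hbig
            _ = (M : ℝ) * (|u w.1 j₀| * |x.Q w.2 j₀ - x.Q w'.2 j₀|) := by ring
            _ ≤ (M : ℝ) * ((M + 1) * dlF F e) := mul_le_mul_of_nonneg_left h8 (Nat.cast_nonneg _)
            _ = _ := by ring
        · obtain ⟨i', hi'⟩ := Fin.exists_succAbove_eq hi
          have := hX i'
          rw [hi'] at this
          show |((⌊x.Q w.2 _ / dlF F e⌋ : ℤ) : ℝ) - ⌊x.Q w'.2 _ / dlF F e⌋| ≤ _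
          rw [this, sub_self, abs_zero]
          positivity)
    refine h3.trans (le_of_eq ?_)
    congr 2
    ring

/-- SUMMARY: the label of the space given `A` -/
theorem fin_label : ∃ (W : FLab (FSp.im l.p A)) (I0 : ℝ),
    l.T.pb A * I0 ≤ l.leak (fc (cQ1 F x)) + I (fc (tcell F x J) : FL F) (fc (cQ1 F x)) ⊥ + 1 ∧
    W.leak (fc (F := FSp.im l.p A) (Setoid.ker fun ω => cell (dlF F e) (x.Q ω))) ≤
      I0 + Real.logb 2 (ncK M E0 K + 1) ∧
    (∀ i (C : Setoid F.Ω), C ≤ (x.lf i).La → W.leak (fc (F := FSp.im l.p A) C) ≤ I0 + Real.logb 2 (ncK M E0 K + 1)) ∧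
    H (fc (F := FSp.im l.p A) (Rst x φ e)) - (m * Real.logb 2 (5 * K / dlF F e) +
      (m + 1 : ℕ) * Real.logb 2 (M * (M + 1) + 2)) - I0 ≤ W.info := by
  have hK0 : 0 ≤ K := zero_le_one.trans N.K1
  refine ⟨flb l.p A (tcell F x J) u l.hn (cval x l u e), I (cpu l.p A (tcell F x J) u) (fam l.p A (tcell F x J)).p2.top ⊥,
    cpu_le l A (tcell F x J) (cQ1 F x) u N.fnu, ?_, fun i C hC => ?_, ?_⟩
  · refine flb_leak l.p A (tcell F x J) N.pA l.hn _ _ (ncK_nonneg M E0 hK0) fun w w' a b hu _ d => ?_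
    refine (N.cpt a hu d).trans ?_
    unfold ncK
    have : (0 : ℝ) ≤ E0 * (2 * K * (M + 1)) := by positivity
    have h2 : (1 : ℝ) * (M : ℝ) ≤ 2 * K * (M : ℝ) :=
      mul_le_mul_of_nonneg_right (by linarith [N.K1]) (Nat.cast_nonneg _)
    linarith
  · refine flb_leak l.p A (tcell F x J) N.pA l.hn _ _ (ncK_nonneg M E0 hK0) fun w w' a b hu hZ d => ?_
    exact N.cwin a b hu i hZ (hC d)
  · have h1 := flb_info (u := u) l.p A (tcell F x J) l.hn (cval x l u e) (Rst x φ e) (fun w w' _ _ hu h2 => by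
      unfold cval
      rw [hu, h2])
    exact le_trans (sub_le_sub_right (sub_le_sub_left N.cnt _) _) h1

end NHyp

end core

end

end Pool.Agent.Helper37.DK2
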