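import Pool.Agent.Helper37.DK2.Def

/-! LINEAR ALGEBRA of the classes `NC`: reduction of families of functionals, combinations which are small or zero on the
vertical coordinates. -/

set_option autoImplicit false

namespace Pool.Agent.Helper37.DK2

open Finset Filter Topology Matrix Pool.Agent.Helper69.RK Pool.Agent.Helper31.EC Pool.Agent.Helper31.EC.Sp
open Pool.Agent.Helper40.EL Pool.Agent.Helper89.LX Pool.Agent.Helper3.LF Pool.Agent.Helper84.MT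
open Pool.Agent.Helper49.MD Pool.Agent.Helper36.AM

noncomputable section

/-- admissible families of functionals -/
def Adm {γ β : Type} [Fintype γ] [Fintype β] (ν : Matrix γ β ℝ) : Prop :=
  ∀ b : γ → ℝ, b ⬝ᵥ b ≤ (b ᵥ* ν) ⬝ᵥ (b ᵥ* ν)

/-- REDUCTION: a map of families of functionals -/
theorem NCf.red {F : FSp} {C : Setoid F.Ω} {γ γ' : Type} [Fintype γ] [Fintype γ'] {α α' β β' : Type} [Fintype β]
    [Fintype β'] {t : F.Ω → α → β → ℝ} {t' : F.Ω → α' → β' → ℝ} {h₀ δ δ' δ'' κ : ℝ} (h0 : 0 < h₀) (hκ : 0 < κ) (h1 : κ ≤ δ / 2) (h2 : δ' ≤ δ / 2) (h3 : 2 * κ / δ + δ' + δ'' ≤ δ)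
    (B : F.Ω → Prop) (hB : F.pb B ≤ δ'') (Φ : Matrix γ' β' ℝ → Matrix γ β ℝ) (hΦ : ∀ ν, Adm ν → Adm (Φ ν))
    (hK : ∀ ω, F.μ ω ≠ 0 → ¬ B ω → ∀ ν, Adm ν → ∀ e, δ ≤ e → e ≤ 1 / 2 →
      (∀ a c, |(ν *ᵥ t' ω a) c| ≤ 2 ^ (-(e * F.n))) → ∀ a c, |(Φ ν *ᵥ t ω a) c| ≤ 2 ^ (-((e - κ) * F.n)))
    (H : NCf F C γ t h₀ δ') : NCf F C γ' t' h₀ δ := by
  intro l ν a1 a2 e he he'
  have hn := F.pos
  have hδ0 : 0 < δ := by linarith
  have he0 : 0 < e := hδ0.trans_le he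
  have hek : δ / 2 ≤ e - κ := by linarith
  have hek0 : 0 < e - κ := by linarith
  by_cases hL : 1 ≤ l.leak (fc C) / (h₀ * e * F.n)
  · exact (l.T.pb_le_one _).trans (by linarith)
  · rw [not_le] at hL
    have key := H l (fun w => Φ (ν w)) (fun w w' p q r s u => by
      show Φ (ν w) = Φ (ν w')
      rw [a1 w w' p q r s u]) (fun w hw => hΦ _ (a2 w hw)) (e - κ) (by linarith) (by linarith)
    have e1 : l.leak (fc C) / (h₀ * (e - κ) * F.n) = l.leak (fc C) / (h₀ * e * F.n) * (e / (e - κ)) := by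
      field_simp
    have e2 : e / (e - κ) = 1 + κ / (e - κ) := by
      field_simp
      ring
    have e3 : κ / (e - κ) ≤ 2 * κ / δ := by
      rw [div_le_div_iff₀ hek0 hδ0]
      nlinarith
    have e4 : 0 ≤ κ / (e - κ) := by positivity
    have e5 : 0 ≤ l.leak (fc C) / (h₀ * e * F.n) := div_nonneg (l.leak_nonneg _) (by positivity)
    have e6 : l.leak (fc C) / (h₀ * (e - κ) * F.n) ≤ l.leak (fc C) / (h₀ * e * F.n) + 2 * κ / δ := by
      rw [e1, e2, mul_add, mul_one]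
      have : l.leak (fc C) / (h₀ * e * F.n) * (κ / (e - κ)) ≤ 1 * (2 * κ / δ) :=
        mul_le_mul hL.le e3 e4 zero_le_one
      linarith
    have e7 : l.T.pb (fun w => ∀ a c, |(ν w *ᵥ t' (l.p.π w) a) c| ≤ 2 ^ (-(e * F.n))) ≤
        l.T.pb (fun w => (∀ a c, |(Φ (ν w) *ᵥ t (l.p.π w) a) c| ≤ 2 ^ (-((e - κ) * F.n))) ∨ B (l.p.π w)) := by
      refine l.T.pb_mono ?_
      intro w hw hs
      by_cases hb : B (l.p.π w)
      · exact Or.inr hb
      · exact Or.inl (hK _ (l.p.supp w hw) hb _ (a2 w hw) e he he' hs)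
    have e8 := pb_or l.T (fun w => ∀ a c, |(Φ (ν w) *ᵥ t (l.p.π w) a) c| ≤ 2 ^ (-((e - κ) * F.n)))
      (fun w => B (l.p.π w))
    have e9 : l.T.pb (fun w => B (l.p.π w)) = F.pb B := pb_push l.p B
    linarith

/-! ### combinations of functionals -/

theorem dps_nonneg {γ : Type} [Fintype γ] (b : γ → ℝ) : 0 ≤ b ⬝ᵥ b := Finset.sum_nonneg fun _ _ => mul_self_nonneg _

theorem dps_zero {γ : Type} [Fintype γ] {b : γ → ℝ} (hb : b ⬝ᵥ b = 0) : b = 0 := by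
  funext i
  have h1 := (Finset.sum_eq_zero_iff_of_nonneg fun i _ => mul_self_nonneg (b i)).mp hb i (Finset.mem_univ i)
  exact mul_self_eq_zero.mp h1

/-- a unit vector from a nonzero vector -/
theorem exists_unit {γ : Type} [Fintype γ] {b : γ → ℝ} (hb : b ≠ 0) : ∃ c : ℝ, c ≠ 0 ∧ (c • b) ⬝ᵥ (c • b) = 1 := by
  have h1 : 0 < b ⬝ᵥ b := by
    rcases (dps_nonneg b).lt_or_eq with h | h
    · exact h
    · exact absurd (dps_zero h.symm) hb
  refine ⟨1 / Real.sqrt (b ⬝ᵥ b), by positivity, ?_⟩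
  rw [smul_dotProduct, dotProduct_smul, smul_eq_mul, smul_eq_mul]
  have h2 : Real.sqrt (b ⬝ᵥ b) * Real.sqrt (b ⬝ᵥ b) = b ⬝ᵥ b := Real.mul_self_sqrt h1.le
  have h3 : Real.sqrt (b ⬝ᵥ b) ≠ 0 := by positivity
  field_simp
  rw [sq]
  exact h2.symm

/-- more functionals than vertical coordinates: a unit combination is horizontal -/
theorem exists_hor {γ β : Type} [Fintype γ] [Fintype β] (ν : Matrix γ β ℝ) (J : Finset β)
    (hc : Fintype.card β < Fintype.card γ + J.card) : ∃ b : γ → ℝ, b ⬝ᵥ b = 1 ∧ ∀ j ∉ J, (b ᵥ* ν) j = 0 := by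
  classical
  set f : (γ → ℝ) →ₗ[ℝ] (↥(Jᶜ : Finset β) → ℝ) :=
    { toFun := fun b j => (b ᵥ* ν) j
      map_add' := fun b b' => by funext j; simp [Matrix.add_vecMul]
      map_smul' := fun c b => by funext j; simp [Matrix.smul_vecMul] } with hf
  have h1 : LinearMap.ker f ≠ ⊥ := by
    apply LinearMap.ker_ne_bot_of_finrank_lt
    rw [Module.finrank_fintype_fun_eq_card, Module.finrank_fintype_fun_eq_card, Fintype.card_coe, Finset.card_compl]
    have := Finset.card_le_univ J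
    omega
  obtain ⟨b, hb, hb0⟩ := (Submodule.ne_bot_iff _).mp h1
  obtain ⟨c, _, hc1⟩ := exists_unit hb0
  refine ⟨c • b, hc1, fun j hj => ?_⟩
  have h2 := congrFun (LinearMap.mem_ker.mp hb) ⟨j, Finset.mem_compl.mpr hj⟩
  have h3 : (b ᵥ* ν) j = 0 := h2
  rw [Matrix.smul_vecMul, Pi.smul_apply, h3, smul_zero]

theorem isCompact_sph (γ : Type) [Fintype γ] : IsCompact {b : γ → ℝ | b ⬝ᵥ b = 1} := by
  apply Metric.isCompact_of_isClosed_isBounded
  · have h1 : Continuous fun b : γ → ℝ => b ⬝ᵥ b := by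
      unfold dotProduct
      fun_prop
    exact isClosed_singleton.preimage h1
  · rw [Metric.isBounded_iff_subset_closedBall 0]
    refine ⟨1, fun b hb => ?_⟩
    rw [mem_closedBall_zero_iff, pi_norm_le_iff_of_nonneg zero_le_one]
    intro i
    have h1 : b ⬝ᵥ b = 1 := hb
    have h2 : b i * b i ≤ b ⬝ᵥ b :=
      Finset.single_le_sum (f := fun i => b i * b i) (fun i _ => mul_self_nonneg _) (Finset.mem_univ i)
    rw [h1] at h2
    rw [Real.norm_eq_abs]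
    exact abs_le_one_iff_mul_self_le_one.mpr h2

theorem cauchy {γ : Type} [Fintype γ] (a b : γ → ℝ) : (a ⬝ᵥ b) ^ 2 ≤ (a ⬝ᵥ a) * (b ⬝ᵥ b) := by
  have h1 := Finset.sum_mul_sq_le_sq_mul_sq Finset.univ a b
  have h2 : a ⬝ᵥ a = ∑ i, a i ^ 2 := Finset.sum_congr rfl fun i _ => (sq _).symm
  have h3 : b ⬝ᵥ b = ∑ i, b i ^ 2 := Finset.sum_congr rfl fun i _ => (sq _).symm
  rw [h2, h3]
  exact h1

/-- the smallest singular values of a square matrix and of its transpose are equal -/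
theorem exists_minvec {γ : Type} [Fintype γ] [Nonempty γ] (B : Matrix γ γ ℝ) :
    ∃ b : γ → ℝ, b ⬝ᵥ b = 1 ∧ ∀ v : γ → ℝ, ((b ᵥ* B) ⬝ᵥ (b ᵥ* B)) * (v ⬝ᵥ v) ≤ (B *ᵥ v) ⬝ᵥ (B *ᵥ v) := by
  classical
  by_cases hd : B.det = 0
  · obtain ⟨b, hb, hb0⟩ := Matrix.exists_vecMul_eq_zero_iff.mpr hd
    obtain ⟨c, _, hc1⟩ := exists_unit hb
    refine ⟨c • b, hc1, fun v => ?_⟩
    rw [Matrix.smul_vecMul, hb0, smul_zero, zero_dotProduct, zero_mul]
    exact dps_nonneg _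
  · have hu : IsUnit B.det := isUnit_iff_ne_zero.mpr hd
    have hne : {b : γ → ℝ | b ⬝ᵥ b = 1}.Nonempty := by
      obtain ⟨i⟩ := ‹Nonempty γ›
      refine ⟨Pi.single i 1, ?_⟩
      show Pi.single i 1 ⬝ᵥ Pi.single i 1 = (1 : ℝ)
      rw [single_dotProduct, Pi.single_eq_same, one_mul]
    have hcont : Continuous fun b : γ → ℝ => (b ᵥ* B) ⬝ᵥ (b ᵥ* B) := by
      unfold Matrix.vecMul dotProduct
      fun_prop
    obtain ⟨b, hb, hmin⟩ := (isCompact_sph γ).exists_isMinOn hne hcont.continuousOn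
    refine ⟨b, hb, fun v => ?_⟩
    set σ := (b ᵥ* B) ⬝ᵥ (b ᵥ* B) with hσ
    have hσ0 : 0 ≤ σ := dps_nonneg _
    -- homogeneity of the minimum
    have h1 : ∀ c : γ → ℝ, σ * (c ⬝ᵥ c) ≤ (c ᵥ* B) ⬝ᵥ (c ᵥ* B) := by
      intro c
      by_cases hc : c = 0
      · subst hc
        rw [zero_dotProduct, mul_zero]
        exact dps_nonneg _
      · obtain ⟨x, hx, hx1⟩ := exists_unit hc
        have h2 : σ ≤ ((x • c) ᵥ* B) ⬝ᵥ ((x • c) ᵥ* B) := hmin hx1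
        rw [Matrix.smul_vecMul, smul_dotProduct, dotProduct_smul, smul_eq_mul, smul_eq_mul] at h2
        rw [smul_dotProduct, dotProduct_smul, smul_eq_mul, smul_eq_mul] at hx1
        have h3 : 0 < x * x := mul_self_pos.mpr hx
        have h4 : x * x * (σ * (c ⬝ᵥ c)) ≤ x * x * ((c ᵥ* B) ⬝ᵥ (c ᵥ* B)) := by
          have e1 : x * x * (σ * (c ⬝ᵥ c)) = σ * (x * (x * (c ⬝ᵥ c))) := by ring
          rw [e1, hx1, mul_one]
          linarith
        exact le_of_mul_le_mul_left h4 h3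
    -- the preimage
    set c := v ᵥ* B⁻¹ with hc
    have h2 : c ᵥ* B = v := by
      rw [hc, Matrix.vecMul_vecMul, Matrix.nonsing_inv_mul _ hu, Matrix.vecMul_one]
    have h3 := h1 c
    rw [h2] at h3
    have h4 : v ⬝ᵥ v = c ⬝ᵥ (B *ᵥ v) := by
      rw [Matrix.dotProduct_mulVec, h2]
    have h5 := cauchy c (B *ᵥ v)
    rw [← h4] at h5
    have hv0 := dps_nonneg v
    have hB0 := dps_nonneg (B *ᵥ v)
    rcases hv0.lt_or_eq with hv | hv
    · -- `σ (v.v)^2 ≤ σ (c.c) |Bv|^2 ≤ (v.v) |Bv|^2`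
      have h6 : (v ⬝ᵥ v) * (σ * (v ⬝ᵥ v)) ≤ (v ⬝ᵥ v) * ((B *ᵥ v) ⬝ᵥ (B *ᵥ v)) := by
        calc (v ⬝ᵥ v) * (σ * (v ⬝ᵥ v)) = σ * (v ⬝ᵥ v) ^ 2 := by ring
          _ ≤ σ * ((c ⬝ᵥ c) * ((B *ᵥ v) ⬝ᵥ (B *ᵥ v))) := mul_le_mul_of_nonneg_left h5 hσ0
          _ = (σ * (c ⬝ᵥ c)) * ((B *ᵥ v) ⬝ᵥ (B *ᵥ v)) := by ring
          _ ≤ _ := mul_le_mul_of_nonneg_right h3 hB0
      exact le_of_mul_le_mul_left h6 hv
    · rw [← hv, mul_zero]
      exact hB0

end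

end Pool.Agent.Helper37.DK2
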