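import Pool.Agent.Helper37.DK2.Nou
import Pool.Agent.Helper33.LIT.Kap

/-! The members of a homogeneous class: non concentration of the parts of the tangents in the coordinates of weight one
near hyperplanes. -/

set_option autoImplicit false

namespace Pool.Agent.Helper37.DK2

open Finset Filter Topology Matrix Pool.Agent.Helper69.RK Pool.Agent.Helper31.EC Pool.Agent.Helper31.EC.Sp
open Pool.Agent.Helper40.EL Pool.Agent.Helper89.LX Pool.Agent.Helper3.LF Pool.Agent.Helper84.MT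
open Pool.Agent.Helper49.MD Pool.Agent.Helper36.AM

noncomputable section

variable {S T : Sp} {M m : ℕ} {E : ℕ → ℕ} {ι κ : Type}

/-- cells of level 0 -/
theorem H_cell0 (y : S.VV M) {ε : ℝ} (hε : 0 < ε) : ∀ᶠ k in UF,
    H (fc (Setoid.ker (y.cellv 0 k)) : FL (S.F k)) ≤ ε * (S.F k).n := by
  have e1 : S.rt (y.bdd 0).toInf.1 S.tr = fun k => H (fc (Setoid.ker (y.cellv 0 k)) : FL (S.F k)) / (S.F k).n := by
    funext k
    rw [H_fc]
    show (S.F k).e (Setoid.ker (y.cellv 0 k)) (⊤ ⊓ (S.F k).Z) / (S.F k).n = _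
    rw [top_inf_eq]
  have h1 := ul_tendsto (UB_rt (S := S) (y.bdd 0).toInf S.tr)
  rw [e1] at h1
  have h2 : ul (fun k => H (fc (Setoid.ker (y.cellv 0 k)) : FL (S.F k)) / (S.F k).n) ≤ 0 := by
    rw [← e1, ← H_cl]
    have e0 : y.dg 0 = cl (y.bdd 0).toInf := io_eq (y.bdd 0)
    rw [← e0]
    have := y.H_dg_le le_rfl
    rwa [mul_zero] at this
  have h3 := h1.eventually (gt_mem_nhds (lt_of_le_of_lt h2 hε))
  filter_upwards [h3] with k hk
  exact ((div_lt_iff₀ (S.F k).pos).mp hk).le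

section

variable {Cl : MCl (m + 2)} {g r : ℕ} {w : Fin (m + 2) → ℝ} {ρ : ℝ}
  {TT : ∀ S : Sp, MSys S (m + 2) (lin g) (Fin r) → Prop}

/-- the coordinates other than the last are full -/
theorem hom_full (hT : Hom (m + 1) Cl g r w ρ TT) {s : MSys S (m + 2) (lin g) (Fin r)} (hs : TT S s) {e : ℝ}
    (he : 0 < e) (he1 : e ≤ 1) {ε : ℝ} (hε : 0 < ε) : ∀ᶠ k in UF, (((m : ℝ) + 1) * e - ε) * (S.F k).n ≤
      H (fc (Setoid.ker fun ω (i : Fin (m + 1)) => s.Q.cellv e k ω (Fin.castSucc i)) : FL (S.F k)) := by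
  have h1 := Pool.Agent.Helper33.LIT.hom_num0 hT hs le_rfl he.le he1
  rw [mul_zero, add_zero] at h1
  have h2 := h1.eventually (lt_mem_nhds (show ((m + 1 : ℕ) : ℝ) * e - ε / 2 < ((m + 1 : ℕ) : ℝ) * e by linarith))
  have h3 := H_cell0 s.Q (show 0 < ε / 2 by linarith)
  filter_upwards [h2, h3] with k a b
  have hn := (S.F k).pos
  have c1 := (lt_div_iff₀ hn).mp a
  have c2 : H (cel2 s.Q (Fin.last (m + 1)) e 0 k) ≤ H (fc (Setoid.ker (s.Q.cellv 0 k)) : FL (S.F k)) +
      H (fc (Setoid.ker fun ω (i : Fin (m + 1)) => s.Q.cellv e k ω (Fin.castSucc i)) : FL (S.F k)) := by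
    refine le_trans (H_mono ?_) (H_sup_le _ _)
    unfold cel2
    rw [fc_inf]
    refine sup_le_sup_left (fc_le ?_) _
    intro ω ω' _ _ _ h
    show (fun (j : {j : Fin (m + 2) // j ≠ Fin.last (m + 1)}) => s.Q.cellv e k ω j.1) =
      fun (j : {j : Fin (m + 2) // j ≠ Fin.last (m + 1)}) => s.Q.cellv e k ω' j.1
    funext j
    have h4 : (fun (i : Fin (m + 1)) => s.Q.cellv e k ω (Fin.castSucc i)) =
      fun (i : Fin (m + 1)) => s.Q.cellv e k ω' (Fin.castSucc i) := h
    have h5 := congrFun h4 (j.1.castPred j.2)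
    simpa using h5
  push_cast at c1
  linarith

/-- THE CLASS OF THE MEMBERS -/
theorem hom_cls (hT : Hom (m + 1) Cl g r w ρ TT) (hw : w (Fin.last (m + 1)) ≠ 1) :
    NcCls TT (J1 w) (Fin.castSucc : Fin (m + 1) → Fin (m + 2)) where
  im := fun S s hs T p A hA => hT.im S s hs T p A hA
  trn := fun S s hs e he h1 => hT.trn S s hs e he h1
  con := unif hT (by norm_num)
  rg := by
    intro j hj
    unfold J1 at hj
    rw [Finset.mem_filter] at hj
    have h1 : j ≠ Fin.last (m + 1) := fun h => hw (h ▸ hj.2)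
    exact ⟨j.castPred h1, Fin.castSucc_castPred j h1⟩
  full := fun S s hs e he h1 ε hε => hom_full hT hs he h1 hε
  af := by
    intro S s hs
    have h1 : ∀ i : Fin r, ∀ᶠ k in UF, ∀ ω, (S.F k).μ ω ≠ 0 → ∀ j ∈ J1 w, ∀ y y' : Fin (s.lf i).e → ℝ,
        (s.lf i).F k ω y j - (s.lf i).F k ω y' j = ∑ a, (y a - y' a) * mtan (ob s k) ω ⟨i, a⟩ j := by
      intro i
      obtain ⟨G, hG, hd⟩ := hT.wd S s hs i
      filter_upwards [hG] with k hk ω hω j hj y y'
      unfold J1 at hj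
      rw [Finset.mem_filter] at hj
      have h2 : (G k ω j).totalDegree ≤ 1 := by
        have := hd k ω j
        rw [hj.2] at this
        exact_mod_cast this
      have h3 : ∀ y y' : Fin (s.lf i).e → ℝ, (s.lf i).F k ω y j - (s.lf i).F k ω y' j =
          ∑ a, (y a - y' a) * (G k ω j).coeff (Finsupp.single a 1) := by
        intro y y'
        rw [hk ω hω y j, hk ω hω y' j]
        exact eval_sub_of_deg _ h2 y y'
      rw [h3 y y']
      refine Finset.sum_congr rfl fun a _ => ?_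
      congr 1
      exact (deriv_of_aff (fun y => (s.lf i).F k ω y j) _ h3 _ a).symm
    filter_upwards [eventually_all.mpr h1] with k hk ω hω i j hj y y'
    exact hk i ω hω j hj y y'

/-- NON CONCENTRATION for the members with (R1) -/
theorem hom_ncq (hT : Hom (m + 1) Cl g r w ρ TT) (hw : w (Fin.last (m + 1)) ≠ 1) : ∃ h₀ : ℝ, 0 < h₀ ∧
    ∀ S s, TT S s → R1 (J1 w) s → NCq (J1 w) h₀ s := (hom_cls hT hw).ncq

end

end

end Pool.Agent.Helper37.DK2
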