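import Pool.Agent.Helper37.DK2.NcH
import Pool.Agent.Helper81.MT.Glb
import Pool.Agent.Helper31.EC.Real

/-! NOUNIT: over the members of a homogeneous class with (R1) there are no types with unit directions in the coordinates
of weight larger than one, if the structure theorem holds for the class of the systems with one spanning direction
more. -/

set_option autoImplicit false

namespace Pool.Agent.Helper37.DK2

open Finset Filter Topology Matrix Pool.Agent.Helper69.RK Pool.Agent.Helper31.EC Pool.Agent.Helper31.EC.Sp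
open Pool.Agent.Helper40.EL Pool.Agent.Helper89.LX Pool.Agent.Helper3.LF Pool.Agent.Helper84.MT
open Pool.Agent.Helper49.MD Pool.Agent.Helper36.AM
open Pool.Agent.Helper33.LIT (hom_num0)

noncomputable section

variable {S T : Sp} {M m g r : ℕ} {E : ℕ → ℕ} {ι κ : Type}

theorem lin_mono {a b : ℕ} (h : a ≤ b) (D : ℕ) : Pool.Agent.Helper84.MT.lin a D ≤ Pool.Agent.Helper84.MT.lin b D :=
  Nat.mul_le_mul_right _ h

/-- a system with larger exponents -/
def mE (s : MSys S M (lin g) ι) {g' : ℕ} (h : g ≤ g') : MSys S M (lin g') ι :=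
  ⟨s.Q, fun i => (s.lf i).monoE (lin_mono h)⟩

theorem ob_mE (s : MSys S M (lin g) ι) {g' : ℕ} (h : g ≤ g') : ob (mE s h) = ob s := rfl

theorem cnd_mE (s : MSys S M (lin g) ι) {g' : ℕ} (h : g ≤ g') (c : ℝ) : (mE s h).cnd c = s.cnd c := by
  funext i k
  rw [cnd_ob, cnd_ob, ob_mE]

theorem vol_mE [Finite ι] (s : MSys S M (lin g) ι) {g' : ℕ} (h : g ≤ g') (D : ℕ) (c : ℝ) :
    (mE s h).vol D c = s.vol D c := by
  obtain ⟨x, hx⟩ := s.exists_can D c
  rw [← s.vol_eq hx.1]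
  refine ((mE s h).vol_eq ?_).symm
  have e1 := cnd_mE s h c
  show (gaq s.Q D).Optf ((mE s h).cnd c) x
  rw [e1]
  exact hx.1

/-- LIMITS of members of a class with one more type -/
theorem exists_lim_add {TT : ∀ S : Sp, MSys S M (lin g) (Fin r) → Prop} (hdg : DiagCl (lft TT)) (g' : ℕ) (S : ℕ → Sp)
    (s : ∀ i, MSys (S i) M (lin g) (Fin r)) (hs : ∀ i, TT (S i) (s i)) (X : ∀ i, Leaf (S i) (s i).Q (lin g'))
    (P : ℕ → ∀ F : FSp, FLf F.Ω M → Prop) (hP : ∀ i, ∀ᶠ k in UF, P i ((S i).F k) (lob (X i) k)) :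
    ∃ (J : ℕ → ℕ) (T : Sp) (t : MSys T M (lin g) (Fin r)) (Y : Leaf T t.Q (lin (max g g'))),
      Tendsto J UF atTop ∧ TT T t ∧ ∀ᶠ k in UF, P (J k) (T.F k) (lob Y k) := by
  obtain ⟨R, hR, h2⟩ := exists_lim (S := S) fun i => (⟨(s i).Q, Sum.elim
    (fun a => ((s i).lf a).monoE (lin_mono (le_max_left g g')))
    (fun _ : Fin 1 => (X i).monoE (lin_mono (le_max_right g g')))⟩ : MSys (S i) M (lin (max g g')) (Fin r ⊕ Fin 1))
  obtain ⟨R', hR', h3⟩ := hdg S (fun i => ob (s i)) (fun i => ⟨s i, Eventually.of_forall fun _ => rfl, hs i⟩)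
  obtain ⟨J, hJ⟩ := exists_slo S (fun i j k => (R i j k ∧ R' i j k) ∧ P j ((S j).F k) (lob (X j) k))
    fun i j => ((hR i j).and (hR' i j)).and (hP j)
  obtain ⟨t, ht⟩ := h2 J hJ.left.left
  obtain ⟨t', ht', h4⟩ := h3 J hJ.left.right
  have hp : ∀ᶠ k in UF, P (J k) ((S (J k)).F k) (lob (X (J k)) k) := hJ.right.slow 0
  refine ⟨J, _, t', (t.lf (Sum.inr 0)).congrQ (Q' := t'.Q) ⟨fun _ => 0, Sp.Sub_const _ le_rfl, ?_⟩, hJ.tend, h4, ?_⟩
  · filter_upwards [ht, ht'] with k a b ω _ i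
    have e1 : t.Q.v k = (s (J k)).Q.v k := congrArg FMs.Q a
    have e2 : t'.Q.v k = (s (J k)).Q.v k := congrArg FMs.Q b
    rw [e1, e2, sub_self, abs_zero, zero_mul]
  · filter_upwards [ht, hp] with k a b
    have e1 : lob (t.lf (Sum.inr 0)) k = lob (X (J k)) k := congrArg (fun x => FMs.lf x (Sum.inr 0)) a
    have e2 : P (J k) ((S (J k)).F k) (lob (t.lf (Sum.inr 0)) k) := by
      rw [e1]
      exact b
    exact e2

/-- the numbers of the members: the point has deficit `ρ` -/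
theorem hom_HQ {Cl : MCl (M + 1)} {w : Fin (M + 1) → ℝ} {ρ : ℝ} {TT : ∀ S : Sp, MSys S (M + 1) (lin g) (Fin r) → Prop}
    (hT : Hom M Cl g r w ρ TT) {s : MSys S (M + 1) (lin g) (Fin r)} (hs : TT S s) :
    ul (fun k => H (pcd s.Q k) / (S.F k).n) = (M : ℝ) + 1 - ρ := by
  have h1 := hom_num0 hT hs (b := 1) (a := 1) zero_le_one le_rfl le_rfl
  have e1 : ∀ k, H (cel2 s.Q (Fin.last M) 1 1 k) = H (pcd s.Q k) := by
    intro k
    apply le_antisymm
    · apply H_mono
      apply fc_le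
      intro ω ω' _ _ _ h
      refine ⟨h, ?_⟩
      have h' : s.Q.cellv 1 k ω = s.Q.cellv 1 k ω' := h
      funext j
      exact congrFun h' j.1
    · apply H_mono
      apply fc_le
      intro ω ω' _ _ _ h
      exact h.1
  simp only [e1] at h1
  rw [ul_eq h1]
  ring

/-- the entropy of the point -/
theorem H_dg_pcd (Q : S.VV M) : H (Q.dg 1) = ul (fun k => H (pcd Q k) / (S.F k).n) := by
  have e0 : Q.dg 1 = cl (Q.bdd 1).toInf := io_eq (Q.bdd 1)
  rw [e0, H_cl]
  congr 1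
  funext k
  show (S.F k).e (Setoid.ker (Q.cellv 1 k)) (⊤ ⊓ (S.F k).Z) / (S.F k).n = _
  rw [top_inf_eq]
  rfl

/-- a system with more types over a member of a homogeneous class is not in a class with the structure theorem -/
theorem not_sto {Cl : MCl (M + 1)} {w : Fin (M + 1) → ℝ} {ρ : ℝ} {TT : ∀ S : Sp, MSys S (M + 1) (lin g) (Fin r) → Prop}
    (hT : Hom M Cl g r w ρ TT) {s : MSys S (M + 1) (lin g) (Fin r)} (hs : TT S s) {g' : ℕ} (hg : g ≤ g') {n : ℕ}
    (l : Fin n → Leaf S (mE s hg).Q (lin g')) {D : MCl (M + 1)} (hD : STO (M + 1) D)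
    (hU : D S g' (r + n) (((mE s hg).union l).ren (finSumFinEquiv (m := r) (n := n)).symm)) : False := by
  have h1 := hD _ _ _ _ hU
  set U := ((mE s hg).union l).ren (finSumFinEquiv (m := r) (n := n)).symm with hUd
  have hsur : Function.Surjective (finSumFinEquiv (m := r) (n := n)).symm :=
    (finSumFinEquiv (m := r) (n := n)).symm.surjective
  -- the volume
  have h2 : (M : ℝ) + 1 ≤ volO U 0 := by
    have h3 := hT.hull S s hs
    have hb : BddBelow (Set.range fun D => s.vol D 0) := by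
      by_contra hc
      have h4 : volO s 0 = 0 := Real.iInf_of_not_bddBelow hc
      rw [h4] at h3
      have : (0 : ℝ) < (M : ℝ) + 1 := by positivity
      linarith
    rw [← h3]
    unfold volO
    apply le_ciInf
    intro D
    have h5 : U.vol D 0 = ((mE s hg).union l).vol D 0 := ((mE s hg).union l).vol_ren hsur D 0
    rw [h5]
    exact (ciInf_le hb D).trans ((le_of_eq (vol_mE s hg D 0).symm).trans ((mE s hg).vol_union_ge l D 0))
  -- the entropy
  have h4 : HQ U 0 ≤ (M : ℝ) + 1 - ρ := by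
    refine (H_up1_le _ _).trans (le_of_eq ?_)
    rw [H_dg_pcd]
    exact hom_HQ hT hs
  have h8 := hT.rho
  linarith

/-- NOUNIT -/
theorem nou (M : ℕ) : NOU M := by
  intro Cl g r w ρ TT hT hR hD g'
  have h1w : ∀ j, 1 ≤ w j := fun j => hT.one ▸ hT.mono (Fin.zero_le j)
  by_cases hw : w (Fin.last M) = 1
  · have hall : ∀ j, j ∈ J1 w := by
      intro j
      unfold J1
      rw [Finset.mem_filter]
      exact ⟨Finset.mem_univ _, le_antisymm (hw ▸ hT.mono (Fin.le_last j)) (h1w j)⟩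
    refine ⟨1, one_pos, fun S s _ X h0 h1 => ?_⟩
    obtain ⟨k, a, b⟩ := (h0.and h1).exists
    obtain ⟨ω, hω⟩ := exists_supp (S.F k)
    obtain ⟨c, j, h⟩ := b ω hω
    rw [a ω hω c j (hall j), abs_zero] at h
    exact absurd h (not_le.mpr (S.dl_pos 1 k))
  · obtain ⟨m, rfl⟩ : ∃ m, M = m + 1 := by
      rcases M with _ | m
      · exact absurd hT.one hw
      · exact ⟨m, rfl⟩
    obtain ⟨h₀, hh0, hq⟩ := hom_ncq hT hw
    by_contra hn
    have h1 : ∀ i : ℕ, ∃ (S : Sp) (s : MSys S (m + 1 + 1) (lin g) (Fin r)) (X : Leaf S s.Q (lin g')), TT S s ∧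
        (∀ᶠ k in UF, ∀ ω, (S.F k).μ ω ≠ 0 → ∀ a, ∀ j ∈ J1 w, ltan X k ω a j = 0) ∧
          ∀ᶠ k in UF, ∀ ω, (S.F k).μ ω ≠ 0 → ∃ a j, S.dl (1 / ((i : ℝ) + 1)) k ≤ |ltan X k ω a j| := by
      intro i
      by_contra hi
      refine hn ⟨1 / ((i : ℝ) + 1), by positivity, fun S s hs X h0 h1 => hi ⟨S, s, X, hs, h0, h1⟩⟩
    choose S s X hs hJ hU using h1
    obtain ⟨I, T, t, Y, hI, ht, hP⟩ := exists_lim_add (M := m + 1 + 1) hT.dg g' S s hs X
      (fun i F x => (∀ ω, F.μ ω ≠ 0 → ∀ a, ∀ j ∈ J1 w, ftan x ω a j = 0) ∧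
        ∀ ω, F.μ ω ≠ 0 → ∃ a j, dlF F (1 / ((i : ℝ) + 1)) ≤ |ftan x ω a j|)
      (fun i => (hJ i).and (hU i))
    have hne : (J1 w).Nonempty := ⟨0, by
      unfold J1
      rw [Finset.mem_filter]
      exact ⟨Finset.mem_univ _, hT.one⟩⟩
    have hq' : NCq (J1 w) h₀ (mE t (le_max_left g g')) := hq T t ht (hR T t ht)
    have hnc : NC ((J1 w).card + 1) h₀ ((mE t (le_max_left g g')).union fun _ : Fin 1 => Y) := by
      refine NCq.nou hne hh0 hq' (fun _ : Fin 1 => Y) ⟨_, Sp.Sub_diag T hI, ?_⟩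
      refine Typ_true.mono (hP.mono fun k hk ω hω _ => ?_)
      obtain ⟨a, j, h2⟩ := hk.2 ω hω
      refine ⟨0, a, fun j hj => hk.1 ω hω a j hj, j, ?_⟩
      have h3 : (2 : ℝ) ^ ((1 / ((I k : ℝ) + 1)) * (T.F k).n) * dlF (T.F k) (1 / ((I k : ℝ) + 1)) = 1 := by
        unfold dlF
        rw [← Real.rpow_add (by norm_num), add_neg_cancel, Real.rpow_zero]
      have h4 : (2 : ℝ) ^ ((1 / ((I k : ℝ) + 1)) * (T.F k).n) * dlF (T.F k) (1 / ((I k : ℝ) + 1)) ≤
          (2 : ℝ) ^ ((1 / ((I k : ℝ) + 1)) * (T.F k).n) * |ltan Y k ω a j| :=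
        mul_le_mul_of_nonneg_left h2 (by positivity)
      exact h3.symm.le.trans h4
    obtain ⟨n, hn'⟩ := exists_nat_one_div_lt hh0
    refine not_sto hT ht (le_max_left g g') (fun _ : Fin 1 => Y) hD ⟨n, ?_⟩
    rw [J1_card] at hnc
    exact (hnc.le (by positivity) hn'.le).ren (finSumFinEquiv (m := r) (n := 1)).symm.surjective

end

end Pool.Agent.Helper37.DK2
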